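import Mathlib

set_option autoImplicit false

namespace Pool.Agent.H407.Gol

/-- `B[x,y]/(xy, x²-y³)`, with basis `1, x, y, y², y³`. -/
@[ext] structure A5 (B : Type) where
  c0 : B
  c1 : B
  c2 : B
  c3 : B
  c4 : B

namespace A5

variable {B : Type} [CommRing B]

instance : Zero (A5 B) := ⟨⟨0, 0, 0, 0, 0⟩⟩
instance : One (A5 B) := ⟨⟨1, 0, 0, 0, 0⟩⟩
instance : Add (A5 B) := ⟨fun a b => ⟨a.c0 + b.c0, a.c1 + b.c1, a.c2 + b.c2, a.c3 + b.c3, a.c4 + b.c4⟩⟩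
instance : Neg (A5 B) := ⟨fun a => ⟨-a.c0, -a.c1, -a.c2, -a.c3, -a.c4⟩⟩
instance : Mul (A5 B) := ⟨fun a b =>
  ⟨a.c0 * b.c0, a.c0 * b.c1 + a.c1 * b.c0, a.c0 * b.c2 + a.c2 * b.c0,
    a.c0 * b.c3 + a.c3 * b.c0 + a.c2 * b.c2,
    a.c0 * b.c4 + a.c4 * b.c0 + a.c1 * b.c1 + a.c2 * b.c3 + a.c3 * b.c2⟩⟩

@[simp] lemma zero_c0 : (0 : A5 B).c0 = 0 := rfl
@[simp] lemma zero_c1 : (0 : A5 B).c1 = 0 := rfl
@[simp] lemma zero_c2 : (0 : A5 B).c2 = 0 := rfl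
@[simp] lemma zero_c3 : (0 : A5 B).c3 = 0 := rfl
@[simp] lemma zero_c4 : (0 : A5 B).c4 = 0 := rfl
@[simp] lemma one_c0 : (1 : A5 B).c0 = 1 := rfl
@[simp] lemma one_c1 : (1 : A5 B).c1 = 0 := rfl
@[simp] lemma one_c2 : (1 : A5 B).c2 = 0 := rfl
@[simp] lemma one_c3 : (1 : A5 B).c3 = 0 := rfl
@[simp] lemma one_c4 : (1 : A5 B).c4 = 0 := rfl
@[simp] lemma add_c0 (a b : A5 B) : (a + b).c0 = a.c0 + b.c0 := rfl
@[simp] lemma add_c1 (a b : A5 B) : (a + b).c1 = a.c1 + b.c1 := rfl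
@[simp] lemma add_c2 (a b : A5 B) : (a + b).c2 = a.c2 + b.c2 := rfl
@[simp] lemma add_c3 (a b : A5 B) : (a + b).c3 = a.c3 + b.c3 := rfl
@[simp] lemma add_c4 (a b : A5 B) : (a + b).c4 = a.c4 + b.c4 := rfl
@[simp] lemma neg_c0 (a : A5 B) : (-a).c0 = -a.c0 := rfl
@[simp] lemma neg_c1 (a : A5 B) : (-a).c1 = -a.c1 := rfl
@[simp] lemma neg_c2 (a : A5 B) : (-a).c2 = -a.c2 := rfl
@[simp] lemma neg_c3 (a : A5 B) : (-a).c3 = -a.c3 := rfl
@[simp] lemma neg_c4 (a : A5 B) : (-a).c4 = -a.c4 := rfl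
@[simp] lemma mul_c0 (a b : A5 B) : (a * b).c0 = a.c0 * b.c0 := rfl
@[simp] lemma mul_c1 (a b : A5 B) : (a * b).c1 = a.c0 * b.c1 + a.c1 * b.c0 := rfl
@[simp] lemma mul_c2 (a b : A5 B) : (a * b).c2 = a.c0 * b.c2 + a.c2 * b.c0 := rfl
@[simp] lemma mul_c3 (a b : A5 B) : (a * b).c3 =
  a.c0 * b.c3 + a.c3 * b.c0 + a.c2 * b.c2 := rfl
@[simp] lemma mul_c4 (a b : A5 B) : (a * b).c4 =
  a.c0 * b.c4 + a.c4 * b.c0 + a.c1 * b.c1 + a.c2 * b.c3 + a.c3 * b.c2 := rfl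

instance : CommRing (A5 B) where
  add_assoc a b c := by ext <;> simp [add_assoc]
  zero_add a := by ext <;> simp
  add_zero a := by ext <;> simp
  add_comm a b := by ext <;> simp [add_comm]
  mul_assoc a b c := by ext <;> simp <;> ring
  one_mul a := by ext <;> simp
  mul_one a := by ext <;> simp
  left_distrib a b c := by ext <;> simp <;> ring
  right_distrib a b c := by ext <;> simp <;> ring
  zero_mul a := by ext <;> simp
  mul_zero a := by ext <;> simp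
  mul_comm a b := by ext <;> simp <;> ring
  neg_add_cancel a := by ext <;> simp
  nsmul := nsmulRec
  zsmul := zsmulRec

@[simp] lemma sub_c0 (a b : A5 B) : (a - b).c0 = a.c0 - b.c0 := by
  rw [sub_eq_add_neg, add_c0, neg_c0, sub_eq_add_neg]
@[simp] lemma sub_c1 (a b : A5 B) : (a - b).c1 = a.c1 - b.c1 := by
  rw [sub_eq_add_neg, add_c1, neg_c1, sub_eq_add_neg]
@[simp] lemma sub_c2 (a b : A5 B) : (a - b).c2 = a.c2 - b.c2 := by
  rw [sub_eq_add_neg, add_c2, neg_c2, sub_eq_add_neg]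
@[simp] lemma sub_c3 (a b : A5 B) : (a - b).c3 = a.c3 - b.c3 := by
  rw [sub_eq_add_neg, add_c3, neg_c3, sub_eq_add_neg]
@[simp] lemma sub_c4 (a b : A5 B) : (a - b).c4 = a.c4 - b.c4 := by
  rw [sub_eq_add_neg, add_c4, neg_c4, sub_eq_add_neg]

/-- the constants -/
def C : B →+* A5 B where
  toFun b := ⟨b, 0, 0, 0, 0⟩
  map_one' := rfl
  map_mul' a b := by ext <;> simp
  map_zero' := rfl
  map_add' a b := by ext <;> simp

@[simp] lemma C_c0 (b : B) : (C b).c0 = b := rfl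
@[simp] lemma C_c1 (b : B) : (C b).c1 = 0 := rfl
@[simp] lemma C_c2 (b : B) : (C b).c2 = 0 := rfl
@[simp] lemma C_c3 (b : B) : (C b).c3 = 0 := rfl
@[simp] lemma C_c4 (b : B) : (C b).c4 = 0 := rfl

/-- the generator `x` -/
def x : A5 B := ⟨0, 1, 0, 0, 0⟩
/-- the generator `y` -/
def y : A5 B := ⟨0, 0, 1, 0, 0⟩

@[simp] lemma x_c0 : (x : A5 B).c0 = 0 := rfl
@[simp] lemma x_c1 : (x : A5 B).c1 = 1 := rfl
@[simp] lemma x_c2 : (x : A5 B).c2 = 0 := rfl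
@[simp] lemma x_c3 : (x : A5 B).c3 = 0 := rfl
@[simp] lemma x_c4 : (x : A5 B).c4 = 0 := rfl
@[simp] lemma y_c0 : (y : A5 B).c0 = 0 := rfl
@[simp] lemma y_c1 : (y : A5 B).c1 = 0 := rfl
@[simp] lemma y_c2 : (y : A5 B).c2 = 1 := rfl
@[simp] lemma y_c3 : (y : A5 B).c3 = 0 := rfl
@[simp] lemma y_c4 : (y : A5 B).c4 = 0 := rfl

lemma xy : (x * y : A5 B) = 0 := by ext <;> simp
lemma xx : (x * x : A5 B) = y * y * y := by ext <;> simp

lemma decomp (a : A5 B) : a = C a.c0 + C a.c1 * x + C a.c2 * y + C a.c3 * (y * y)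
    + C a.c4 * (y * y * y) := by
  ext <;> simp

/-- the constant coefficient -/
def ε : A5 B →+* B where
  toFun a := a.c0
  map_one' := rfl
  map_mul' _ _ := rfl
  map_zero' := rfl
  map_add' _ _ := rfl

@[simp] lemma ε_apply (a : A5 B) : ε a = a.c0 := rfl

/-- the universal property -/
def lift {E : Type} [CommRing E] (f : B →+* E) (X Y : E) (h1 : X * Y = 0)
    (h2 : X * X = Y * Y * Y) : A5 B →+* E where
  toFun a := f a.c0 + f a.c1 * X + f a.c2 * Y + f a.c3 * (Y * Y) + f a.c4 * (Y * Y * Y)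
  map_one' := by simp
  map_zero' := by simp
  map_add' a b := by simp; ring
  map_mul' a b := by
    have h3 : X * Y = 0 := h1
    have h4 : X * (Y * Y) = 0 := by rw [← mul_assoc, h1, zero_mul]
    have h5 : X * (Y * Y * Y) = 0 := by
      rw [mul_assoc, ← mul_assoc, h1, zero_mul]
    have h6 : Y * Y * Y * Y = 0 := by rw [← h2, mul_assoc, h1, mul_zero]
    simp only [mul_c0, mul_c1, mul_c2, mul_c3, mul_c4, map_mul, map_add]
    have e : (f a.c0 + f a.c1 * X + f a.c2 * Y + f a.c3 * (Y * Y) + f a.c4 * (Y * Y * Y)) *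
      (f b.c0 + f b.c1 * X + f b.c2 * Y + f b.c3 * (Y * Y) + f b.c4 * (Y * Y * Y))
      = f a.c0 * f b.c0 + (f a.c0 * f b.c1 + f a.c1 * f b.c0) * X
        + (f a.c0 * f b.c2 + f a.c2 * f b.c0) * Y
        + (f a.c0 * f b.c3 + f a.c3 * f b.c0 + f a.c2 * f b.c2) * (Y * Y)
        + (f a.c0 * f b.c4 + f a.c4 * f b.c0 + f a.c2 * f b.c3 + f a.c3 * f b.c2) * (Y * Y * Y)
        + f a.c1 * f b.c1 * (X * X)
        + (f a.c1 * f b.c2 + f a.c2 * f b.c1) * (X * Y)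
        + (f a.c1 * f b.c3 + f a.c3 * f b.c1) * (X * (Y * Y))
        + (f a.c1 * f b.c4 + f a.c4 * f b.c1) * (X * (Y * Y * Y))
        + (f a.c2 * f b.c4 + f a.c4 * f b.c2 + f a.c3 * f b.c3) * (Y * Y * Y * Y)
        + (f a.c3 * f b.c4 + f a.c4 * f b.c3) * (Y * Y * Y * Y) * Y
        + (f a.c4 * f b.c4) * (Y * Y * Y * Y) * (Y * Y) := by ring
    rw [e, h3, h4, h5, h6, h2]
    ring

lemma lift_C {E : Type} [CommRing E] (f : B →+* E) (X Y : E) (h1 : X * Y = 0)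
    (h2 : X * X = Y * Y * Y) (b : B) : lift f X Y h1 h2 (C b) = f b := by
  simp [lift]
lemma lift_x {E : Type} [CommRing E] (f : B →+* E) (X Y : E) (h1 : X * Y = 0)
    (h2 : X * X = Y * Y * Y) : lift f X Y h1 h2 x = X := by
  simp [lift]
lemma lift_y {E : Type} [CommRing E] (f : B →+* E) (X Y : E) (h1 : X * Y = 0)
    (h2 : X * X = Y * Y * Y) : lift f X Y h1 h2 y = Y := by
  simp [lift]

end A5

end Pool.Agent.H407.Gol
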