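import Mathlib
import Pool.Agent.H407.Gol.A5

set_option autoImplicit false
set_option linter.unusedSectionVars false

namespace Pool.Agent.H407.Gol

/-- the four families of basis elements `T^{(a,b)}`, `e_x T^{(a,b)}`, `e_y T^{(a,b)}`,
`e_x e_y T^{(a,b)}` -/
inductive Fam
  | p | q | r | t
  deriving DecidableEq

instance : Fintype Fam := ⟨{.p, .q, .r, .t}, by intro x; cases x <;> simp⟩

/-- basis index of the Tate resolution over `A5` -/
abbrev Idx : Type := Fam × ℕ × ℕ

/-- the degree -/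
def deg : Idx → ℕ
  | (.p, a, b) => 2 * (a + b)
  | (.q, a, b) => 2 * (a + b) + 1
  | (.r, a, b) => 2 * (a + b) + 1
  | (.t, a, b) => 2 * (a + b) + 2

section dd

variable {S : Type} [CommRing S] (x y : S) (N : Type) [AddCommGroup N] [Module S N]

/-- the differential of the Tate resolution -/
def dd : (Idx → N) →ₗ[S] (Idx → N) where
  toFun v := fun i => match i with
    | (.p, a, b) => x • v (.q, a, b) + y • v (.r, a, b)
    | (.q, a, b) => -(y • v (.t, a, b)) + y • v (.p, a + 1, b) + x • v (.p, a, b + 1)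
    | (.r, a, b) => x • v (.t, a, b) - (y * y) • v (.p, a, b + 1)
    | (.t, a, b) => (y * y) • v (.q, a, b + 1) + y • v (.r, a + 1, b) + x • v (.r, a, b + 1)
  map_add' v w := by
    funext i
    obtain ⟨f, a, b⟩ := i
    cases f <;> simp only [Pi.add_apply, smul_add] <;> abel
  map_smul' c v := by
    funext i
    obtain ⟨f, a, b⟩ := i
    cases f <;> simp only [Pi.smul_apply, RingHom.id_apply, smul_add, smul_sub, smul_neg,
      smul_comm _ c]

variable {N}

lemma dd_p (v : Idx → N) (a b : ℕ) :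
    dd x y N v (.p, a, b) = x • v (.q, a, b) + y • v (.r, a, b) := rfl
lemma dd_q (v : Idx → N) (a b : ℕ) :
    dd x y N v (.q, a, b) = -(y • v (.t, a, b)) + y • v (.p, a + 1, b) + x • v (.p, a, b + 1) := rfl
lemma dd_r (v : Idx → N) (a b : ℕ) :
    dd x y N v (.r, a, b) = x • v (.t, a, b) - (y * y) • v (.p, a, b + 1) := rfl
lemma dd_t (v : Idx → N) (a b : ℕ) :
    dd x y N v (.t, a, b) =
      (y * y) • v (.q, a, b + 1) + y • v (.r, a + 1, b) + x • v (.r, a, b + 1) := rfl

lemma dd_dd (hxy : x * y = 0) (hxx : x * x = y * y * y) (v : Idx → N) :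
    dd x y N (dd x y N v) = 0 := by
  have e1 : ∀ n : N, x • y • n = 0 := fun n => by rw [smul_smul, hxy, zero_smul]
  have e2 : ∀ n : N, y • x • n = 0 := fun n => by rw [smul_smul, mul_comm, hxy, zero_smul]
  have e3 : ∀ n : N, x • x • n = y • y • y • n := fun n => by
    rw [smul_smul, smul_smul, smul_smul, hxx, mul_assoc]
  funext i
  obtain ⟨f, a, b⟩ := i
  cases f <;> simp only [dd_p, dd_q, dd_r, dd_t, smul_add, smul_sub, smul_neg, mul_smul, e1, e2, e3,
    Pi.zero_apply, smul_zero] <;> abel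

lemma dd_nat {N' : Type} [AddCommGroup N'] [Module S N'] (g : N →ₗ[S] N') (v : Idx → N) :
    dd x y N' (fun i => g (v i)) = fun i => g (dd x y N v i) := by
  funext i
  obtain ⟨f, a, b⟩ := i
  cases f <;> simp [dd_p, dd_q, dd_r, dd_t]

/-- commutation of two differentials acting on different indices -/
lemma dd_comm (x' y' : S) (V : Idx → Idx → N) (i j : Idx) :
    dd x y N (fun i' => dd x' y' N (V i') j) i = dd x' y' N (fun j' => dd x y N (fun i' => V i' j') i) j := by
  obtain ⟨f, a, b⟩ := i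
  obtain ⟨f', a', b'⟩ := j
  cases f <;> cases f' <;>
    simp only [dd_p, dd_q, dd_r, dd_t, smul_add, smul_sub, smul_neg, mul_smul, smul_comm x' x,
      smul_comm x' y, smul_comm y' x, smul_comm y' y] <;> abel

lemma dd_deg (v : Idx → N) (n : ℕ) (hv : ∀ i, deg i ≠ n → v i = 0) (i : Idx)
    (hi : deg i + 1 ≠ n) : dd x y N v i = 0 := by
  obtain ⟨f, a, b⟩ := i
  cases f
  · rw [dd_p, hv (.q, a, b), hv (.r, a, b), smul_zero, smul_zero, add_zero] <;>
      simp only [deg] at * <;> omega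
  · rw [dd_q, hv (.t, a, b), hv (.p, a + 1, b), hv (.p, a, b + 1)]
    · simp
    all_goals simp only [deg] at *; omega
  · rw [dd_r, hv (.t, a, b), hv (.p, a, b + 1)]
    · simp
    all_goals simp only [deg] at *; omega
  · rw [dd_t, hv (.q, a, b + 1), hv (.r, a + 1, b), hv (.r, a, b + 1)]
    · simp
    all_goals simp only [deg] at *; omega

end dd

section ss

variable {B : Type} [CommRing B]

open A5

/-- the contraction -/
def ss (v : Idx → A5 B) : Idx → A5 B
  | (.p, 0, 0) => 0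
  | (.p, a + 1, b) => ⟨(v (.q, a, b)).c2 + (v (.r, a, b)).c1, 0, 0, 0, 0⟩
  | (.p, 0, b + 1) => ⟨(v (.q, 0, b)).c1, 0, 0, 0, 0⟩
  | (.q, 0, b) => ⟨(v (.p, 0, b)).c1, 0, 0, 0, 0⟩
  | (.q, a + 1, b) => ⟨(v (.p, a + 1, b)).c1, (v (.p, a + 1, b)).c4 - (v (.t, a, b)).c4, 0, 0, 0⟩
  | (.r, 0, b) => ⟨(v (.p, 0, b)).c2, 0, (v (.p, 0, b)).c3, (v (.p, 0, b)).c4, 0⟩
  | (.r, a + 1, b) => ⟨(v (.p, a + 1, b)).c2, 0, (v (.p, a + 1, b)).c3, (v (.t, a, b)).c4, 0⟩
  | (.t, a, b) => ⟨(v (.r, a, b)).c1, (v (.r, a, b)).c4, -(v (.q, a, b)).c3, -(v (.q, a, b)).c4, 0⟩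

/-- the projection to the constant part -/
def ηε (v : Idx → A5 B) : Idx → A5 B
  | (.p, 0, 0) => C (v (.p, 0, 0)).c0
  | _ => 0

lemma ss_contr (v : Idx → A5 B) (i : Idx) :
    dd (x : A5 B) y (A5 B) (ss v) i + ss (dd (x : A5 B) y (A5 B) v) i = v i - ηε v i := by
  obtain ⟨f, a, b⟩ := i
  cases f <;> rcases a with _ | a <;> rcases b with _ | b <;>
    ext <;> simp [dd_p, dd_q, dd_r, dd_t, ss, ηε, smul_eq_mul] <;> try ring

end ss

end Pool.Agent.H407.Gol
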