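import Mathlib
import Pool.Agent.H407.Gol.Cplx

set_option autoImplicit false
set_option linter.unusedSectionVars false

namespace Pool.Agent.H407.Gol

/-- the origin index -/
abbrev o : Idx := (.p, 0, 0)

/-- the sign of an index -/
def sg (S : Type) [CommRing S] : Idx → S
  | (.p, _, _) => 1
  | (.q, _, _) => -1
  | (.r, _, _) => -1
  | (.t, _, _) => 1

lemma sg_mul (S : Type) [CommRing S] (i : Idx) : sg S i * sg S i = 1 := by
  obtain ⟨f, a, b⟩ := i
  cases f <;> simp [sg]

/-- supported in degree `n` -/
def Sup {N : Type} [Zero N] (n : ℕ) (V : Idx → Idx → N) : Prop :=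
  ∀ i j, deg i + deg j ≠ n → V i j = 0

section D

variable {S : Type} [CommRing S] (x y u v : S) (N : Type) [AddCommGroup N] [Module S N]

/-- the total differential -/
def DT : (Idx → Idx → N) →ₗ[S] (Idx → Idx → N) where
  toFun V := fun i j => dd x y N (fun i' => V i' j) i + sg S i • dd u v N (V i) j
  map_add' V W := by
    funext i j
    have h1 : (fun i' => (V + W) i' j) = (fun i' => V i' j) + (fun i' => W i' j) := rfl
    have h2 : (V + W) i = V i + W i := rfl
    rw [h1, h2, map_add, map_add]
    simp only [Pi.add_apply, smul_add]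
    abel
  map_smul' c V := by
    funext i j
    have h1 : (fun i' => (c • V) i' j) = c • (fun i' => V i' j) := rfl
    have h2 : (c • V) i = c • V i := rfl
    rw [h1, h2, map_smul, map_smul]
    simp only [Pi.smul_apply, RingHom.id_apply, smul_add, smul_comm (sg S i) c]

variable {N}

lemma DT_apply (V : Idx → Idx → N) (i j : Idx) :
    DT x y u v N V i j = dd x y N (fun i' => V i' j) i + sg S i • dd u v N (V i) j := rfl

lemma dd_sg (w : Idx → N) (i : Idx) :
    dd x y N (fun i' => sg S i' • w i') i = -(sg S i • dd x y N w i) := by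
  obtain ⟨f, a, b⟩ := i
  cases f <;> simp only [dd_p, dd_q, dd_r, dd_t, sg, neg_smul, one_smul, smul_neg] <;> abel

lemma DT_DT (hxy : x * y = 0) (hxx : x * x = y * y * y) (huv : u * v = 0)
    (huu : u * u = v * v * v) (V : Idx → Idx → N) :
    DT x y u v N (DT x y u v N V) = 0 := by
  funext i j
  rw [DT_apply]
  have h1 : (fun i' => DT x y u v N V i' j) = (dd x y N (fun i' => V i' j)) +
      (fun i' => sg S i' • dd u v N (V i') j) := rfl
  have h2 : DT x y u v N V i = (fun j' => dd x y N (fun i' => V i' j') i) +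
      sg S i • dd u v N (V i) := rfl
  rw [h1, h2, map_add, map_add, map_smul, dd_dd x y hxy hxx, dd_dd u v huv huu, Pi.add_apply,
    Pi.add_apply, dd_sg, dd_comm]
  simp

lemma DT_nat {N' : Type} [AddCommGroup N'] [Module S N'] (g : N →ₗ[S] N')
    (V : Idx → Idx → N) :
    DT x y u v N' (fun i j => g (V i j)) = fun i j => g (DT x y u v N V i j) := by
  funext i j
  rw [DT_apply, DT_apply, dd_nat x y g (fun i' => V i' j), dd_nat u v g (V i), map_add, map_smul]

lemma DT_sup (V : Idx → Idx → N) (n : ℕ) (hV : Sup (n + 1) V) : Sup n (DT x y u v N V) := by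
  intro i j hij
  rw [DT_apply]
  by_cases hj : deg j ≤ n + 1
  · rw [dd_deg x y (fun i' => V i' j) (n + 1 - deg j) (fun i' hi' => hV i' j (by omega)) i
      (by omega), zero_add]
    by_cases hi : deg i ≤ n + 1
    · rw [dd_deg u v (V i) (n + 1 - deg i) (fun j' hj' => hV i j' (by omega)) j (by omega),
        smul_zero]
    · have : V i = 0 := by
        funext j'
        exact hV i j' (by omega)
      rw [this, map_zero, Pi.zero_apply, smul_zero]
  · have : (fun i' => V i' j) = 0 := by
      funext i'
      exact hV i' j (by omega)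
    rw [this, map_zero, Pi.zero_apply, zero_add]
    by_cases hi : deg i ≤ n + 1
    · rw [dd_deg u v (V i) (n + 1 - deg i) (fun j' hj' => hV i j' (by omega)) j (by omega),
        smul_zero]
    · have : V i = 0 := by
        funext j'
        exact hV i j' (by omega)
      rw [this, map_zero, Pi.zero_apply, smul_zero]

lemma DT_sup0 (V : Idx → Idx → N) (hV : Sup 0 V) : DT x y u v N V = 0 := by
  funext i j
  rw [DT_apply]
  have h1 : dd x y N (fun i' => V i' j) i = 0 := by
    by_cases hj : deg j = 0
    · exact dd_deg x y (fun i' => V i' j) 0 (fun i' hi' => hV i' j (by omega)) i (by omega)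
    · have : (fun i' => V i' j) = 0 := by
        funext i'
        exact hV i' j (by omega)
      rw [this, map_zero, Pi.zero_apply]
  have h2 : dd u v N (V i) j = 0 := by
    by_cases hi : deg i = 0
    · exact dd_deg u v (V i) 0 (fun j' hj' => hV i j' (by omega)) j (by omega)
    · have : V i = 0 := by
        funext j'
        exact hV i j' (by omega)
      rw [this, map_zero, Pi.zero_apply]
  rw [h1, h2, smul_zero, zero_add]
  rfl

end D

section exact

open A5

variable {B : Type} [CommRing B]

lemma ss_sg (w : Idx → A5 B) (i : Idx) :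
    ss (fun i' => sg (A5 B) i' • w i') i = -(sg (A5 B) i • ss w i) := by
  obtain ⟨f, a, b⟩ := i
  cases f <;> rcases a with _ | a <;> rcases b with _ | b <;> ext <;>
    simp [ss, sg] <;> ring

lemma ss_neg (w : Idx → A5 B) (i : Idx) :
    ss (fun i' => - w i') i = - ss w i := by
  obtain ⟨f, a, b⟩ := i
  cases f <;> rcases a with _ | a <;> rcases b with _ | b <;> ext <;>
    simp [ss] <;> ring

lemma ss_add (w w' : Idx → A5 B) (i : Idx) :
    ss (fun i' => w i' + w' i') i = ss w i + ss w' i := by
  obtain ⟨f, a, b⟩ := i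
  cases f <;> rcases a with _ | a <;> rcases b with _ | b <;> ext <;>
    simp [ss] <;> ring

lemma ss_C (c : B) (w : Idx → A5 B) (i : Idx) :
    ss (fun i' => C c • w i') i = C c • ss w i := by
  obtain ⟨f, a, b⟩ := i
  cases f <;> rcases a with _ | a <;> rcases b with _ | b <;> ext <;>
    simp [ss] <;> ring

lemma ss_CC (c c' : B) (w : Idx → A5 B) (i : Idx) :
    ss (fun i' => (C c * C c') • w i') i = (C c * C c') • ss w i := by
  rw [← map_mul]
  exact ss_C _ _ _

lemma ss_sub (w w' : Idx → A5 B) (i : Idx) :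
    ss (fun i' => w i' - w' i') i = ss w i - ss w' i := by
  simp only [sub_eq_add_neg]
  rw [ss_add w (fun i' => - w' i'), ss_neg]

lemma ss_comm (u v : B) (V : Idx → Idx → A5 B) (i j : Idx) :
    ss (fun i' => dd (C u) (C v) (A5 B) (V i') j) i =
      dd (C u) (C v) (A5 B) (fun j' => ss (fun i' => V i' j') i) j := by
  obtain ⟨f', a', b'⟩ := j
  cases f'
  · simp only [dd_p]
    rw [ss_add (fun i' => C u • V i' _) (fun i' => C v • V i' _), ss_C, ss_C]
  · simp only [dd_q]
    rw [ss_add (fun i' => -(C v • V i' _) + C v • V i' _) (fun i' => C u • V i' _),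
      ss_add (fun i' => -(C v • V i' _)) (fun i' => C v • V i' _),
      ss_neg (fun i' => C v • V i' _), ss_C, ss_C, ss_C]
  · simp only [dd_r]
    rw [ss_sub (fun i' => C u • V i' _) (fun i' => (C v * C v) • V i' _), ss_C, ss_CC]
  · simp only [dd_t]
    rw [ss_add (fun i' => (C v * C v) • V i' _ + C v • V i' _) (fun i' => C u • V i' _),
      ss_add (fun i' => (C v * C v) • V i' _) (fun i' => C v • V i' _), ss_CC, ss_C, ss_C]

/-- inclusion of the constants -/
def η1 (w : Idx → B) : Idx → Idx → A5 B
  | (.p, 0, 0) => fun j => C (w j)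
  | _ => 0

lemma η1_D (u v : B) (w : Idx → B) :
    DT x y (C u) (C v) (A5 B) (η1 w) = η1 (dd u v B w) := by
  funext i j
  rw [DT_apply]
  obtain ⟨f, a, b⟩ := i
  obtain ⟨f', a', b'⟩ := j
  cases f <;> rcases a with _ | a <;> rcases b with _ | b <;> cases f' <;> ext <;>
    simp [η1, sg, dd_p, dd_q, dd_r, dd_t, smul_eq_mul]

lemma s1_D (u v : B) (V : Idx → Idx → A5 B) (hV : DT x y (C u) (C v) (A5 B) V = 0) :
    DT x y (C u) (C v) (A5 B) (fun i j => ss (fun i' => V i' j) i) =
      V - (fun i j => ηε (fun i' => V i' j) i) := by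
  have h0 : ∀ i j, dd (x : A5 B) y (A5 B) (fun i' => V i' j) i =
      -(sg (A5 B) i • dd (C u) (C v) (A5 B) (V i) j) := by
    intro i j
    have := congrFun (congrFun hV i) j
    rw [DT_apply] at this
    exact eq_neg_of_add_eq_zero_left this
  funext i j
  rw [DT_apply]
  have h1 := ss_contr (fun i' => V i' j) i
  have h2 : ss (dd (x : A5 B) y (A5 B) (fun i' => V i' j)) i =
      sg (A5 B) i • ss (fun i' => dd (C u) (C v) (A5 B) (V i') j) i := by
    have : dd (x : A5 B) y (A5 B) (fun i' => V i' j) =
        fun i => -(sg (A5 B) i • dd (C u) (C v) (A5 B) (V i) j) := funext fun i => h0 i j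
    rw [this, ss_neg (fun i => sg (A5 B) i • dd (C u) (C v) (A5 B) (V i) j),
      ss_sg (fun i => dd (C u) (C v) (A5 B) (V i) j), neg_neg]
  rw [h2, ss_comm] at h1
  exact h1

end exact

attribute [irreducible] DT

end Pool.Agent.H407.Gol
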