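import Mathlib
import Pool.Agent.H407.Gol.Tot

set_option autoImplicit false
set_option linter.unusedSectionVars false

namespace Pool.Agent.H407.Gol

open A5

lemma ss_deg {B : Type} [CommRing B] (v : Idx → A5 B) (n : ℕ) (hv : ∀ i, deg i ≠ n → v i = 0)
    (i : Idx) (hi : deg i ≠ n + 1) : ss v i = 0 := by
  obtain ⟨f, a, b⟩ := i
  cases f
  · rcases a with _ | a
    · rcases b with _ | b
      · rfl
      · simp only [ss]
        rw [hv (.q, 0, b) (by simp only [deg] at *; omega)]
        ext <;> simp
    · simp only [ss]
      rw [hv (.q, a, b) (by simp only [deg] at *; omega),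
        hv (.r, a, b) (by simp only [deg] at *; omega)]
      ext <;> simp
  · rcases a with _ | a
    · simp only [ss]
      rw [hv (.p, 0, b) (by simp only [deg] at *; omega)]
      ext <;> simp
    · simp only [ss]
      rw [hv (.p, a + 1, b) (by simp only [deg] at *; omega),
        hv (.t, a, b) (by simp only [deg] at *; omega)]
      ext <;> simp
  · rcases a with _ | a
    · simp only [ss]
      rw [hv (.p, 0, b) (by simp only [deg] at *; omega)]
      ext <;> simp
    · simp only [ss]
      rw [hv (.p, a + 1, b) (by simp only [deg] at *; omega),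
        hv (.t, a, b) (by simp only [deg] at *; omega)]
      ext <;> simp
  · simp only [ss]
    rw [hv (.r, a, b) (by simp only [deg] at *; omega),
      hv (.q, a, b) (by simp only [deg] at *; omega)]
    ext <;> simp

variable {k : Type} [CommRing k]

/-- the ring `R` -/
abbrev RR (k : Type) [CommRing k] : Type := A5 (A5 k)

/-- the element `u` -/
abbrev uu (k : Type) [CommRing k] : RR k := C x
/-- the element `v` -/
abbrev vv (k : Type) [CommRing k] : RR k := C y

/-- the total differential over `R` -/
noncomputable abbrev DR (k : Type) [CommRing k] (N : Type) [AddCommGroup N] [Module (RR k) N] :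
    (Idx → Idx → N) →ₗ[RR k] (Idx → Idx → N) := DT x y (uu k) (vv k) N

lemma rel_uv : uu k * vv k = 0 := by
  change C x * C y = 0
  rw [← map_mul, xy, map_zero]

lemma rel_uu : uu k * uu k = vv k * vv k * vv k := by
  change C x * C x = C y * C y * C y
  rw [← map_mul, ← map_mul, ← map_mul, xx]

lemma DR_DR (N : Type) [AddCommGroup N] [Module (RR k) N] (V : Idx → Idx → N) :
    DR k N (DR k N V) = 0 :=
  DT_DT _ _ _ _ xy xx rel_uv rel_uu V

theorem exact_tot (V : Idx → Idx → RR k) (hV : DR k (RR k) V = 0) (h0 : (V o o).c0.c0 = 0) :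
    ∃ W : Idx → Idx → RR k, DR k (RR k) W = V ∧ ∀ n, Sup n V → Sup (n + 1) W := by
  set v0 : Idx → A5 k := fun j => (V o j).c0 with hv0
  have hdv0 : dd (x : A5 k) y (A5 k) v0 = 0 := by
    funext j
    have h := congrArg A5.c0 (congrFun (congrFun hV o) j)
    rw [DT_apply] at h
    obtain ⟨f, a, b⟩ := j
    cases f
    all_goals
      simp only [dd_p, dd_q, dd_r, dd_t, sg, smul_eq_mul, add_c0, mul_c0, x_c0, y_c0, one_mul,
        zero_mul, zero_add, C_c0, sub_c0, neg_c0, Pi.zero_apply, zero_c0] at h ⊢
      exact h
  have hv : v0 = dd (x : A5 k) y (A5 k) (ss v0) := by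
    funext j
    have h := ss_contr v0 j
    rw [hdv0] at h
    have h1 : ss (0 : Idx → A5 k) j = 0 := by
      exact ss_deg 0 (deg j) (fun i _ => rfl) j (by omega)
    have h2 : ηε v0 j = 0 := by
      obtain ⟨f, a, b⟩ := j
      cases f <;> rcases a with _ | a <;> rcases b with _ | b <;> try rfl
      change C (V o o).c0.c0 = 0
      rw [h0, map_zero]
    rw [h1, h2, add_zero, sub_zero] at h
    exact h.symm
  have hη : (fun i j => ηε (fun i' => V i' j) i) = η1 v0 := by
    funext i j
    obtain ⟨f, a, b⟩ := i
    cases f <;> rcases a with _ | a <;> rcases b with _ | b <;> rfl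
  refine ⟨(fun i j => ss (fun i' => V i' j) i) + η1 (ss v0), ?_, ?_⟩
  · have e1 := s1_D (B := A5 k) x y V hV
    have e2 := η1_D (B := A5 k) x y (ss v0)
    rw [← hv] at e2
    rw [hη] at e1
    refine (map_add (DR k (RR k)) _ _).trans ?_
    refine (congrArg₂ (· + ·) e1 e2).trans ?_
    exact sub_add_cancel _ _
  · intro n hn i j hij
    rw [Pi.add_apply, Pi.add_apply]
    have h1 : ss (fun i' => V i' j) i = 0 := by
      by_cases hj : deg j ≤ n
      · exact ss_deg (fun i' => V i' j) (n - deg j) (fun i' hi' => hn i' j (by omega)) i (by omega)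
      · have : (fun i' => V i' j) = 0 := by
          funext i'
          exact hn i' j (by omega)
        rw [this]
        exact ss_deg 0 (deg i) (fun i _ => rfl) i (by omega)
    have h2 : η1 (ss v0) i j = 0 := by
      obtain ⟨f, a, b⟩ := i
      cases f <;> rcases a with _ | a <;> rcases b with _ | b <;> try rfl
      change C (ss v0 j) = 0
      have h00 : deg o = 0 := rfl
      have hij' : deg o + deg j ≠ n + 1 := hij
      rw [ss_deg v0 n (fun j' hj' => ?_) j (by omega), map_zero]
      change (V o j').c0 = 0
      rw [hn o j' (by omega), zero_c0]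
    rw [h1, h2, add_zero]

end Pool.Agent.H407.Gol
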