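import Mathlib

set_option autoImplicit false
set_option linter.unusedSectionVars false

open IsLocalRing

namespace Pool.Agent.H407.Gol

variable {S : Type} [CommRing S] [IsLocalRing S] [IsNoetherianRing S]

theorem min_cover (c : ℕ) (N : Submodule S (Fin c → S)) :
    ∃ (c' : ℕ) (E : (Fin c' → S) →ₗ[S] (Fin c → S)), LinearMap.range E = N ∧
      ∀ v, E v = 0 → ∀ i, v i ∈ maximalIdeal S := by
  classical
  have hex : ∃ c' : ℕ, ∃ E : (Fin c' → S) →ₗ[S] (Fin c → S), LinearMap.range E = N := by
    obtain ⟨s, hs⟩ := (inferInstance : IsNoetherian S (Fin c → S)).noetherian N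
    refine ⟨s.card, Fintype.linearCombination S (fun i => (s.equivFin.symm i).1), ?_⟩
    rw [Fintype.range_linearCombination, ← hs]
    congr 1
    ext x
    constructor
    · rintro ⟨i, rfl⟩
      exact (s.equivFin.symm i).2
    · intro hx
      exact ⟨s.equivFin ⟨x, hx⟩, by simp⟩
  obtain ⟨E, hE⟩ := Nat.find_spec hex
  refine ⟨Nat.find hex, E, hE, ?_⟩
  intro v hv i
  by_contra hi
  have hu : IsUnit (v i) := by
    by_contra h
    exact hi ((mem_maximalIdeal _).2 h)
  obtain ⟨w, hw⟩ := hu.exists_right_inv
  obtain ⟨m, hm⟩ : ∃ m, Nat.find hex = m + 1 := by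
    refine ⟨Nat.find hex - 1, ?_⟩
    have := i.2
    omega
  have hlt : m < Nat.find hex := by omega
  apply Nat.find_min hex hlt
  -- transport
  revert E v i
  rw [hm]
  intro E hE v hv i hi _ hw
  let ins : (Fin m → S) →ₗ[S] (Fin (m + 1) → S) :=
    { toFun := fun u => i.insertNth 0 u
      map_add' := by
        intro u u'
        funext j
        refine Fin.succAboveCases i ?_ (fun j => ?_) j
        · simp
        · simp
      map_smul' := by
        intro a u
        funext j
        refine Fin.succAboveCases i ?_ (fun j => ?_) j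
        · simp
        · simp }
  have hins : ∀ u, ins u = i.insertNth (α := fun _ => S) 0 u := fun _ => rfl
  refine ⟨E ∘ₗ ins, ?_⟩
  rw [← hE]
  apply le_antisymm
  · exact LinearMap.range_comp_le_range _ _
  · rintro _ ⟨u, rfl⟩
    refine ⟨fun j => (u - (u i * w) • v) (i.succAbove j), ?_⟩
    have h1 : ins (fun j => (u - (u i * w) • v) (i.succAbove j)) = u - (u i * w) • v := by
      funext j
      refine Fin.succAboveCases i ?_ (fun j => ?_) j
      · rw [hins, Fin.insertNth_apply_same]
        simp only [Pi.sub_apply, Pi.smul_apply, smul_eq_mul]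
        rw [mul_assoc, mul_comm w, hw, mul_one, sub_self]
      · rw [hins, Fin.insertNth_apply_succAbove]
    rw [LinearMap.comp_apply, h1, map_sub, map_smul, hv, smul_zero, sub_zero]

/-- a state -/
structure St (S : Type) [CommRing S] where
  a : ℕ
  b : ℕ
  E : (Fin b → S) →ₗ[S] (Fin a → S)

/-- the next state -/
noncomputable def St.next (s : St S) : St S where
  a := s.b
  b := (min_cover s.b (LinearMap.ker s.E)).choose
  E := (min_cover s.b (LinearMap.ker s.E)).choose_spec.choose

lemma St.next_range (s : St S) : LinearMap.range (St.next s).E = LinearMap.ker s.E :=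
  (min_cover s.b (LinearMap.ker s.E)).choose_spec.choose_spec.1

lemma St.next_min (s : St S) : ∀ v, (St.next s).E v = 0 → ∀ i, v i ∈ maximalIdeal S :=
  (min_cover s.b (LinearMap.ker s.E)).choose_spec.choose_spec.2

/-- the sequence of states -/
noncomputable def St.seq (s : St S) : ℕ → St S
  | 0 => s
  | n + 1 => St.next (St.seq s n)

theorem exists_min_res (S : Type) [CommRing S] [IsLocalRing S] [IsNoetherianRing S] :
    ∃ (c : ℕ → ℕ) (E : ∀ n, (Fin (c (n + 1)) → S) →ₗ[S] (Fin (c n) → S)),
      c 0 = 1 ∧ (∀ n, LinearMap.range (E (n + 1)) = LinearMap.ker (E n)) ∧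
      (∀ v, v ∈ LinearMap.range (E 0) ↔ ∀ i, v i ∈ maximalIdeal S) ∧
      (∀ n v, E n v = 0 → ∀ i, v i ∈ maximalIdeal S) := by
  obtain ⟨c', E0, h1, h2⟩ := min_cover 1
    (Submodule.pi Set.univ (fun _ : Fin 1 => maximalIdeal S))
  let s : St S := ⟨1, c', E0⟩
  refine ⟨fun n => (St.seq s n).a, fun n => (St.seq s n).E, rfl, ?_, ?_, ?_⟩
  · intro n
    exact St.next_range (St.seq s n)
  · have key : ∀ v : Fin 1 → S, v ∈ LinearMap.range E0 ↔ ∀ i, v i ∈ maximalIdeal S := by
      intro v
      rw [h1, Submodule.mem_pi]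
      exact ⟨fun h i => h i trivial, fun h i _ => h i⟩
    exact key
  · intro n
    cases n with
    | zero => exact h2
    | succ n => exact St.next_min (St.seq s n)

end Pool.Agent.H407.Gol
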