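import Mathlib

set_option autoImplicit false
set_option linter.unusedSectionVars false

open CategoryTheory Limits

namespace Pool.Agent.H407.Gol

section relen

variable {S : Type} [CommRing S]

/-- relative length of `Z` over `B` -/
noncomputable def rlen {M : Type} [AddCommGroup M] [Module S M] (Z B : Submodule S M) : ℕ∞ :=
  Module.length S (Z ⧸ B.submoduleOf Z)

theorem rlen_inj {M₁ M₂ : Type} [AddCommGroup M₁] [Module S M₁] [AddCommGroup M₂] [Module S M₂]
    (e : M₁ →ₗ[S] M₂) (he : Function.Injective e)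
    (Z₁ B₁ : Submodule S M₁) (Z₂ B₂ : Submodule S M₂)
    (hZ : Z₁.map e = Z₂) (hB : B₁.map e = B₂) :
    rlen Z₁ B₁ = rlen Z₂ B₂ := by
  subst hZ hB
  refine (Submodule.Quotient.equiv _ _ (Submodule.equivMapOfInjective e he Z₁) ?_).length_eq
  ext x
  constructor
  · rintro ⟨y, hy, rfl⟩
    exact ⟨y.1, hy, rfl⟩
  · rintro ⟨y, hy, hy2⟩
    obtain ⟨z, hz, hz2⟩ := x.2
    have hyz : y = z := he (hy2.trans hz2.symm)
    subst hyz
    refine ⟨⟨y, hz⟩, hy, ?_⟩
    apply Subtype.ext
    exact hz2

theorem rlen_equiv {M₁ M₂ : Type} [AddCommGroup M₁] [Module S M₁] [AddCommGroup M₂] [Module S M₂]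
    (e : M₁ ≃ₗ[S] M₂) (Z₁ B₁ : Submodule S M₁) (Z₂ B₂ : Submodule S M₂)
    (hZ : Z₁.map e.toLinearMap = Z₂) (hB : B₁.map e.toLinearMap = B₂) :
    rlen Z₁ B₁ = rlen Z₂ B₂ :=
  rlen_inj e.toLinearMap e.injective Z₁ B₁ Z₂ B₂ hZ hB

end relen

section hgen

variable {S : Type} [CommRing S]
variable (G : ℕ → Type) [∀ n, AddCommGroup (G n)] [∀ n, Module S (G n)]
  (d : ∀ n, G (n + 1) →ₗ[S] G n)

/-- cycles -/
def ZG : ∀ n, Submodule S (G n)
  | 0 => ⊤
  | n + 1 => LinearMap.ker (d n)

/-- length of homology of a sequence of modules -/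
noncomputable def hgen (n : ℕ) : ℕ∞ := rlen (ZG G d n) (LinearMap.range (d n))

theorem hgen_congr (G' : ℕ → Type) [∀ n, AddCommGroup (G' n)] [∀ n, Module S (G' n)]
    (d' : ∀ n, G' (n + 1) →ₗ[S] G' n) (e : ∀ n, G n ≃ₗ[S] G' n)
    (he : ∀ n x, e n (d n x) = d' n (e (n + 1) x)) (n : ℕ) :
    hgen G d n = hgen G' d' n := by
  apply rlen_equiv (e n)
  · cases n with
    | zero =>
      simp only [ZG]
      rw [Submodule.map_top]
      exact LinearMap.range_eq_top.2 (e 0).surjective
    | succ n =>
      simp only [ZG]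
      ext y
      constructor
      · rintro ⟨x, hx, rfl⟩
        have hx' : d n x = 0 := hx
        change d' n (e (n + 1) x) = 0
        rw [← he, hx', map_zero]
      · intro hy
        have hy' : d' n y = 0 := hy
        refine ⟨(e (n + 1)).symm y, ?_, by simp⟩
        change d n _ = 0
        apply (e n).injective
        rw [he, LinearEquiv.apply_symm_apply, hy', map_zero]
  · ext y
    constructor
    · rintro ⟨_, ⟨x, rfl⟩, rfl⟩
      exact ⟨e (n + 1) x, (he n x).symm⟩
    · rintro ⟨x, rfl⟩
      refine ⟨d n ((e (n + 1)).symm x), ⟨_, rfl⟩, ?_⟩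
      change e n _ = _
      rw [he, LinearEquiv.apply_symm_apply]

end hgen

section homology

variable {S : Type} [CommRing S]

theorem length_sc (T : ShortComplex (ModuleCat.{0} S)) :
    Module.length S T.homology = rlen (LinearMap.ker T.g.hom) (LinearMap.range T.f.hom) := by
  have e2 : T.homology ≅ ModuleCat.of S (LinearMap.ker T.g.hom ⧸
      LinearMap.range T.moduleCatToCycles) := T.moduleCatHomologyIso
  rw [e2.toLinearEquiv.length_eq]
  have h : LinearMap.range T.moduleCatToCycles =
      (LinearMap.range T.f.hom).submoduleOf (LinearMap.ker T.g.hom) := by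
    ext x
    constructor
    · rintro ⟨y, rfl⟩
      exact ⟨y, rfl⟩
    · rintro ⟨y, hy⟩
      exact ⟨y, Subtype.ext hy⟩
  unfold rlen
  rw [← h]

theorem length_homology (K : ChainComplex (ModuleCat.{0} S) ℕ) (n : ℕ) :
    Module.length S (K.homology n) =
      hgen (fun n => (K.X n : Type)) (fun n => (K.d (n + 1) n).hom) n := by
  cases n with
  | zero =>
    have e1 : K.homology 0 ≅ (K.sc' 1 0 0).homology := K.homologyIsoSc' 1 0 0 (by simp) (by simp)
    rw [e1.toLinearEquiv.length_eq, length_sc]
    have h0 : LinearMap.ker (K.sc' 1 0 0).g.hom = ⊤ := by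
      have : (K.sc' 1 0 0).g = 0 := K.shape _ _ (by simp)
      rw [this]
      exact LinearMap.ker_zero
    rw [h0]
    rfl
  | succ n =>
    have e1 : K.homology (n + 1) ≅ (K.sc' (n + 1 + 1) (n + 1) n).homology :=
      K.homologyIsoSc' (n + 1 + 1) (n + 1) n (by simp) (by simp)
    rw [e1.toLinearEquiv.length_eq, length_sc]
    rfl

end homology

section res

variable {S : Type} [CommRing S] (ι : ℕ → Type) [∀ n, Fintype (ι n)] [∀ n, DecidableEq (ι n)]
  (D : ∀ i : ℕ, (ι (i + 1) → S) →ₗ[S] (ι i → S))

/-- action of a matrix-like map on a module -/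
noncomputable def extN {a b : Type} [Fintype a] [DecidableEq a]
    (D : (a → S) →ₗ[S] (b → S))
    (N : Type) [AddCommGroup N] [Module S N] : (a → N) →ₗ[S] (b → N) where
  toFun v := fun i => ∑ j, D (Pi.single j 1) i • v j
  map_add' v w := by
    funext i
    simp [smul_add, Finset.sum_add_distrib]
  map_smul' r v := by
    funext i
    simp only [Pi.smul_apply, RingHom.id_apply, Finset.smul_sum]
    exact Finset.sum_congr rfl fun j _ => smul_comm _ _ _

section

variable (hex : ∀ i, LinearMap.range (D (i + 1)) = LinearMap.ker (D i))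

include hex in
theorem DD_zero (i : ℕ) : (D i).comp (D (i + 1)) = 0 := by
  apply LinearMap.ext
  intro v
  have : D (i + 1) v ∈ LinearMap.ker (D i) := by rw [← hex i]; exact ⟨v, rfl⟩
  exact this

/-- the complex of free modules -/
noncomputable def Cx : ChainComplex (ModuleCat.{0} S) ℕ :=
  ChainComplex.of (fun i => ModuleCat.of S (ι i → S))
    (fun i => ModuleCat.ofHom (D i))
    (fun i => by
      rw [← ModuleCat.ofHom_comp, DD_zero ι D hex]
      rfl)

theorem Cx_X (i : ℕ) : (Cx ι D hex).X i = ModuleCat.of S (ι i → S) := rfl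

theorem Cx_d (i : ℕ) : (Cx ι D hex).d (i + 1) i = ModuleCat.ofHom (D i) := by
  exact ChainComplex.of_d (V := ModuleCat.{0} S)
    (fun i => ModuleCat.of S (ι i → S))
    (fun i => ModuleCat.ofHom (D i)) i

variable {M : Type} [AddCommGroup M] [Module S M] (π : (ι 0 → S) →ₗ[S] M)
  (hπ : Function.Surjective π) (hker : LinearMap.range (D 0) = LinearMap.ker π)

include hker in
theorem aug_comp : ModuleCat.ofHom (D 0) ≫ ModuleCat.ofHom π = 0 := by
  rw [← ModuleCat.ofHom_comp]
  have h2 : π.comp (D 0) = 0 := by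
    apply LinearMap.ext
    intro u
    have : D 0 u ∈ LinearMap.ker π := by
      rw [← hker]; exact ⟨u, rfl⟩
    exact this
  rw [h2]
  rfl

/-- the augmentation as a chain map -/
noncomputable def Cpi :
    Cx ι D hex ⟶ (ChainComplex.single₀ (ModuleCat.{0} S)).obj (ModuleCat.of S M) :=
  (ChainComplex.toSingle₀Equiv _ _).symm ⟨ModuleCat.ofHom π,
    (congrArg (fun t => t ≫ ModuleCat.ofHom π) (Cx_d ι D hex 0)).trans (aug_comp ι D π hker)⟩

theorem Cx_exactAt (n : ℕ) : (Cx ι D hex).ExactAt (n + 1) := by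
  rw [HomologicalComplex.exactAt_iff' _ (n + 1 + 1) (n + 1) n (by simp) (by simp)]
  rw [ShortComplex.moduleCat_exact_iff_range_eq_ker]
  have h1 : ((Cx ι D hex).sc' (n + 1 + 1) (n + 1) n).f = ModuleCat.ofHom (D (n + 1)) :=
    Cx_d ι D hex (n + 1)
  have h2 : ((Cx ι D hex).sc' (n + 1 + 1) (n + 1) n).g = ModuleCat.ofHom (D n) :=
    Cx_d ι D hex n
  rw [h1, h2]
  exact hex n

/-- the projective resolution -/
noncomputable def res : ProjectiveResolution (ModuleCat.of S M) where
  complex := Cx ι D hex
  projective := fun n => by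
    rw [Cx_X]
    infer_instance
  π := Cpi ι D hex π hker
  quasiIso := ⟨fun n => by
    cases n
    · rw [ChainComplex.quasiIsoAt₀_iff, ShortComplex.quasiIso_iff_of_zeros']
      · constructor
        · rw [ShortComplex.moduleCat_exact_iff_range_eq_ker]
          have h1 : (Cx ι D hex).d 1 0 = ModuleCat.ofHom (D 0) := Cx_d ι D hex 0
          have h2 : (Cpi ι D hex π hker).f 0 = ModuleCat.ofHom π :=
            ChainComplex.toSingle₀Equiv_symm_apply_f_zero _ _
          change LinearMap.range ((Cx ι D hex).d 1 0).hom =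
            LinearMap.ker ((Cpi ι D hex π hker).f 0).hom
          rw [h1, h2]
          exact hker
        · have h2 : (Cpi ι D hex π hker).f 0 = ModuleCat.ofHom π :=
            ChainComplex.toSingle₀Equiv_symm_apply_f_zero _ _
          change Epi ((Cpi ι D hex π hker).f 0)
          rw [h2]
          exact (ModuleCat.epi_iff_surjective _).2 hπ
      all_goals rfl
    · rw [quasiIsoAt_iff_exactAt']
      · exact Cx_exactAt ι D hex _
      · apply ChainComplex.exactAt_succ_single_obj⟩

open TensorProduct MonoidalCategory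

/-- the identification of `N ⊗ S^k` with `N^k` -/
noncomputable def EE (N : Type) [AddCommGroup N] [Module S N] (k : Type) [Fintype k]
    [DecidableEq k] : (N ⊗[S] (k → S)) ≃ₗ[S] (k → N) :=
  TensorProduct.piScalarRight S S N k

omit [∀ n, Fintype (ι n)] [∀ n, DecidableEq (ι n)] in
lemma EE_tmul (N : Type) [AddCommGroup N] [Module S N] (k : Type) [Fintype k]
    [DecidableEq k] (x : N)
    (f : k → S) : EE N k (x ⊗ₜ f) = fun i => f i • x := by
  funext i
  simp [EE]

omit [∀ n, Fintype (ι n)] [∀ n, DecidableEq (ι n)] in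
lemma EE_comm (N : Type) [AddCommGroup N] [Module S N] {a b : Type} [Fintype a]
    [DecidableEq a] [Fintype b] [DecidableEq b]
    (D : (a → S) →ₗ[S] (b → S)) (t : N ⊗[S] (a → S)) :
    EE N b (LinearMap.lTensor N D t) = extN D N (EE N a t) := by
  induction t using TensorProduct.induction_on with
  | zero => simp
  | add x y hx hy => rw [map_add, map_add, map_add, map_add, hx, hy]
  | tmul x f =>
    rw [LinearMap.lTensor_tmul, EE_tmul, EE_tmul]
    funext i
    change D f i • x = ∑ j, D (Pi.single j 1) i • (f j • x)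
    have h2 : f = ∑ j, f j • (Pi.single j 1 : a → S) := by
      funext z
      rw [Finset.sum_apply]
      simp [Pi.single_apply]
    have h3 : D f i = ∑ j, f j * D (Pi.single j 1) i := by
      conv_lhs => rw [h2]
      rw [map_sum, Finset.sum_apply]
      refine Finset.sum_congr rfl fun j _ => ?_
      rw [map_smul, Pi.smul_apply, smul_eq_mul]
    rw [h3, Finset.sum_smul]
    refine Finset.sum_congr rfl fun j _ => ?_
    rw [smul_smul, mul_comm]

/-- the length of `Tor_n(N, M)` computed from a resolution of `M` -/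
theorem length_tor (hex : ∀ i, LinearMap.range (D (i + 1)) = LinearMap.ker (D i))
    {M : Type} [AddCommGroup M] [Module S M] (π : (ι 0 → S) →ₗ[S] M)
    (hπ : Function.Surjective π) (hker : LinearMap.range (D 0) = LinearMap.ker π)
    (N : Type) [AddCommGroup N] [Module S N] (n : ℕ) :
    Module.length S (((Tor (ModuleCat.{0} S) n).obj (ModuleCat.of S N)).obj
      (ModuleCat.of S M)) = hgen (fun n => (ι n → N)) (fun n => extN (D n) N) n := by
  have e1 := (res ι D hex π hπ hker).isoLeftDerivedObj
    ((MonoidalCategory.tensoringLeft (ModuleCat.{0} S)).obj (ModuleCat.of S N)) n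
  refine (e1.toLinearEquiv.length_eq : _ = _).trans ?_
  set K' := (((MonoidalCategory.tensoringLeft (ModuleCat.{0} S)).obj
    (ModuleCat.of S N)).mapHomologicalComplex (ComplexShape.down ℕ)).obj
      (Cx ι D hex) with hK'
  change Module.length S (K'.homology n) = _
  rw [length_homology]
  have hd : ∀ i, (K'.d (i + 1) i).hom = LinearMap.lTensor N (D i) := by
    intro i
    change (MonoidalCategoryStruct.whiskerLeft (ModuleCat.of S N)
      ((Cx ι D hex).d (i + 1) i)).hom = _
    rw [Cx_d]
    rfl
  apply hgen_congr (fun n => (K'.X n : Type)) (fun n => (K'.d (n + 1) n).hom)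
    (fun n => (ι n → N)) (fun n => extN (D n) N) (fun n => EE N (ι n))
  intro n x
  change EE N (ι n) ((K'.d (n + 1) n).hom x) = _
  rw [hd]
  exact EE_comm N (D n) x

end

end res

end Pool.Agent.H407.Gol
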