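import Mathlib
import Pool.Agent.H407.Gol.TorGen
import Pool.Agent.H407.Gol.Exact

set_option autoImplicit false
set_option linter.unusedSectionVars false

open CategoryTheory

namespace Pool.Agent.H407.Gol

open A5

/-- basis indices of degree `n` -/
def J (n : ℕ) : Type := {p : Idx × Idx // deg p.1 + deg p.2 = n}

instance (n : ℕ) : DecidableEq (J n) := inferInstanceAs (DecidableEq {_p : Idx × Idx // _})

lemma deg_le (i : Idx) : i.2.1 ≤ deg i ∧ i.2.2 ≤ deg i := by
  obtain ⟨f, a, b⟩ := i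
  cases f <;> simp only [deg] <;> omega

instance (n : ℕ) : Finite (J n) := by
  let f : J n → (Fam × Fin (n + 1) × Fin (n + 1)) × (Fam × Fin (n + 1) × Fin (n + 1)) := fun p =>
    ((p.1.1.1, ⟨p.1.1.2.1, by have := deg_le p.1.1; have := p.2; omega⟩,
      ⟨p.1.1.2.2, by have := deg_le p.1.1; have := p.2; omega⟩),
     (p.1.2.1, ⟨p.1.2.2.1, by have := deg_le p.1.2; have := p.2; omega⟩,
      ⟨p.1.2.2.2, by have := deg_le p.1.2; have := p.2; omega⟩))
  refine Finite.of_injective f ?_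
  rintro ⟨⟨⟨f1, a1, b1⟩, ⟨f2, a2, b2⟩⟩, h⟩ ⟨⟨⟨f1', a1', b1'⟩, ⟨f2', a2', b2'⟩⟩, h'⟩ he
  simp only [f, Prod.mk.injEq, Fin.mk.injEq] at he
  obtain ⟨⟨h1, h2, h3⟩, h4, h5, h6⟩ := he
  subst h1 h2 h3 h4 h5 h6
  rfl

noncomputable instance (n : ℕ) : Fintype (J n) := Fintype.ofFinite _

variable {k : Type} [CommRing k] (N : Type) [AddCommGroup N] [Module (RR k) N]

/-- extension by zero -/
def ex (n : ℕ) : (J n → N) →ₗ[RR k] (Idx → Idx → N) where
  toFun v := fun i j => if h : deg i + deg j = n then v ⟨(i, j), h⟩ else 0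
  map_add' v w := by
    funext i j
    by_cases h : deg i + deg j = n
    · simp [h]
    · simp [h]
  map_smul' c v := by
    funext i j
    by_cases h : deg i + deg j = n
    · simp [h]
    · simp [h]

/-- restriction -/
def rs (n : ℕ) : (Idx → Idx → N) →ₗ[RR k] (J n → N) where
  toFun V := fun p => V p.1.1 p.1.2
  map_add' _ _ := rfl
  map_smul' _ _ := rfl

variable {N}

lemma ex_apply (n : ℕ) (v : J n → N) (i j : Idx) :
    ex (k := k) N n v i j = if h : deg i + deg j = n then v ⟨(i, j), h⟩ else 0 := rfl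

lemma rs_ex (n : ℕ) (v : J n → N) : rs (k := k) N n (ex (k := k) N n v) = v := by
  funext p
  change ex (k := k) N n v p.1.1 p.1.2 = v p
  rw [ex_apply, dif_pos p.2]
  rfl

lemma ex_rs (n : ℕ) (V : Idx → Idx → N) (hV : Sup n V) :
    ex (k := k) N n (rs (k := k) N n V) = V := by
  funext i j
  rw [ex_apply]
  by_cases h : deg i + deg j = n
  · rw [dif_pos h]; rfl
  · rw [dif_neg h, hV i j h]

lemma ex_sup (n : ℕ) (v : J n → N) : Sup n (ex (k := k) N n v) := by
  intro i j h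
  rw [ex_apply, dif_neg h]

variable (N)

/-- the differential on functions on `J` -/
noncomputable def Dn (n : ℕ) : (J (n + 1) → N) →ₗ[RR k] (J n → N) :=
  rs (k := k) N n ∘ₗ DR k N ∘ₗ ex (k := k) N (n + 1)

variable {N}

lemma ex_Dn (n : ℕ) (v : J (n + 1) → N) :
    ex (k := k) N n (Dn (k := k) N n v) = DR k N (ex (k := k) N (n + 1) v) :=
  ex_rs n _ (DT_sup _ _ _ _ _ n (ex_sup _ _))

lemma Dn_nat {N' : Type} [AddCommGroup N'] [Module (RR k) N'] (g : N →ₗ[RR k] N') (n : ℕ)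
    (v : J (n + 1) → N) :
    Dn (k := k) N' n (fun p => g (v p)) = fun p => g (Dn (k := k) N n v p) := by
  have h1 : ex (k := k) N' (n + 1) (fun p => g (v p)) =
      fun i j => g (ex (k := k) N (n + 1) v i j) := by
    funext i j
    rw [ex_apply, ex_apply]
    by_cases h : deg i + deg j = n + 1
    · rw [dif_pos h, dif_pos h]
    · rw [dif_neg h, dif_neg h, map_zero]
  funext p
  change DR k N' (ex (k := k) N' (n + 1) (fun p => g (v p))) p.1.1 p.1.2 = _
  rw [h1]
  exact congrFun (congrFun (DT_nat _ _ _ _ g (ex (k := k) N (n + 1) v)) p.1.1) p.1.2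

theorem extN_Dn (n : ℕ) (v : J (n + 1) → N) :
    extN (Dn (k := k) (RR k) n) N v = Dn (k := k) N n v := by
  have hv : v = ∑ j, (fun p => (Pi.single j (1 : RR k) : J (n + 1) → RR k) p • v j) := by
    funext p
    rw [Finset.sum_apply]
    simp [Pi.single_apply]
  conv_rhs => rw [hv]
  rw [map_sum]
  funext i
  rw [Finset.sum_apply]
  change ∑ j, Dn (k := k) (RR k) n (Pi.single j 1) i • v j = _
  refine Finset.sum_congr rfl fun j _ => ?_
  exact (congrFun (Dn_nat (LinearMap.toSpanSingleton (RR k) N (v j)) n (Pi.single j 1)) i).symm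

/-- functions with values in `U`, supported in degree `n` -/
def VU (U : Submodule (RR k) N) (n : ℕ) : Submodule (RR k) (Idx → Idx → N) where
  carrier := {V | (∀ i j, V i j ∈ U) ∧ Sup n V}
  add_mem' := by
    rintro V W ⟨h1, h2⟩ ⟨h3, h4⟩
    exact ⟨fun i j => U.add_mem (h1 i j) (h3 i j), fun i j h => by
      change V i j + W i j = 0
      rw [h2 i j h, h4 i j h, add_zero]⟩
  zero_mem' := ⟨fun _ _ => U.zero_mem, fun _ _ _ => rfl⟩
  smul_mem' := by
    rintro c V ⟨h1, h2⟩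
    exact ⟨fun i j => U.smul_mem c (h1 i j), fun i j h => by
      change c • V i j = 0
      rw [h2 i j h, smul_zero]⟩

/-- cycles -/
noncomputable def ZU (U : Submodule (RR k) N) (n : ℕ) : Submodule (RR k) (Idx → Idx → N) :=
  VU U n ⊓ LinearMap.ker (DR k N)

/-- boundaries -/
noncomputable def BU (U : Submodule (RR k) N) (n : ℕ) : Submodule (RR k) (Idx → Idx → N) :=
  (VU U (n + 1)).map (DR k N)

/-- the length of homology -/
noncomputable def hl (U : Submodule (RR k) N) (n : ℕ) : ℕ∞ := rlen (ZU U n) (BU U n)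

lemma ex_inj (n : ℕ) : Function.Injective (ex (k := k) N n) := by
  intro v w h
  rw [← rs_ex (k := k) n v, ← rs_ex (k := k) n w, h]

theorem hgen_eq_hl (n : ℕ) :
    hgen (S := RR k) (fun n => (J n → N)) (fun n => Dn (k := k) N n) n =
      hl (⊤ : Submodule (RR k) N) n := by
  apply rlen_inj (ex (k := k) N n) (ex_inj (k := k) n)
  · cases n with
    | zero =>
      ext V
      constructor
      · rintro ⟨v, _, rfl⟩
        exact ⟨⟨fun _ _ => trivial, ex_sup _ _⟩, DT_sup0 _ _ _ _ _ (ex_sup _ _)⟩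
      · rintro ⟨⟨_, h2⟩, _⟩
        exact ⟨rs (k := k) N 0 V, trivial, ex_rs 0 V h2⟩
    | succ n =>
      ext V
      constructor
      · rintro ⟨v, hv, rfl⟩
        refine ⟨⟨fun _ _ => trivial, ex_sup _ _⟩, ?_⟩
        have hv' : Dn (k := k) N n v = 0 := hv
        change DR k N (ex (k := k) N (n + 1) v) = 0
        rw [← ex_Dn, hv', map_zero]
      · rintro ⟨⟨_, h2⟩, h3⟩
        refine ⟨rs (k := k) N (n + 1) V, ?_, ex_rs (n + 1) V h2⟩
        change Dn (k := k) N n _ = 0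
        apply ex_inj (k := k) n
        rw [ex_Dn, ex_rs (n + 1) V h2, map_zero]
        exact h3
  · ext V
    constructor
    · rintro ⟨_, ⟨v, rfl⟩, rfl⟩
      exact ⟨ex (k := k) N (n + 1) v, ⟨fun _ _ => trivial, ex_sup _ _⟩, (ex_Dn n v).symm⟩
    · rintro ⟨W, ⟨_, h2⟩, rfl⟩
      refine ⟨Dn (k := k) N n (rs (k := k) N (n + 1) W), ⟨_, rfl⟩, ?_⟩
      rw [ex_Dn, ex_rs (n + 1) W h2]

theorem Dn_exact (n : ℕ) : LinearMap.range (Dn (k := k) (RR k) (n + 1)) =
    LinearMap.ker (Dn (k := k) (RR k) n) := by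
  ext v
  constructor
  · rintro ⟨w, rfl⟩
    change Dn (k := k) (RR k) n _ = 0
    apply ex_inj (k := k) n
    rw [ex_Dn, ex_Dn, map_zero]
    exact DR_DR _ _
  · intro hv
    have hv' : Dn (k := k) (RR k) n v = 0 := hv
    have h1 : DR k (RR k) (ex (k := k) (RR k) (n + 1) v) = 0 := by
      rw [← ex_Dn, hv', map_zero]
    obtain ⟨W, hW, hW2⟩ := exact_tot _ h1 (by
      rw [ex_sup (k := k) (n + 1) v o o (by change 0 + 0 ≠ n + 1; omega)]
      rfl)
    refine ⟨rs (k := k) (RR k) (n + 1 + 1) W, ?_⟩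
    apply ex_inj (k := k) (n + 1)
    rw [ex_Dn, ex_rs _ W (hW2 _ (ex_sup _ _)), hW]

/-- the point of `J 0` -/
def o0 : J 0 := ⟨(o, o), rfl⟩

lemma J0 (p : J 0) : p = o0 := by
  obtain ⟨⟨⟨f1, a1, b1⟩, ⟨f2, a2, b2⟩⟩, h⟩ := p
  apply Subtype.ext
  cases f1 <;> cases f2 <;> simp only [deg] at h <;> try omega
  have h1 : a1 = 0 := by omega
  have h2 : b1 = 0 := by omega
  have h3 : a2 = 0 := by omega
  have h4 : b2 = 0 := by omega
  subst h1 h2 h3 h4
  rfl

theorem range_D0 (v : J 0 → RR k) :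
    v ∈ LinearMap.range (Dn (k := k) (RR k) 0) ↔ (v o0).c0.c0 = 0 := by
  constructor
  · rintro ⟨w, rfl⟩
    change (DR k (RR k) (ex (k := k) (RR k) 1 w) o o).c0.c0 = 0
    rw [DT_apply, dd_p, dd_p]
    simp [sg]
  · intro hv
    obtain ⟨W, hW, hW2⟩ := exact_tot (ex (k := k) (RR k) 0 v)
      (DT_sup0 _ _ _ _ _ (ex_sup _ _)) (by
        rw [ex_apply]
        exact hv)
    refine ⟨rs (k := k) (RR k) 1 W, ?_⟩
    apply ex_inj (k := k) 0
    rw [ex_Dn, ex_rs _ W (hW2 _ (ex_sup _ _)), hW]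

/-- The length of `Tor_n(N, M)` for `M = R/{c0.c0 = 0}`. -/
theorem length_TorX {M : Type} [AddCommGroup M] [Module (RR k) M] (π : RR k →ₗ[RR k] M)
    (hπ : Function.Surjective π) (hker : ∀ r : RR k, π r = 0 ↔ r.c0.c0 = 0)
    (N : Type) [AddCommGroup N] [Module (RR k) N] (n : ℕ) :
    Module.length (RR k) (((Tor (ModuleCat.{0} (RR k)) n).obj (ModuleCat.of (RR k) N)).obj
      (ModuleCat.of (RR k) M)) = hl (⊤ : Submodule (RR k) N) n := by
  have h1 := length_tor J (fun i => Dn (k := k) (RR k) i) (fun i => Dn_exact i)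
    (π ∘ₗ LinearMap.proj o0) (hπ.comp (fun r => ⟨fun _ => r, rfl⟩)) (by
      ext v
      rw [range_D0, LinearMap.mem_ker, LinearMap.comp_apply, hker]
      rfl) N n
  rw [h1, ← hgen_eq_hl]
  congr 1
  funext n
  apply LinearMap.ext
  intro v
  exact extN_Dn n v

end Pool.Agent.H407.Gol
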