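import Mathlib
import Pool.Agent.H407.Gol.TorX

set_option autoImplicit false
set_option linter.unusedSectionVars false

namespace Pool.Agent.H407.Gol

variable {k : Type} [CommRing k]

section

variable {N : Type} [AddCommGroup N] [Module (RR k) N]

/-- homology -/
abbrev HH (U : Submodule (RR k) N) (n : ℕ) : Type :=
  ZU U n ⧸ (BU U n).submoduleOf (ZU U n)

lemma BU_le (U : Submodule (RR k) N) (n : ℕ) : BU U n ≤ ZU U n := by
  rintro _ ⟨W, ⟨h1, h2⟩, rfl⟩
  refine ⟨⟨?_, DT_sup _ _ _ _ W n h2⟩, DR_DR _ _⟩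
  intro i j
  let g : N →ₗ[RR k] (N ⧸ U) := U.mkQ
  have hW : (fun i j => g (W i j)) = 0 := by
    funext i j
    exact (Submodule.Quotient.mk_eq_zero U).2 (h1 i j)
  have h3 := DT_nat A5.x A5.y (uu k) (vv k) g W
  rw [hW, map_zero] at h3
  have h4 := congrFun (congrFun h3 i) j
  exact (Submodule.Quotient.mk_eq_zero U).1 h4.symm

end

section

variable {Q' Q : Type} [AddCommGroup Q'] [Module (RR k) Q'] [AddCommGroup Q] [Module (RR k) Q]
  (E : Q' →ₗ[RR k] Q)

/-- postcomposition -/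
def post : (Idx → Idx → Q') →ₗ[RR k] (Idx → Idx → Q) where
  toFun V := fun i j => E (V i j)
  map_add' V W := by funext i j; exact map_add E _ _
  map_smul' c V := by funext i j; exact map_smul E _ _

lemma post_D (V : Idx → Idx → Q') : post E (DR k Q' V) = DR k Q (post E V) :=
  (DT_nat _ _ _ _ E V).symm

/-- the elements of degree `n+1` whose image is a cycle -/
noncomputable def PP (n : ℕ) : Submodule (RR k) (Idx → Idx → Q') :=
  VU ⊤ (n + 1) ⊓ LinearMap.ker (DR k Q ∘ₗ post E)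

lemma PP_D (n : ℕ) (p : PP E n) : DR k Q' p.1 ∈ ZU (LinearMap.ker E) n := by
  obtain ⟨p, ⟨_, h2⟩, h3⟩ := p
  refine ⟨⟨fun i j => ?_, DT_sup _ _ _ _ p n h2⟩, DR_DR _ _⟩
  have h4 : post E (DR k Q' p) = 0 := by rw [post_D]; exact h3
  exact congrFun (congrFun h4 i) j

lemma PP_E (n : ℕ) (p : PP E n) : post E p.1 ∈ ZU (LinearMap.range E) (n + 1) := by
  obtain ⟨p, ⟨_, h2⟩, h3⟩ := p
  refine ⟨⟨fun i j => ⟨p i j, rfl⟩, fun i j hij => ?_⟩, h3⟩
  change E (p i j) = 0
  rw [h2 i j hij, map_zero]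

/-- δ on representatives -/
noncomputable def δδ (n : ℕ) : PP E n →ₗ[RR k] HH (LinearMap.ker E) n :=
  ((BU (LinearMap.ker E) n).submoduleOf (ZU (LinearMap.ker E) n)).mkQ ∘ₗ
    LinearMap.codRestrict _ (DR k Q' ∘ₗ (PP E n).subtype) (PP_D E n)

/-- α on representatives -/
noncomputable def αα (n : ℕ) : PP E n →ₗ[RR k] HH (LinearMap.range E) (n + 1) :=
  ((BU (LinearMap.range E) (n + 1)).submoduleOf (ZU (LinearMap.range E) (n + 1))).mkQ ∘ₗ
    LinearMap.codRestrict _ (post E ∘ₗ (PP E n).subtype) (PP_E E n)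

lemma δδ_zero (n : ℕ) (p : PP E n) :
    δδ E n p = 0 ↔ DR k Q' p.1 ∈ BU (LinearMap.ker E) n := by
  exact Submodule.Quotient.mk_eq_zero _

lemma αα_zero (n : ℕ) (p : PP E n) :
    αα E n p = 0 ↔ post E p.1 ∈ BU (LinearMap.range E) (n + 1) := by
  exact Submodule.Quotient.mk_eq_zero _

/-- lifting along `E` -/
lemma lift_range (n : ℕ) (V : Idx → Idx → Q) (hV : V ∈ VU (LinearMap.range E) n) :
    ∃ W ∈ VU (⊤ : Submodule (RR k) Q') n, post E W = V := by
  classical
  obtain ⟨h1, h2⟩ := hV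
  choose w hw using h1
  refine ⟨fun i j => if deg i + deg j = n then w i j else 0, ⟨fun _ _ => trivial, ?_⟩, ?_⟩
  · intro i j hij
    simp only [if_neg hij]
  · funext i j
    change E (if deg i + deg j = n then w i j else 0) = V i j
    by_cases h : deg i + deg j = n
    · rw [if_pos h, hw]
    · rw [if_neg h, h2 i j h, map_zero]

lemma αα_surj (n : ℕ) : Function.Surjective (αα E n) := by
  intro h
  obtain ⟨⟨V, hV, hV2⟩, rfl⟩ := Submodule.Quotient.mk_surjective _ h
  obtain ⟨W, hW, rfl⟩ := lift_range E _ V hV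
  exact ⟨⟨W, hW, hV2⟩, rfl⟩

lemma ker_le (n : ℕ) (p : PP E n) (hp : αα E n p = 0) : δδ E n p = 0 := by
  rw [αα_zero] at hp
  rw [δδ_zero]
  obtain ⟨w, hw, hw2⟩ := hp
  obtain ⟨r, hr, rfl⟩ := lift_range E _ w hw
  rw [← post_D] at hw2
  refine ⟨p.1 - DR k Q' r, ⟨fun i j => ?_, ?_⟩, ?_⟩
  · have h5 : post E (p.1 - DR k Q' r) = 0 := by rw [map_sub, hw2, sub_self]
    exact congrFun (congrFun h5 i) j
  · intro i j hij
    change p.1 i j - DR k Q' r i j = 0
    rw [p.2.1.2 i j hij, DT_sup _ _ _ _ r (n + 1) hr.2 i j hij, sub_zero]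
  · rw [map_sub, DR_DR, sub_zero]

/-- the connecting map -/
theorem exists_conn (n : ℕ) : ∃ φ : HH (LinearMap.range E) (n + 1) →ₗ[RR k]
    HH (LinearMap.ker E) n, ∀ p, φ (αα E n p) = δδ E n p := by
  have hle : LinearMap.ker (αα E n) ≤ LinearMap.ker (δδ E n) := fun p hp => ker_le E n p hp
  refine ⟨(LinearMap.ker (αα E n)).liftQ (δδ E n) hle ∘ₗ
    ((αα E n).quotKerEquivOfSurjective (αα_surj E n)).symm.toLinearMap, fun p => ?_⟩
  have h1 : ((αα E n).quotKerEquivOfSurjective (αα_surj E n)).symm (αα E n p) =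
      Submodule.Quotient.mk p := by
    rw [LinearEquiv.symm_apply_eq]
    rfl
  change (LinearMap.ker (αα E n)).liftQ (δδ E n) hle
    (((αα E n).quotKerEquivOfSurjective (αα_surj E n)).symm (αα E n p)) = _
  rw [h1]
  rfl

/-- the inclusion map on homology -/
noncomputable def γγ (n : ℕ) : HH (LinearMap.ker E) n →ₗ[RR k] HH (⊤ : Submodule (RR k) Q') n :=
  Submodule.mapQ _ _ (Submodule.inclusion (by
    rintro V ⟨⟨_, h2⟩, h3⟩
    exact ⟨⟨fun _ _ => trivial, h2⟩, h3⟩)) (by
    rintro ⟨V, hV⟩ ⟨W, ⟨_, h2⟩, h3⟩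
    exact ⟨W, ⟨fun _ _ => trivial, h2⟩, h3⟩)

lemma γγ_mk (n : ℕ) (V : Idx → Idx → Q') (hV : V ∈ ZU (LinearMap.ker E) n) :
    γγ E n (Submodule.Quotient.mk ⟨V, hV⟩) =
      Submodule.Quotient.mk ⟨V, ⟨⟨fun _ _ => trivial, hV.1.2⟩, hV.2⟩⟩ := rfl

lemma ker_γγ (n : ℕ) (h : HH (LinearMap.ker E) n) (hh : γγ E n h = 0) :
    ∃ p, δδ E n p = h := by
  obtain ⟨⟨V, hV⟩, rfl⟩ := Submodule.Quotient.mk_surjective _ h
  rw [γγ_mk, Submodule.Quotient.mk_eq_zero] at hh
  have h1 : V ∈ BU (⊤ : Submodule (RR k) Q') n := hh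
  obtain ⟨W, hW, rfl⟩ := h1
  refine ⟨⟨W, hW, ?_⟩, rfl⟩
  change DR k Q (post E W) = 0
  rw [← post_D]
  funext i j
  exact hV.1.1 i j

/-- the long exact sequence inequality -/
theorem les_ineq (n : ℕ) (κ t : ℕ∞)
    (hκ : κ = 0 ∨ (κ = 1 ∧ ∃ z ∈ VU (⊤ : Submodule (RR k) Q') (n + 1), DR k Q' z = 0 ∧
      post E z ∉ BU (LinearMap.range E) (n + 1)))
    (ht : hl (⊤ : Submodule (RR k) Q') n ≤ t ∨
      VU (LinearMap.ker E) n ≤ BU (⊤ : Submodule (RR k) Q') n) :
    hl (LinearMap.ker E) n + κ ≤ hl (LinearMap.range E) (n + 1) + t := by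
  obtain ⟨φ, hφ⟩ := exists_conn E n
  -- length of the source
  have h1 : Module.length (RR k) (HH (LinearMap.range E) (n + 1)) =
      Module.length (RR k) (LinearMap.ker φ) + Module.length (RR k) (LinearMap.range φ) :=
    Module.length_eq_add_of_exact (LinearMap.ker φ).subtype φ.rangeRestrict
      (Submodule.subtype_injective _) φ.surjective_rangeRestrict (by
        rw [LinearMap.exact_iff, LinearMap.ker_rangeRestrict, Submodule.range_subtype])
  have h2 : Module.length (RR k) (HH (LinearMap.ker E) n) =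
      Module.length (RR k) (LinearMap.ker (γγ E n)) +
        Module.length (RR k) (LinearMap.range (γγ E n)) :=
    Module.length_eq_add_of_exact (LinearMap.ker (γγ E n)).subtype (γγ E n).rangeRestrict
      (Submodule.subtype_injective _) (γγ E n).surjective_rangeRestrict (by
        rw [LinearMap.exact_iff, LinearMap.ker_rangeRestrict, Submodule.range_subtype])
  have h3 : Module.length (RR k) (LinearMap.ker (γγ E n)) ≤
      Module.length (RR k) (LinearMap.range φ) := by
    have hle : LinearMap.ker (γγ E n) ≤ LinearMap.range φ := by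
      intro h hh
      obtain ⟨p, rfl⟩ := ker_γγ E n h hh
      exact ⟨αα E n p, hφ p⟩
    exact Module.length_le_of_injective (Submodule.inclusion hle)
      (Submodule.inclusion_injective hle)
  have h4 : Module.length (RR k) (LinearMap.range (γγ E n)) ≤ t := by
    rcases ht with ht | ht
    · exact (Module.length_le_of_injective (LinearMap.range (γγ E n)).subtype
        (Submodule.subtype_injective _)).trans ht
    · have h5 : γγ E n = 0 := by
        apply LinearMap.ext
        intro h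
        obtain ⟨⟨V, hV⟩, rfl⟩ := Submodule.Quotient.mk_surjective _ h
        exact (Submodule.Quotient.mk_eq_zero _).2 (ht hV.1)
      rw [h5, LinearMap.range_zero]
      simp
  have h5 : κ ≤ Module.length (RR k) (LinearMap.ker φ) := by
    rcases hκ with rfl | ⟨rfl, z, hz, hz2, hz3⟩
    · exact zero_le
    · have hzP : z ∈ PP E n := by
        refine ⟨hz, ?_⟩
        change DR k Q (post E z) = 0
        rw [← post_D, hz2, map_zero]
      have h6 : φ (αα E n ⟨z, hzP⟩) = 0 := by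
        rw [hφ, δδ_zero]
        change DR k Q' z ∈ _
        rw [hz2]
        exact Submodule.zero_mem _
      have h7 : αα E n ⟨z, hzP⟩ ≠ 0 := by
        intro h
        rw [αα_zero] at h
        exact hz3 h
      have : Nontrivial (LinearMap.ker φ) :=
        ⟨⟨αα E n ⟨z, hzP⟩, h6⟩, 0, fun h => h7 (congrArg Subtype.val h)⟩
      have h8 := Module.length_pos (R := RR k) (M := LinearMap.ker φ)
      exact Order.one_le_iff_pos.2 h8
  change Module.length (RR k) (HH (LinearMap.ker E) n) + κ ≤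
    Module.length (RR k) (HH (LinearMap.range E) (n + 1)) + t
  rw [h1, h2]
  calc _ ≤ (Module.length (RR k) (LinearMap.range φ) + t) +
        Module.length (RR k) (LinearMap.ker φ) := add_le_add (add_le_add h3 h4) h5
    _ = _ := by ring

end

end Pool.Agent.H407.Gol
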