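import Mathlib
import Pool.Agent.H407.Gol.Exact

set_option autoImplicit false
set_option linter.unusedSectionVars false

namespace Pool.Agent.H407.Gol

open A5 IsLocalRing

lemma A5_nilp {B : Type} [CommRing B] (n : A5 B) (hn : n.c0 = 0) : IsNilpotent n := by
  refine ⟨4, ?_⟩
  have h2 : n * n = ⟨0, 0, 0, n.c2 * n.c2, n.c1 * n.c1 + n.c2 * n.c3 + n.c3 * n.c2⟩ := by
    ext <;> simp [hn]
  have h4 : n ^ 4 = (n * n) * (n * n) := by ring
  rw [h4, h2]
  ext <;> simp

lemma A5_unit {B : Type} [CommRing B] (a : A5 B) (ha : IsUnit a.c0) : IsUnit a := by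
  have h1 : a = C a.c0 + (a - C a.c0) := by ring
  rw [h1]
  exact (A5_nilp (a - C a.c0) (by simp)).isUnit_add_left_of_commute (ha.map C)
    (Commute.all _ _)

variable {k : Type} [Field k]

lemma RR_unit (a : RR k) (ha : a.c0.c0 ≠ 0) : IsUnit a :=
  A5_unit a (A5_unit a.c0 (isUnit_iff_ne_zero.2 ha))

/-- the residue map -/
def res0 (k : Type) [CommRing k] : RR k →+* k := (ε : A5 k →+* k).comp (ε : RR k →+* A5 k)

lemma res0_apply (a : RR k) : res0 k a = a.c0.c0 := rfl

lemma RR_not_unit (a : RR k) (ha : a.c0.c0 = 0) : ¬ IsUnit a := by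
  intro h
  have := h.map (res0 k)
  rw [res0_apply, ha] at this
  exact not_isUnit_zero this

instance : Nontrivial (RR k) := ⟨⟨0, 1, fun h => by
  have := congrArg (res0 k) h
  simp at this⟩⟩

instance RR_local : IsLocalRing (RR k) := by
  refine IsLocalRing.of_nonunits_add ?_
  intro a b ha hb
  have h1 : a.c0.c0 = 0 := by
    by_contra h
    exact ha (RR_unit a h)
  have h2 : b.c0.c0 = 0 := by
    by_contra h
    exact hb (RR_unit b h)
  exact RR_not_unit _ (by simp [h1, h2])

lemma mem_max (a : RR k) : a ∈ maximalIdeal (RR k) ↔ a.c0.c0 = 0 := by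
  rw [mem_maximalIdeal, mem_nonunits_iff]
  constructor
  · intro h
    by_contra h2
    exact h (RR_unit a h2)
  · exact RR_not_unit a

/-- the four generators -/
def gg (k : Type) [CommRing k] : Fin 4 → RR k := ![x, y, uu k, vv k]

lemma gg_mem (i : Fin 4) : (gg k i).c0.c0 = 0 := by
  fin_cases i <;> simp [gg]

lemma max_eq : maximalIdeal (RR k) = Ideal.span (Set.range (gg k)) := by
  apply le_antisymm
  · intro a ha
    rw [mem_max] at ha
    have hx : (x : RR k) ∈ Ideal.span (Set.range (gg k)) := Ideal.subset_span ⟨0, rfl⟩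
    have hy : (y : RR k) ∈ Ideal.span (Set.range (gg k)) := Ideal.subset_span ⟨1, rfl⟩
    have hu : (uu k : RR k) ∈ Ideal.span (Set.range (gg k)) := Ideal.subset_span ⟨2, rfl⟩
    have hv : (vv k : RR k) ∈ Ideal.span (Set.range (gg k)) := Ideal.subset_span ⟨3, rfl⟩
    rw [decomp a]
    have h0 : (C a.c0 : RR k) ∈ Ideal.span (Set.range (gg k)) := by
      have e : (C a.c0 : RR k) = C (C a.c0.c1) * uu k + C (C a.c0.c2) * vv k +
          C (C a.c0.c3) * (vv k * vv k) + C (C a.c0.c4) * (vv k * vv k * vv k) := by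
        conv_lhs => rw [decomp a.c0, ha]
        simp only [map_add, map_mul, map_zero, zero_add]
      rw [e]
      refine Ideal.add_mem _ (Ideal.add_mem _ (Ideal.add_mem _ (Ideal.mul_mem_left _ _ hu)
        (Ideal.mul_mem_left _ _ hv)) (Ideal.mul_mem_left _ _ (Ideal.mul_mem_left _ _ hv)))
        (Ideal.mul_mem_left _ _ (Ideal.mul_mem_left _ _ hv))
    refine Ideal.add_mem _ (Ideal.add_mem _ (Ideal.add_mem _ (Ideal.add_mem _ h0
      (Ideal.mul_mem_left _ _ hx)) (Ideal.mul_mem_left _ _ hy))
      (Ideal.mul_mem_left _ _ (Ideal.mul_mem_left _ _ hy)))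
      (Ideal.mul_mem_left _ _ (Ideal.mul_mem_left _ _ hy))
  · rw [Ideal.span_le]
    rintro _ ⟨i, rfl⟩
    exact (mem_max _).2 (gg_mem i)

lemma max_nilp : IsNilpotent (maximalIdeal (RR k)) := by
  have hfg : (maximalIdeal (RR k)).FG := by
    rw [max_eq]
    exact ⟨(Set.finite_range (gg k)).toFinset, by simp⟩
  rw [hfg.isNilpotent_iff_le_nilradical]
  intro a ha
  rw [mem_max] at ha
  rw [mem_nilradical]
  have h1 : a = C a.c0 + (a - C a.c0) := by ring
  rw [h1]
  exact Commute.isNilpotent_add (Commute.all _ _) ((A5_nilp a.c0 ha).map C)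
    (A5_nilp (a - C a.c0) (by simp))

theorem adicComplete_of_nilpotent {A : Type} [CommRing A] (I : Ideal A) (hI : IsNilpotent I) :
    IsAdicComplete I A := by
  obtain ⟨n, hn⟩ := hI
  refine { haus' := ?_, prec' := ?_ }
  · intro a ha
    have := ha n
    rw [hn] at this
    rw [SModEq.zero] at this
    simpa using this
  · intro f hf
    refine ⟨f n, fun m => ?_⟩
    rcases le_total m n with h | h
    · exact hf h
    · have h1 := hf h
      rw [hn] at h1
      have h2 : f n = f m := by
        have h3 := (SModEq.sub_mem).1 h1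
        simp only [Ideal.zero_eq_bot, Submodule.bot_smul, Submodule.mem_bot] at h3
        exact sub_eq_zero.1 h3
      rw [h2]

instance : IsAdicComplete (maximalIdeal (RR k)) (RR k) := adicComplete_of_nilpotent _ max_nilp

end Pool.Agent.H407.Gol
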