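import Mathlib
import Pool.Agent.H407.Gol.RRing

set_option autoImplicit false
set_option linter.unusedSectionVars false

namespace Pool.Agent.H407.Gol

open A5 IsLocalRing

variable (k : Type) [Field k]

/-- the polynomial ring in four variables -/
abbrev P0 : Type := MvPolynomial (Fin 4) k

/-- the map to `R` -/
noncomputable def π0 : P0 k →+* RR k :=
  MvPolynomial.eval₂Hom ((C : A5 k →+* RR k).comp (C : k →+* A5 k)) (gg k)

lemma π0_C (a : k) : π0 k (MvPolynomial.C a) = C (C a) := by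
  simp [π0]

lemma π0_X (i : Fin 4) : π0 k (MvPolynomial.X i) = gg k i := by
  simp [π0]

/-- the four relations -/
noncomputable def rel0 : Fin 4 → P0 k :=
  ![MvPolynomial.X 0 * MvPolynomial.X 1,
    MvPolynomial.X 0 * MvPolynomial.X 0 - MvPolynomial.X 1 * MvPolynomial.X 1 * MvPolynomial.X 1,
    MvPolynomial.X 2 * MvPolynomial.X 3,
    MvPolynomial.X 2 * MvPolynomial.X 2 - MvPolynomial.X 3 * MvPolynomial.X 3 * MvPolynomial.X 3]

lemma π0_rel (i : Fin 4) : π0 k (rel0 k i) = 0 := by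
  fin_cases i
  · simp [rel0, π0_X, gg, xy]
  · simp [rel0, π0_X, gg, xx]
  · simp [rel0, π0_X, gg, rel_uv]
  · simp [rel0, π0_X, gg, rel_uu]

/-- the ideal of relations -/
noncomputable def I0 : Ideal (P0 k) := Ideal.span (Set.range (rel0 k))

/-- the inverse map -/
noncomputable def σ0 : RR k →+* P0 k ⧸ I0 k :=
  A5.lift (A5.lift ((Ideal.Quotient.mk (I0 k)).comp MvPolynomial.C)
      (Ideal.Quotient.mk (I0 k) (MvPolynomial.X 2)) (Ideal.Quotient.mk (I0 k) (MvPolynomial.X 3))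
      (by
        rw [← map_mul, Ideal.Quotient.eq_zero_iff_mem]
        exact Ideal.subset_span ⟨2, rfl⟩)
      (by
        rw [← map_mul, ← map_mul, ← map_mul, Ideal.Quotient.eq]
        exact Ideal.subset_span ⟨3, rfl⟩))
    (Ideal.Quotient.mk (I0 k) (MvPolynomial.X 0)) (Ideal.Quotient.mk (I0 k) (MvPolynomial.X 1))
      (by
        rw [← map_mul, Ideal.Quotient.eq_zero_iff_mem]
        exact Ideal.subset_span ⟨0, rfl⟩)
      (by
        rw [← map_mul, ← map_mul, ← map_mul, Ideal.Quotient.eq]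
        exact Ideal.subset_span ⟨1, rfl⟩)

lemma σ0_π0 : (σ0 k).comp (π0 k) = Ideal.Quotient.mk (I0 k) := by
  apply MvPolynomial.ringHom_ext
  · intro a
    rw [RingHom.comp_apply, π0_C, σ0, A5.lift_C, A5.lift_C]
    rfl
  · intro i
    rw [RingHom.comp_apply, π0_X]
    fin_cases i
    · exact A5.lift_x _ _ _ _ _
    · exact A5.lift_y _ _ _ _ _
    · exact (A5.lift_C _ _ _ _ _ _).trans (A5.lift_x _ _ _ _ _)
    · exact (A5.lift_C _ _ _ _ _ _).trans (A5.lift_y _ _ _ _ _)

lemma mem_I0 (p : P0 k) (hp : π0 k p = 0) : p ∈ I0 k := by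
  have h := congrFun (congrArg DFunLike.coe (σ0_π0 k)) p
  rw [RingHom.comp_apply, hp, map_zero] at h
  exact Ideal.Quotient.eq_zero_iff_mem.1 h.symm

lemma π0_surj : Function.Surjective (π0 k) := by
  have hx : (x : RR k) ∈ (π0 k).range := ⟨MvPolynomial.X 0, π0_X k 0⟩
  have hy : (y : RR k) ∈ (π0 k).range := ⟨MvPolynomial.X 1, π0_X k 1⟩
  have hu : (uu k : RR k) ∈ (π0 k).range := ⟨MvPolynomial.X 2, π0_X k 2⟩
  have hv : (vv k : RR k) ∈ (π0 k).range := ⟨MvPolynomial.X 3, π0_X k 3⟩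
  have hC : ∀ b : A5 k, (C b : RR k) ∈ (π0 k).range := by
    intro b
    have h0 : ∀ a : k, (C (C a) : RR k) ∈ (π0 k).range := fun a => ⟨_, π0_C k a⟩
    rw [decomp b]
    simp only [map_add, map_mul]
    exact add_mem (add_mem (add_mem (add_mem (h0 _) (mul_mem (h0 _) hu)) (mul_mem (h0 _) hv))
      (mul_mem (h0 _) (mul_mem hv hv))) (mul_mem (h0 _) (mul_mem (mul_mem hv hv) hv))
  intro a
  have : a ∈ (π0 k).range := by
    rw [decomp a]
    exact add_mem (add_mem (add_mem (add_mem (hC _) (mul_mem (hC _) hx)) (mul_mem (hC _) hy))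
      (mul_mem (hC _) (mul_mem hy hy))) (mul_mem (hC _) (mul_mem (mul_mem hy hy) hy))
  exact this

instance : IsNoetherianRing (RR k) := isNoetherianRing_of_surjective _ _ (π0 k) (π0_surj k)

/-- the origin -/
noncomputable def p0 : Ideal (P0 k) := RingHom.ker (MvPolynomial.constantCoeff : P0 k →+* k)

instance : (p0 k).IsPrime := RingHom.ker_isPrime _

lemma res_π0 (p : P0 k) : res0 k (π0 k p) = MvPolynomial.constantCoeff p := by
  have : (res0 k).comp (π0 k) = MvPolynomial.constantCoeff := by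
    apply MvPolynomial.ringHom_ext
    · intro a
      rw [RingHom.comp_apply, π0_C, MvPolynomial.constantCoeff_C]
      rfl
    · intro i
      rw [RingHom.comp_apply, π0_X, MvPolynomial.constantCoeff_X]
      exact gg_mem i
  exact congrFun (congrArg DFunLike.coe this) p

/-- the regular local ring -/
abbrev Q0 : Type := Localization.AtPrime (p0 k)

instance : IsRegularLocalRing (Q0 k) := inferInstance

lemma π0_unit (s : (p0 k).primeCompl) : IsUnit (π0 k s) := by
  apply RR_unit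
  change res0 k (π0 k s) ≠ 0
  rw [res_π0]
  exact s.2

/-- the map from the regular local ring -/
noncomputable def PQ : Q0 k →+* RR k := IsLocalization.lift (M := (p0 k).primeCompl) (π0_unit k)

lemma PQ_alg (p : P0 k) : PQ k (algebraMap _ _ p) = π0 k p := IsLocalization.lift_eq _ _

lemma PQ_surj : Function.Surjective (PQ k) := by
  intro a
  obtain ⟨p, rfl⟩ := π0_surj k a
  exact ⟨algebraMap _ _ p, PQ_alg k p⟩

/-- the four relations in `Q` -/
noncomputable def rel : Fin 4 → Q0 k := fun i => algebraMap _ _ (rel0 k i)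

lemma ker_PQ : RingHom.ker (PQ k) = Ideal.span (Set.range (rel k)) := by
  apply le_antisymm
  · intro q hq
    obtain ⟨p, s, rfl⟩ := IsLocalization.exists_mk'_eq (p0 k).primeCompl q
    have h1 : π0 k p = 0 := by
      have h2 : PQ k (IsLocalization.mk' _ p s) = 0 := hq
      have h3 := congrArg (PQ k) (IsLocalization.mk'_spec (Q0 k) p s)
      rw [map_mul, h2, zero_mul, PQ_alg] at h3
      exact h3.symm
    have h2 := mem_I0 k p h1
    rw [IsLocalization.mk'_eq_mul_mk'_one]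
    apply Ideal.mul_mem_right
    have h3 : algebraMap (P0 k) (Q0 k) p ∈ (I0 k).map (algebraMap (P0 k) (Q0 k)) :=
      Ideal.mem_map_of_mem _ h2
    rw [I0, Ideal.map_span, ← Set.range_comp] at h3
    exact h3
  · rw [Ideal.span_le]
    rintro _ ⟨i, rfl⟩
    change PQ k _ = 0
    rw [rel, PQ_alg, π0_rel]

/-- the variables in `Q` -/
noncomputable def XX (i : Fin 4) : Q0 k := algebraMap _ _ (MvPolynomial.X i : P0 k)

lemma XX_mem (i : Fin 4) : XX k i ∈ maximalIdeal (Q0 k) := by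
  rw [← IsLocalization.AtPrime.map_eq_maximalIdeal (p0 k) (Q0 k)]
  apply Ideal.mem_map_of_mem
  change MvPolynomial.constantCoeff _ = 0
  simp

/-- a test homomorphism to power series -/
noncomputable def τ0 (c : Fin 4 → k) : P0 k →+* PowerSeries k :=
  MvPolynomial.eval₂Hom (PowerSeries.C : k →+* PowerSeries k)
    (fun i => PowerSeries.C (c i) * PowerSeries.X)

lemma τ0_X (c : Fin 4 → k) (i : Fin 4) : τ0 k c (MvPolynomial.X i) =
    PowerSeries.C (c i) * PowerSeries.X := by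
  simp [τ0]

lemma τ0_cc (c : Fin 4 → k) (p : P0 k) :
    PowerSeries.constantCoeff (τ0 k c p) = MvPolynomial.constantCoeff p := by
  have : (PowerSeries.constantCoeff (R := k)).comp (τ0 k c) = MvPolynomial.constantCoeff := by
    apply MvPolynomial.ringHom_ext
    · intro a
      simp [τ0]
    · intro i
      rw [RingHom.comp_apply, τ0_X, MvPolynomial.constantCoeff_X]
      simp
  exact congrFun (congrArg DFunLike.coe this) p

lemma τ0_unit (c : Fin 4 → k) (s : (p0 k).primeCompl) : IsUnit (τ0 k c s) := by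
  rw [PowerSeries.isUnit_iff_constantCoeff, τ0_cc, isUnit_iff_ne_zero]
  exact s.2

/-- the test homomorphism on `Q` -/
noncomputable def τ (c : Fin 4 → k) : Q0 k →+* PowerSeries k :=
  IsLocalization.lift (M := (p0 k).primeCompl) (τ0_unit k c)

lemma τ_alg (c : Fin 4 → k) (p : P0 k) : τ k c (algebraMap _ _ p) = τ0 k c p :=
  IsLocalization.lift_eq _ _

lemma τ_max (c : Fin 4 → k) (q : Q0 k) :
    q ∈ maximalIdeal (Q0 k) ↔ PowerSeries.constantCoeff (τ k c q) = 0 := by
  obtain ⟨p, s, rfl⟩ := IsLocalization.exists_mk'_eq (p0 k).primeCompl q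
  have h3 := congrArg (τ k c) (IsLocalization.mk'_spec (Q0 k) p s)
  rw [map_mul, τ_alg, τ_alg] at h3
  have h4 := congrArg (PowerSeries.constantCoeff (R := k)) h3
  rw [map_mul, τ0_cc, τ0_cc] at h4
  have hs : MvPolynomial.constantCoeff (s : P0 k) ≠ 0 := s.2
  rw [IsLocalization.AtPrime.mk'_mem_maximal_iff (Q0 k) (p0 k)]
  constructor
  · intro h
    have h5 : MvPolynomial.constantCoeff p = 0 := h
    rw [h5] at h4
    exact (mul_eq_zero.1 h4).resolve_right hs
  · intro h
    rw [h, zero_mul] at h4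
    exact h4.symm

lemma τ_pow (c : Fin 4 → k) (n : ℕ) (q : Q0 k) (hq : q ∈ maximalIdeal (Q0 k) ^ n) :
    τ k c q ∈ Ideal.span {(PowerSeries.X : PowerSeries k)} ^ n := by
  have h1 : (maximalIdeal (Q0 k)).map (τ k c) ≤ Ideal.span {(PowerSeries.X : PowerSeries k)} := by
    rw [Ideal.map_le_iff_le_comap]
    intro a ha
    rw [Ideal.mem_comap, Ideal.mem_span_singleton, PowerSeries.X_dvd_iff]
    exact (τ_max k c a).1 ha
  have h2 := Ideal.mem_map_of_mem (τ k c) hq
  rw [Ideal.map_pow] at h2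
  exact Ideal.pow_right_mono h1 n h2

lemma τ_coeff (c : Fin 4 → k) (q : Q0 k) (hq : q ∈ maximalIdeal (Q0 k) ^ 3) :
    PowerSeries.coeff 2 (τ k c q) = 0 := by
  have h := τ_pow k c 3 q hq
  rw [Ideal.span_singleton_pow, Ideal.mem_span_singleton, PowerSeries.X_pow_dvd_iff] at h
  exact h 2 (by norm_num)

theorem ker_le_two : RingHom.ker (PQ k) ≤ maximalIdeal (Q0 k) ^ 2 := by
  rw [ker_PQ, Ideal.span_le]
  have hm : ∀ i j, XX k i * XX k j ∈ maximalIdeal (Q0 k) ^ 2 := fun i j => by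
    rw [pow_two]
    exact Ideal.mul_mem_mul (XX_mem k i) (XX_mem k j)
  rintro _ ⟨i, rfl⟩
  fin_cases i
  · have : rel k 0 = XX k 0 * XX k 1 := by simp [rel, rel0, XX]
    exact this ▸ hm 0 1
  · have : rel k 1 = XX k 0 * XX k 0 - XX k 1 * XX k 1 * XX k 1 := by simp [rel, rel0, XX]
    exact this ▸ sub_mem (hm 0 0) (Ideal.mul_mem_right _ _ (hm 1 1))
  · have : rel k 2 = XX k 2 * XX k 3 := by simp [rel, rel0, XX]
    exact this ▸ hm 2 3
  · have : rel k 3 = XX k 2 * XX k 2 - XX k 3 * XX k 3 * XX k 3 := by simp [rel, rel0, XX]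
    exact this ▸ sub_mem (hm 2 2) (Ideal.mul_mem_right _ _ (hm 3 3))

lemma τ_rel (c : Fin 4 → k) (a : Fin 4 → Q0 k) :
    PowerSeries.coeff 2 (τ k c (∑ i, a i * rel k i)) =
      PowerSeries.constantCoeff (τ k c (a 0)) * (c 0 * c 1) +
      PowerSeries.constantCoeff (τ k c (a 1)) * (c 0 * c 0) +
      PowerSeries.constantCoeff (τ k c (a 2)) * (c 2 * c 3) +
      PowerSeries.constantCoeff (τ k c (a 3)) * (c 2 * c 2) := by
  have h0 : τ k c (rel k 0) = PowerSeries.C (c 0 * c 1) * PowerSeries.X ^ 2 := by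
    simp only [rel, rel0, τ_alg, Matrix.cons_val_zero, map_mul, τ0_X]; ring
  have h1 : τ k c (rel k 1) = PowerSeries.C (c 0 * c 0) * PowerSeries.X ^ 2
      - PowerSeries.C (c 1 * c 1 * c 1) * PowerSeries.X ^ 3 := by
    have : rel k 1 = algebraMap _ _ (MvPolynomial.X 0 * MvPolynomial.X 0 -
      MvPolynomial.X 1 * MvPolynomial.X 1 * MvPolynomial.X 1 : P0 k) := rfl
    rw [this]
    simp only [τ_alg, map_mul, map_sub, τ0_X]; ring
  have h2 : τ k c (rel k 2) = PowerSeries.C (c 2 * c 3) * PowerSeries.X ^ 2 := by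
    have : rel k 2 = algebraMap _ _ (MvPolynomial.X 2 * MvPolynomial.X 3 : P0 k) := rfl
    rw [this]
    simp only [τ_alg, map_mul, τ0_X]; ring
  have h3 : τ k c (rel k 3) = PowerSeries.C (c 2 * c 2) * PowerSeries.X ^ 2
      - PowerSeries.C (c 3 * c 3 * c 3) * PowerSeries.X ^ 3 := by
    have : rel k 3 = algebraMap _ _ (MvPolynomial.X 2 * MvPolynomial.X 2 -
      MvPolynomial.X 3 * MvPolynomial.X 3 * MvPolynomial.X 3 : P0 k) := rfl
    rw [this]
    simp only [τ_alg, map_mul, map_sub, τ0_X]; ring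
  have key : ∀ (f : PowerSeries k) (e : k), PowerSeries.coeff 2
      (f * (PowerSeries.C e * PowerSeries.X ^ 2)) = PowerSeries.constantCoeff f * e := by
    intro f e
    rw [show f * (PowerSeries.C e * PowerSeries.X ^ 2) = (f * PowerSeries.C e) * PowerSeries.X ^ 2
      by ring, PowerSeries.coeff_mul_X_pow' ]
    simp
  have key2 : ∀ (f : PowerSeries k) (e : k), PowerSeries.coeff 2
      (f * (PowerSeries.C e * PowerSeries.X ^ 3)) = 0 := by
    intro f e
    rw [show f * (PowerSeries.C e * PowerSeries.X ^ 3) = (f * PowerSeries.C e) * PowerSeries.X ^ 3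
      by ring, PowerSeries.coeff_mul_X_pow' ]
    simp
  rw [Fin.sum_univ_four]
  simp only [map_add, map_mul, h0, h1, h2, h3, mul_sub, map_sub]
  simp only [← map_mul, key, key2, sub_zero]

theorem ker_inf : RingHom.ker (PQ k) ⊓ maximalIdeal (Q0 k) ^ 3 ≤
    maximalIdeal (Q0 k) * RingHom.ker (PQ k) := by
  rintro q ⟨hq1, hq2⟩
  have hq1' : q ∈ RingHom.ker (PQ k) := hq1
  rw [ker_PQ] at hq1'
  obtain ⟨a, rfl⟩ := (Ideal.mem_span_range_iff_exists_fun).1 hq1'
  have h := fun c => (τ_rel k c a).symm.trans (τ_coeff k c _ hq2)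
  have m : ∀ c i, PowerSeries.constantCoeff (τ k c (a i)) = 0 → a i ∈ maximalIdeal (Q0 k) :=
    fun c i h => (τ_max k c (a i)).2 h
  have h1 : a 1 ∈ maximalIdeal (Q0 k) := m ![1, 0, 0, 0] 1 (by
    have := h ![1, 0, 0, 0]
    simpa using this)
  have h0 : a 0 ∈ maximalIdeal (Q0 k) := m ![1, 1, 0, 0] 0 (by
    have := h ![1, 1, 0, 0]
    have h2 := (τ_max k ![1, 1, 0, 0] (a 1)).1 h1
    rw [h2] at this
    simpa using this)
  have h3 : a 3 ∈ maximalIdeal (Q0 k) := m ![0, 0, 1, 0] 3 (by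
    have := h ![0, 0, 1, 0]
    simpa using this)
  have h2 : a 2 ∈ maximalIdeal (Q0 k) := m ![0, 0, 1, 1] 2 (by
    have := h ![0, 0, 1, 1]
    have h2 := (τ_max k ![0, 0, 1, 1] (a 3)).1 h3
    rw [h2] at this
    simpa using this)
  have hr : ∀ i, rel k i ∈ RingHom.ker (PQ k) := fun i => by
    rw [ker_PQ]
    exact Ideal.subset_span ⟨i, rfl⟩
  rw [Fin.sum_univ_four]
  exact add_mem (add_mem (add_mem (Ideal.mul_mem_mul h0 (hr 0)) (Ideal.mul_mem_mul h1 (hr 1)))
    (Ideal.mul_mem_mul h2 (hr 2))) (Ideal.mul_mem_mul h3 (hr 3))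

theorem pres : ∃ (Q : Type) (_ : CommRing Q) (_ : IsRegularLocalRing Q) (I : Ideal Q),
    Nonempty (AdicCompletion (maximalIdeal (RR k)) (RR k) ≃+* Q ⧸ I) ∧
    I ≤ maximalIdeal Q ^ 2 ∧ I ⊓ maximalIdeal Q ^ 3 ≤ maximalIdeal Q * I := by
  refine ⟨Q0 k, inferInstance, inferInstance, RingHom.ker (PQ k), ⟨?_⟩, ker_le_two k, ker_inf k⟩
  exact ((AdicCompletion.ofAlgEquiv (maximalIdeal (RR k))).toRingEquiv.symm).trans
    (RingHom.quotientKerEquivOfSurjective (PQ_surj k)).symm

end Pool.Agent.H407.Gol
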