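import Mathlib
import Pool.Agent.H407.Gol.TorGen

set_option autoImplicit false
set_option linter.unusedSectionVars false

open CategoryTheory

namespace Pool.Agent.H407.Gol

section

variable {S : Type} [CommRing S]

theorem rlen_top_bot {M : Type} [AddCommGroup M] [Module S M] :
    rlen (⊤ : Submodule S M) ⊥ = Module.length S M := by
  unfold rlen
  have h : (⊥ : Submodule S M).submoduleOf ⊤ = ⊥ := by
    ext x
    constructor
    · intro hx
      exact Subtype.ext hx
    · intro hx
      rw [hx]
      exact Submodule.zero_mem _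
  rw [h]
  exact ((Submodule.quotEquivOfEqBot _ rfl).trans Submodule.topEquiv).length_eq

theorem hgen_zero (G : ℕ → Type) [∀ n, AddCommGroup (G n)] [∀ n, Module S (G n)]
    (d : ∀ n, G (n + 1) →ₗ[S] G n) (hd : ∀ n, d n = 0) (n : ℕ) :
    hgen G d n = Module.length S (G n) := by
  have h1 : ZG G d n = ⊤ := by
    cases n with
    | zero => rfl
    | succ n => simp only [ZG]; rw [hd, LinearMap.ker_zero]
  unfold hgen
  rw [h1, hd, LinearMap.range_zero, rlen_top_bot]

/-- Betti numbers of the residue field from a minimal resolution -/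
theorem length_tor_min [IsLocalRing S] (ι : ℕ → Type) [∀ n, Fintype (ι n)]
    [∀ n, DecidableEq (ι n)]
    (D : ∀ i : ℕ, (ι (i + 1) → S) →ₗ[S] (ι i → S))
    (hex : ∀ i, LinearMap.range (D (i + 1)) = LinearMap.ker (D i))
    (π : (ι 0 → S) →ₗ[S] IsLocalRing.ResidueField S)
    (hπ : Function.Surjective π) (hker : LinearMap.range (D 0) = LinearMap.ker π)
    (hmin : ∀ n v i, D n v i ∈ IsLocalRing.maximalIdeal S) (n : ℕ) :
    Module.length S (((Tor (ModuleCat.{0} S) n).obj
      (ModuleCat.of S (IsLocalRing.ResidueField S))).obj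
      (ModuleCat.of S (IsLocalRing.ResidueField S))) = Fintype.card (ι n) := by
  rw [length_tor ι D hex π hπ hker, hgen_zero]
  · rw [Module.length_pi]
    have : Module.length S (IsLocalRing.ResidueField S) = 1 := by
      have : IsSimpleModule S (IsLocalRing.ResidueField S) :=
        isSimpleModule_iff_quot_maximal.2 ⟨IsLocalRing.maximalIdeal S, inferInstance,
          ⟨LinearEquiv.refl _ _⟩⟩
      exact Module.length_eq_one _ _
    rw [this]
    simp
  · intro n
    apply LinearMap.ext
    intro v
    funext i
    change ∑ j, D n (Pi.single j 1) i • v j = 0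
    refine Finset.sum_eq_zero fun j _ => ?_
    obtain ⟨a, ha⟩ := IsLocalRing.residue_surjective (v j)
    rw [← ha, Algebra.smul_def, IsLocalRing.ResidueField.algebraMap_eq, ← map_mul,
      IsLocalRing.residue_eq_zero_iff]
    exact Ideal.mul_mem_right _ _ (hmin n _ i)

end

end Pool.Agent.H407.Gol
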