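import Mathlib
import Pool.Agent.H407.Gol.Min

set_option autoImplicit false
set_option linter.unusedSectionVars false

open CategoryTheory IsLocalRing

namespace Pool.Agent.H407.Gol

variable {S : Type} [CommRing S] (g : Fin 4 → S)

/-- the differential on words -/
def DW (n : ℕ) : ((Fin (n + 1) → Fin 4) → S) →ₗ[S] ((Fin n → Fin 4) → S) where
  toFun v := fun w => ∑ a, g a * v (Fin.cons a w)
  map_add' v v' := by
    funext w
    simp [mul_add, Finset.sum_add_distrib]
  map_smul' c v := by
    funext w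
    simp only [Pi.smul_apply, smul_eq_mul, RingHom.id_apply, Finset.mul_sum]
    exact Finset.sum_congr rfl fun a _ => by ring

lemma DW_apply (n : ℕ) (v : (Fin (n + 1) → Fin 4) → S) (w : Fin n → Fin 4) :
    DW g n v w = ∑ a, g a * v (Fin.cons a w) := rfl

variable [IsLocalRing S] (h1 : ∀ c : Fin 4 → S, ∑ a, g a * c a = 0 ↔ ∀ a, c a ∈ maximalIdeal S)
  (h2 : ∀ s, s ∈ maximalIdeal S ↔ ∃ c : Fin 4 → S, ∑ a, g a * c a = s)

include h1 in
lemma DW_ker (n : ℕ) (v : (Fin (n + 1) → Fin 4) → S) :
    DW g n v = 0 ↔ ∀ w, v w ∈ maximalIdeal S := by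
  constructor
  · intro h w
    have h3 := congrFun h (Fin.tail w)
    rw [DW_apply] at h3
    have h4 := (h1 (fun a => v (Fin.cons a (Fin.tail w)))).1 h3 (w 0)
    rwa [Fin.cons_self_tail] at h4
  · intro h
    funext w
    rw [DW_apply]
    exact (h1 (fun a => v (Fin.cons a w))).2 (fun a => h _)

include h2 in
lemma DW_range (n : ℕ) (v : (Fin n → Fin 4) → S) :
    v ∈ LinearMap.range (DW g n) ↔ ∀ w, v w ∈ maximalIdeal S := by
  constructor
  · rintro ⟨u, rfl⟩ w
    rw [DW_apply, h2]
    exact ⟨_, rfl⟩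
  · intro h
    choose c hc using fun w => (h2 (v w)).1 (h w)
    refine ⟨fun w => c (Fin.tail w) (w 0), ?_⟩
    funext w
    rw [DW_apply, ← hc w]
    rfl

include h1 h2 in
theorem length_words (n : ℕ) :
    Module.length S (((Tor (ModuleCat.{0} S) n).obj
      (ModuleCat.of S (ResidueField S))).obj
      (ModuleCat.of S (ResidueField S))) = (4 ^ n : ℕ) := by
  rw [length_tor_min (fun n => (Fin n → Fin 4)) (DW g) ?_
    ((Algebra.linearMap S (ResidueField S)) ∘ₗ LinearMap.proj (fun i => i.elim0)) ?_ ?_ ?_]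
  · simp
  · intro i
    ext v
    rw [DW_range g h2, LinearMap.mem_ker, DW_ker g h1]
  · refine (residue_surjective).comp (fun r => ⟨fun _ => r, rfl⟩)
  · ext v
    rw [DW_range g h2, LinearMap.mem_ker]
    change _ ↔ residue S (v _) = 0
    rw [residue_eq_zero_iff]
    constructor
    · intro h
      exact h _
    · intro h w
      have : w = (fun i => i.elim0) := funext fun i => i.elim0
      rw [this]
      exact h
  · intro n v w
    rw [DW_apply, h2]
    exact ⟨_, rfl⟩

end Pool.Agent.H407.Gol
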