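import Mathlib
import Pool.Agent.H407.Gol.Words
import Pool.Agent.H407.Gol.Pres
import Pool.Agent.H407.Gol.LES

set_option autoImplicit false
set_option linter.unusedSectionVars false

open CategoryTheory IsLocalRing

namespace Pool.Agent.H407.Gol

section quot

variable {R : Type} [CommRing R] [IsLocalRing R] (I : Ideal R)

theorem quot_local (hI : I ≤ maximalIdeal R) : IsLocalRing (R ⧸ I) := by
  have : Nontrivial (R ⧸ I) := Ideal.Quotient.nontrivial_iff.2 (fun h => by
    rw [h, top_le_iff] at hI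
    exact (maximalIdeal.isMaximal R).ne_top hI)
  exact IsLocalRing.of_surjective' (Ideal.Quotient.mk I) Ideal.Quotient.mk_surjective

theorem mk_mem_max (hI : I ≤ maximalIdeal R) [IsLocalRing (R ⧸ I)] (r : R) :
    Ideal.Quotient.mk I r ∈ maximalIdeal (R ⧸ I) ↔ r ∈ maximalIdeal R := by
  constructor
  · intro h
    by_contra h2
    have h3 : IsUnit r := by
      by_contra h4
      exact h2 ((mem_maximalIdeal r).2 h4)
    exact ((mem_maximalIdeal _).1 h) (h3.map _)
  · intro h
    rw [mem_maximalIdeal, mem_nonunits_iff]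
    rintro ⟨u, hu⟩
    obtain ⟨s, hs⟩ := Ideal.Quotient.mk_surjective (u⁻¹ : (R ⧸ I)ˣ).1
    have h1 : Ideal.Quotient.mk I (r * s) = Ideal.Quotient.mk I 1 := by
      rw [map_mul, hs, ← hu, map_one, Units.mul_inv]
    rw [Ideal.Quotient.eq] at h1
    have h2 : (1 : R) ∈ maximalIdeal R := by
      have h3 := sub_mem (Ideal.mul_mem_right s _ h) (hI h1)
      simpa using h3
    exact (maximalIdeal.isMaximal R).ne_top ((Ideal.eq_top_iff_one _).2 h2)

end quot

open A5

variable {k : Type} [Field k]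

/-- weights -/
def K2 (k : Type) [CommRing k] : Ideal (RR k) where
  carrier := {r | r.c0.c0 = 0 ∧ r.c0.c1 = 0 ∧ r.c0.c2 = 0 ∧ r.c1.c0 = 0 ∧ r.c2.c0 = 0}
  add_mem' := by
    rintro a b ⟨h1, h2, h3, h4, h5⟩ ⟨h1', h2', h3', h4', h5'⟩
    simp only [Set.mem_setOf_eq, add_c0, add_c1, add_c2, h1, h2, h3, h4, h5, h1', h2', h3', h4',
      h5', add_zero, and_self]
  zero_mem' := by simp
  smul_mem' := by
    rintro a b ⟨h1, h2, h3, h4, h5⟩
    simp only [Set.mem_setOf_eq, smul_eq_mul, mul_c0, mul_c1, mul_c2, add_c0, h1, h2, h3, h4, h5,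
      mul_zero, add_zero, and_self]

lemma sq_le_K2 : maximalIdeal (RR k) ^ 2 ≤ K2 k := by
  rw [pow_two, Ideal.mul_le]
  intro a ha b hb
  rw [mem_max] at ha hb
  change _ ∧ _ ∧ _ ∧ _ ∧ _
  simp only [mul_c0, mul_c1, mul_c2, add_c0, ha, hb, mul_zero, zero_mul, add_zero, and_self]

lemma sum_gg (r : Fin 4 → RR k) (h : ∑ a, gg k a * r a ∈ K2 k) : ∀ a, r a ∈ maximalIdeal (RR k) := by
  rw [Fin.sum_univ_four] at h
  obtain ⟨-, h2, h3, h4, h5⟩ := h
  simp only [gg, Matrix.cons_val_zero, Matrix.cons_val_one, Matrix.cons_val, mul_c0, mul_c1,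
    mul_c2, add_c0, add_c1, add_c2, x_c0, x_c1, x_c2, y_c0, y_c1, y_c2, C_c0, C_c1, C_c2,
    zero_c0, one_c0, zero_mul, mul_zero, one_mul, add_zero, zero_add] at h2 h3 h4 h5
  intro a
  rw [mem_max]
  fin_cases a
  · exact h4
  · exact h5
  · exact h2
  · exact h3

lemma sq_le_max : maximalIdeal (RR k) ^ 2 ≤ maximalIdeal (RR k) := Ideal.pow_le_self two_ne_zero

/-- the ring `R/m²` -/
abbrev S2 (k : Type) [Field k] : Type := RR k ⧸ maximalIdeal (RR k) ^ 2

instance S2_local : IsLocalRing (S2 k) := quot_local _ sq_le_max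

/-- Betti numbers of the residue field over `R/m²` -/
theorem betti_S2 (n : ℕ) :
    Module.length (S2 k) (((Tor (ModuleCat.{0} (S2 k)) n).obj
      (ModuleCat.of (S2 k) (ResidueField (S2 k)))).obj
      (ModuleCat.of (S2 k) (ResidueField (S2 k)))) = (4 ^ n : ℕ) := by
  apply length_words (fun a => Ideal.Quotient.mk _ (gg k a))
  · intro c
    choose r hr using fun a => Ideal.Quotient.mk_surjective (c a)
    have e : ∑ a, Ideal.Quotient.mk (maximalIdeal (RR k) ^ 2) (gg k a) * c a =
        Ideal.Quotient.mk _ (∑ a, gg k a * r a) := by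
      rw [map_sum]
      exact Finset.sum_congr rfl fun a _ => by rw [map_mul, hr]
    rw [e, Ideal.Quotient.eq_zero_iff_mem]
    have e2 : (∀ a, c a ∈ maximalIdeal (S2 k)) ↔ ∀ a, r a ∈ maximalIdeal (RR k) :=
      forall_congr' fun a => by rw [← hr a]; exact mk_mem_max _ sq_le_max _
    rw [e2]
    constructor
    · intro h
      exact sum_gg r (sq_le_K2 h)
    · intro h
      refine Ideal.sum_mem _ fun a _ => ?_
      rw [pow_two]
      exact Ideal.mul_mem_mul ((mem_max _).2 (gg_mem a)) (h a)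
  · intro s
    obtain ⟨r, rfl⟩ := Ideal.Quotient.mk_surjective s
    rw [mk_mem_max _ sq_le_max]
    constructor
    · intro h
      rw [max_eq, Ideal.mem_span_range_iff_exists_fun] at h
      obtain ⟨c, hc⟩ := h
      refine ⟨fun a => Ideal.Quotient.mk _ (c a), ?_⟩
      rw [← hc, map_sum]
      exact Finset.sum_congr rfl fun a _ => by rw [map_mul, mul_comm]
    · rintro ⟨c, hc⟩
      rw [← mk_mem_max (maximalIdeal (RR k) ^ 2) sq_le_max, ← hc]
      refine Ideal.sum_mem _ fun a _ => Ideal.mul_mem_right _ _ ?_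
      rw [mk_mem_max _ sq_le_max, mem_max]
      exact gg_mem a

/-- entries of the differential lie in the maximal ideal -/
lemma DR_min (V : Idx → Idx → RR k) (i j : Idx) : (DR k (RR k) V i j).c0.c0 = 0 := by
  rw [DT_apply]
  obtain ⟨f, a, b⟩ := i
  obtain ⟨f', a', b'⟩ := j
  cases f <;> cases f' <;> simp [dd_p, dd_q, dd_r, dd_t]

/-- the residue map as a linear map -/
noncomputable def πR (k : Type) [Field k] : RR k →ₗ[RR k] ResidueField (RR k) :=
  Algebra.linearMap (RR k) (ResidueField (RR k))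

lemma πR_surj : Function.Surjective (πR k) := residue_surjective

lemma πR_ker (r : RR k) : πR k r = 0 ↔ r.c0.c0 = 0 := by
  rw [← mem_max]
  exact residue_eq_zero_iff r

/-- Betti numbers of the residue field over `R` -/
theorem betti_R (n : ℕ) :
    Module.length (RR k) (((Tor (ModuleCat.{0} (RR k)) n).obj
      (ModuleCat.of (RR k) (ResidueField (RR k)))).obj
      (ModuleCat.of (RR k) (ResidueField (RR k)))) = Fintype.card (J n) := by
  apply length_tor_min J (fun i => Dn (k := k) (RR k) i) (fun i => Dn_exact i)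
    (πR k ∘ₗ LinearMap.proj o0) (πR_surj.comp (fun r => ⟨fun _ => r, rfl⟩))
  · ext v
    rw [range_D0, LinearMap.mem_ker, LinearMap.comp_apply, πR_ker]
    rfl
  · intro n v i
    rw [mem_max]
    exact DR_min _ _ _

/-- the linear part of the resolution is injective -/
lemma lin_inj (V : Idx → Idx → RR k)
    (h : ∀ i j, (DR k (RR k) V i j) ∈ K2 k) (i j : Idx) (hij : deg i + deg j ≠ 0) :
    (V i j).c0.c0 = 0 := by
  have key1 : ∀ (f : Fam) (a b : ℕ) (j : Idx), deg (f, a, b) ≠ 0 → (V (f, a, b) j).c0.c0 = 0 := by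
    intro f a b j hd
    obtain ⟨f', a', b'⟩ := j
    cases f
    · rcases b with _ | b
      · rcases a with _ | a
        · exact absurd rfl hd
        · have h1 := (h (.q, a, 0) (f', a', b')).2.2.2.2
          have h2 := (h (.r, a, 0) (f', a', b')).2.2.2.1
          rw [DT_apply] at h1 h2
          cases f' <;> simp [dd_p, dd_q, dd_r, dd_t] at h1 h2 <;> rw [h2] at h1 <;>
            simpa using h1
      · have h1 := (h (.q, a, b) (f', a', b')).2.2.2.1
        rw [DT_apply] at h1
        cases f' <;> simpa [dd_p, dd_q, dd_r, dd_t] using h1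
    · have h1 := (h (.p, a, b) (f', a', b')).2.2.2.1
      rw [DT_apply] at h1
      cases f' <;> simpa [dd_p, dd_q, dd_r, dd_t] using h1
    · have h1 := (h (.p, a, b) (f', a', b')).2.2.2.2
      rw [DT_apply] at h1
      cases f' <;> simpa [dd_p, dd_q, dd_r, dd_t] using h1
    · have h1 := (h (.r, a, b) (f', a', b')).2.2.2.1
      rw [DT_apply] at h1
      cases f' <;> simpa [dd_p, dd_q, dd_r, dd_t] using h1
  have key2 : ∀ (f : Fam) (a b : ℕ) (i : Idx), deg (f, a, b) ≠ 0 → (V i (f, a, b)).c0.c0 = 0 := by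
    intro f a b i hd
    obtain ⟨f', a', b'⟩ := i
    cases f
    · rcases b with _ | b
      · rcases a with _ | a
        · exact absurd rfl hd
        · have h1 := (h (f', a', b') (.q, a, 0)).2.2.1
          have h2 := (h (f', a', b') (.r, a, 0)).2.1
          rw [DT_apply] at h1 h2
          cases f' <;> simp [dd_p, dd_q, dd_r, dd_t, sg] at h1 h2 <;> rw [h2] at h1 <;>
            simpa using h1
      · have h1 := (h (f', a', b') (.q, a, b)).2.1
        rw [DT_apply] at h1
        cases f' <;> simpa [dd_p, dd_q, dd_r, dd_t, sg] using h1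
    · have h1 := (h (f', a', b') (.p, a, b)).2.1
      rw [DT_apply] at h1
      cases f' <;> simpa [dd_p, dd_q, dd_r, dd_t, sg] using h1
    · have h1 := (h (f', a', b') (.p, a, b)).2.2.1
      rw [DT_apply] at h1
      cases f' <;> simpa [dd_p, dd_q, dd_r, dd_t, sg] using h1
    · have h1 := (h (f', a', b') (.r, a, b)).2.1
      rw [DT_apply] at h1
      cases f' <;> simpa [dd_p, dd_q, dd_r, dd_t, sg] using h1
  by_cases hi : deg i = 0
  · exact key2 j.1 j.2.1 j.2.2 i (by
      change deg j ≠ 0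
      omega)
  · exact key1 i.1 i.2.1 i.2.2 j hi

end Pool.Agent.H407.Gol
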