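import Mathlib
import Pool.Agent.H407.Gol.Two

set_option autoImplicit false
set_option linter.unusedSectionVars false

open CategoryTheory IsLocalRing

namespace Pool.Agent.H407.Gol

section len

variable {R : Type} [CommRing R] {M : Type} [AddCommGroup M] [Module R M]

lemma length_rel (A B : Submodule R M) (h : A ≤ B) :
    Module.length R B = Module.length R A + rlen B A := by
  unfold rlen
  exact Module.length_eq_add_of_exact (Submodule.inclusion h) (A.submoduleOf B).mkQ
    (Submodule.inclusion_injective h) (Submodule.mkQ_surjective _) (by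
      rw [LinearMap.exact_iff, Submodule.ker_mkQ]
      ext x
      constructor
      · intro hx
        exact ⟨⟨x.1, hx⟩, rfl⟩
      · rintro ⟨y, rfl⟩
        exact y.2)

lemma length_ker_map (f : M →ₗ[R] M) (V : Submodule R M) :
    Module.length R V = Module.length R ↥(V ⊓ LinearMap.ker f) + Module.length R (V.map f) := by
  refine Module.length_eq_add_of_exact (Submodule.inclusion inf_le_left)
    (LinearMap.restrict f (p := V) (q := V.map f) (fun x hx => ⟨x, hx, rfl⟩))
    (Submodule.inclusion_injective _) ?_ ?_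
  · rintro ⟨_, x, hx, rfl⟩
    exact ⟨⟨x, hx⟩, rfl⟩
  · rw [LinearMap.exact_iff]
    ext x
    constructor
    · intro hx
      exact ⟨⟨x.1, x.2, congrArg Subtype.val hx⟩, rfl⟩
    · rintro ⟨y, rfl⟩
      exact Subtype.ext y.2.2

end len

section VU

variable {k : Type} [CommRing k] {N : Type} [AddCommGroup N] [Module (RR k) N]

lemma length_VU (U : Submodule (RR k) N) (n : ℕ) :
    Module.length (RR k) (VU U n) = Fintype.card (J n) * Module.length (RR k) U := by
  let f : (J n → U) →ₗ[RR k] VU U n := LinearMap.codRestrict _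
    (ex (k := k) N n ∘ₗ LinearMap.pi (fun p => U.subtype ∘ₗ LinearMap.proj p)) (by
      intro v
      refine ⟨fun i j => ?_, ex_sup (k := k) _ _⟩
      change ex (k := k) N n (fun p => (v p).1) i j ∈ U
      rw [ex_apply]
      split_ifs with h
      · exact (v _).2
      · exact U.zero_mem)
  have hf : Function.Bijective f := by
    constructor
    · intro v w h
      have h1 := congrArg Subtype.val h
      have h2 := ex_inj (k := k) n h1
      funext p
      exact Subtype.ext (congrFun h2 p)
    · rintro ⟨V, hV, hV2⟩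
      refine ⟨fun p => ⟨V p.1.1 p.1.2, hV _ _⟩, ?_⟩
      apply Subtype.ext
      exact ex_rs (k := k) n V hV2
  rw [← (LinearEquiv.ofBijective f hf).length_eq, Module.length_pi]
  simp

lemma ex_top_length (n : ℕ) : Module.length (RR k) (VU (⊤ : Submodule (RR k) N) n) =
    Fintype.card (J n) * Module.length (RR k) N := by
  rw [length_VU, Module.length_top]

end VU

open A5

variable {k : Type} [Field k]

/-- the quotient map -/
noncomputable def π2 (k : Type) [Field k] : RR k →ₗ[RR k] S2 k := Algebra.linearMap (RR k) (S2 k)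

lemma π2_apply (r : RR k) : π2 k r = Ideal.Quotient.mk _ r := rfl

lemma π2_surj : Function.Surjective (π2 k) := Ideal.Quotient.mk_surjective

lemma π2_zero (r : RR k) : π2 k r = 0 ↔ r ∈ maximalIdeal (RR k) ^ 2 :=
  Ideal.Quotient.eq_zero_iff_mem

/-- the maximal ideal of `R/m²` as a submodule -/
noncomputable def U2 (k : Type) [Field k] : Submodule (RR k) (S2 k) :=
  Submodule.map (π2 k) (maximalIdeal (RR k))

lemma mem_U2 (r : RR k) : π2 k r ∈ U2 k ↔ r ∈ maximalIdeal (RR k) := by
  constructor
  · rintro ⟨s, hs, hs2⟩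
    have h1 : r - s ∈ maximalIdeal (RR k) ^ 2 := by
      rw [← π2_zero, map_sub, hs2, sub_self]
    have h2 := add_mem (sq_le_max h1) hs
    simpa using h2
  · intro h
    exact ⟨r, h, rfl⟩

lemma smul_U2 (r : RR k) (hr : r ∈ maximalIdeal (RR k)) (s : S2 k) (hs : s ∈ U2 k) :
    r • s = 0 := by
  obtain ⟨t, ht, rfl⟩ := hs
  rw [← map_smul, π2_zero, pow_two]
  exact Ideal.mul_mem_mul hr ht

lemma length_res : Module.length (RR k) (ResidueField (RR k)) = 1 := by
  have : IsSimpleModule (RR k) (ResidueField (RR k)) :=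
    isSimpleModule_iff_quot_maximal.2 ⟨IsLocalRing.maximalIdeal (RR k), inferInstance,
      ⟨LinearEquiv.refl _ _⟩⟩
  exact Module.length_eq_one _ _

lemma length_quot_max : Module.length (RR k) (RR k ⧸ maximalIdeal (RR k)) = 1 := length_res

lemma length_U2 : Module.length (RR k) (U2 k) = 4 := by
  let f : (Fin 4 → RR k) →ₗ[RR k] U2 k := LinearMap.codRestrict _
    (π2 k ∘ₗ (Fintype.linearCombination (RR k) (gg k))) (by
      intro c
      refine ⟨_, ?_, rfl⟩
      rw [Fintype.linearCombination_apply]
      exact Submodule.sum_mem _ fun a _ => Submodule.smul_mem _ _ ((mem_max _).2 (gg_mem a)))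
  have hf : Function.Surjective f := by
    rintro ⟨_, r, hr, rfl⟩
    have hr' : r ∈ maximalIdeal (RR k) := hr
    rw [max_eq, Ideal.mem_span_range_iff_exists_fun] at hr'
    obtain ⟨c, hc⟩ := hr'
    refine ⟨c, ?_⟩
    apply Subtype.ext
    change π2 k (Fintype.linearCombination (RR k) (gg k) c) = π2 k r
    rw [Fintype.linearCombination_apply, ← hc]
    rfl
  have hk : LinearMap.ker f = Submodule.pi Set.univ (fun _ => maximalIdeal (RR k)) := by
    ext c
    rw [Submodule.mem_pi]
    constructor
    · intro h a _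
      have h1 : π2 k (Fintype.linearCombination (RR k) (gg k) c) = 0 := congrArg Subtype.val h
      rw [π2_zero, Fintype.linearCombination_apply] at h1
      refine sum_gg c ?_ a
      have h2 := sq_le_K2 h1
      have h3 : ∑ a, c a • gg k a = ∑ a, gg k a * c a :=
        Finset.sum_congr rfl fun a _ => by rw [smul_eq_mul, mul_comm]
      rwa [h3] at h2
    · intro h
      apply Subtype.ext
      change π2 k (Fintype.linearCombination (RR k) (gg k) c) = 0
      rw [π2_zero, Fintype.linearCombination_apply, pow_two]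
      exact Submodule.sum_mem _ fun a _ =>
        Ideal.mul_mem_mul (h a trivial) ((mem_max _).2 (gg_mem a))
  rw [← (f.quotKerEquivOfSurjective hf).length_eq, hk,
    (Submodule.quotientPi (fun _ : Fin 4 => maximalIdeal (RR k))).length_eq, Module.length_pi_of_fintype]
  refine (Finset.sum_congr rfl fun _ _ => length_quot_max).trans ?_
  simp

lemma length_S2 : Module.length (RR k) (S2 k) = 5 := by
  have h := Module.length_eq_add_of_exact (R := RR k) (U2 k).subtype (U2 k).mkQ
    (Submodule.subtype_injective _) (Submodule.mkQ_surjective _) (by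
      rw [LinearMap.exact_iff, Submodule.ker_mkQ, Submodule.range_subtype])
  rw [h, length_U2]
  have h2 : Module.length (RR k) (S2 k ⧸ U2 k) = 1 := by
    let f : RR k →ₗ[RR k] (S2 k ⧸ U2 k) := (U2 k).mkQ ∘ₗ π2 k
    have hf : Function.Surjective f := (Submodule.mkQ_surjective _).comp π2_surj
    have hk : LinearMap.ker f = maximalIdeal (RR k) := by
      ext r
      rw [← mem_U2]
      exact Submodule.Quotient.mk_eq_zero _
    rw [← (f.quotKerEquivOfSurjective hf).length_eq, hk]
    exact length_quot_max
  rw [h2]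
  norm_num

/-- cycles in positive degree -/
lemma ZU_S2 (n : ℕ) : ZU (⊤ : Submodule (RR k) (S2 k)) (n + 1) = VU (U2 k) (n + 1) := by
  ext V
  constructor
  · rintro ⟨⟨_, h2⟩, h3⟩
    refine ⟨fun i j => ?_, h2⟩
    classical
    choose W hW using fun i j => π2_surj (V i j)
    let W' : Idx → Idx → RR k := fun i j => if deg i + deg j = n + 1 then W i j else 0
    have hW' : (fun i j => π2 k (W' i j)) = V := by
      funext i j
      by_cases h : deg i + deg j = n + 1
      · simp only [W', if_pos h, hW]
      · simp only [W', if_neg h, map_zero, h2 i j h]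
    have h4 := DT_nat x y (uu k) (vv k) (π2 k) W'
    rw [hW'] at h4
    by_cases hij : deg i + deg j = n + 1
    · rw [← hW', mem_U2, mem_max]
      apply lin_inj W'
      · intro i j
        apply sq_le_K2
        rw [← π2_zero]
        have h5 := congrFun (congrFun h4 i) j
        rw [← h5]
        exact congrFun (congrFun h3 i) j
      · omega
    · rw [h2 i j hij]
      exact Submodule.zero_mem _
  · rintro ⟨h1, h2⟩
    refine ⟨⟨fun _ _ => trivial, h2⟩, ?_⟩
    change DR k (S2 k) V = 0
    have hx : ∀ i j, (x : RR k) • V i j = 0 := fun i j =>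
      smul_U2 _ ((mem_max _).2 (by simp)) _ (h1 i j)
    have hy : ∀ i j, (y : RR k) • V i j = 0 := fun i j =>
      smul_U2 _ ((mem_max _).2 (by simp)) _ (h1 i j)
    have hu : ∀ i j, (uu k : RR k) • V i j = 0 := fun i j =>
      smul_U2 _ ((mem_max _).2 (by simp)) _ (h1 i j)
    have hv : ∀ i j, (vv k : RR k) • V i j = 0 := fun i j =>
      smul_U2 _ ((mem_max _).2 (by simp)) _ (h1 i j)
    funext i j
    rw [DT_apply]
    obtain ⟨f, a, b⟩ := i
    obtain ⟨f', a', b'⟩ := j
    cases f <;> cases f' <;>
      simp only [dd_p, dd_q, dd_r, dd_t, mul_smul, hx, hy, hu, hv, smul_zero, neg_zero, add_zero,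
        sub_zero, Pi.zero_apply]

lemma card_ne (n : ℕ) : ((Fintype.card (J n) : ℕ∞)) ≠ ⊤ := ENat.natCast_ne_top _

lemma length_BU_S2 (n : ℕ) :
    Module.length (RR k) (BU (⊤ : Submodule (RR k) (S2 k)) n) = Fintype.card (J (n + 1)) := by
  have h := length_ker_map (DR k (S2 k)) (VU (⊤ : Submodule (RR k) (S2 k)) (n + 1))
  have h2 : (VU (⊤ : Submodule (RR k) (S2 k)) (n + 1) ⊓ LinearMap.ker (DR k (S2 k))) =
    VU (U2 k) (n + 1) := ZU_S2 n
  rw [h2, ex_top_length, length_VU, length_U2, length_S2] at h
  change _ = _ + Module.length (RR k) (BU (⊤ : Submodule (RR k) (S2 k)) n) at h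
  have h3 : ((Fintype.card (J (n + 1)) : ℕ∞)) * 5 =
      Fintype.card (J (n + 1)) * 4 + Fintype.card (J (n + 1)) := by ring
  rw [h3] at h
  have h4 : ((Fintype.card (J (n + 1)) : ℕ∞)) * 4 ≠ ⊤ := by
    exact_mod_cast ENat.natCast_ne_top (Fintype.card (J (n + 1)) * 4)
  exact ((ENat.add_right_injective_of_ne_top h4) h).symm

theorem hl_S2_succ (n : ℕ) : ((Fintype.card (J (n + 1)) : ℕ∞)) * 4 =
    Fintype.card (J (n + 2)) + hl (⊤ : Submodule (RR k) (S2 k)) (n + 1) := by
  have h := length_rel _ _ (BU_le (⊤ : Submodule (RR k) (S2 k)) (n + 1))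
  rw [ZU_S2, length_VU, length_U2, length_BU_S2, ← ZU_S2] at h
  exact h

theorem hl_S2_zero : ((Fintype.card (J 0) : ℕ∞)) * 5 =
    Fintype.card (J 1) + hl (⊤ : Submodule (RR k) (S2 k)) 0 := by
  have h := length_rel _ _ (BU_le (⊤ : Submodule (RR k) (S2 k)) 0)
  have h2 : ZU (⊤ : Submodule (RR k) (S2 k)) 0 = VU ⊤ 0 := by
    ext V
    constructor
    · exact fun h => h.1
    · exact fun h => ⟨h, DT_sup0 _ _ _ _ _ h.2⟩
  rw [h2, ex_top_length, length_S2, length_BU_S2, ← h2] at h
  exact h

lemma card_J0 : Fintype.card (J 0) = 1 := Fintype.card_eq_one_iff.2 ⟨o0, J0⟩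

lemma card_J1 : Fintype.card (J 1) = 4 := by
  have hb : Function.Bijective (fun i : Fin 4 => (![⟨((.q, 0, 0), o), rfl⟩, ⟨((.r, 0, 0), o), rfl⟩,
      ⟨(o, (.q, 0, 0)), rfl⟩, ⟨(o, (.r, 0, 0)), rfl⟩] : Fin 4 → J 1) i) := by
    constructor
    · intro i j h
      have h2 := congrArg Subtype.val h
      fin_cases i <;> fin_cases j <;> first | rfl | (exfalso; simp at h2)
    · rintro ⟨⟨⟨f1, a1, b1⟩, ⟨f2, a2, b2⟩⟩, h⟩
      cases f1 <;> cases f2 <;> simp only [deg] at h <;> try omega
      · have h1 : a1 = 0 := by omega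
        have h2 : b1 = 0 := by omega
        have h3 : a2 = 0 := by omega
        have h4 : b2 = 0 := by omega
        subst h1 h2 h3 h4
        exact ⟨2, rfl⟩
      · have h1 : a1 = 0 := by omega
        have h2 : b1 = 0 := by omega
        have h3 : a2 = 0 := by omega
        have h4 : b2 = 0 := by omega
        subst h1 h2 h3 h4
        exact ⟨3, rfl⟩
      · have h1 : a1 = 0 := by omega
        have h2 : b1 = 0 := by omega
        have h3 : a2 = 0 := by omega
        have h4 : b2 = 0 := by omega
        subst h1 h2 h3 h4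
        exact ⟨0, rfl⟩
      · have h1 : a1 = 0 := by omega
        have h2 : b1 = 0 := by omega
        have h3 : a2 = 0 := by omega
        have h4 : b2 = 0 := by omega
        subst h1 h2 h3 h4
        exact ⟨1, rfl⟩
  have := Fintype.card_of_bijective hb
  simpa using this.symm

end Pool.Agent.H407.Gol
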