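import Mathlib
import Pool.Agent.H407.Gol.LES

set_option autoImplicit false
set_option linter.unusedSectionVars false

namespace Pool.Agent.H407.Gol

open A5

variable {k : Type} [CommRing k] {F : Type} [AddCommGroup F] [Module (RR k) F]

/-- a function supported at one index -/
def sgl (i0 j0 : Idx) (f : F) : Idx → Idx → F := fun i j => if i = i0 ∧ j = j0 then f else 0

lemma sgl_mem (U : Submodule (RR k) F) (i0 j0 : Idx) (f : F) (hf : f ∈ U) (n : ℕ)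
    (h : deg i0 + deg j0 = n) : sgl i0 j0 f ∈ VU U n := by
  refine ⟨fun i j => ?_, fun i j hij => ?_⟩
  · unfold sgl
    split_ifs
    · exact hf
    · exact U.zero_mem
  · unfold sgl
    rw [if_neg]
    rintro ⟨rfl, rfl⟩
    exact hij h

lemma post_sgl {F' : Type} [AddCommGroup F'] [Module (RR k) F'] (E : F →ₗ[RR k] F')
    (i0 j0 : Idx) (f : F) : post E (sgl i0 j0 f) = sgl i0 j0 (E f) := by
  funext i j
  change E (sgl i0 j0 f i j) = _
  unfold sgl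
  split_ifs
  · rfl
  · exact map_zero E

lemma D_tt (f : F) : DR k F (sgl (.t, 0, 0) (.t, 0, 0) f) =
    sgl (.q, 0, 0) (.t, 0, 0) (-((y : RR k) • f)) + sgl (.r, 0, 0) (.t, 0, 0) ((x : RR k) • f) +
    sgl (.t, 0, 0) (.q, 0, 0) (-(vv k • f)) + sgl (.t, 0, 0) (.r, 0, 0) (uu k • f) := by
  funext i j
  rw [DT_apply]
  obtain ⟨f1, a, b⟩ := i
  obtain ⟨f2, a', b'⟩ := j
  cases f1 <;> cases f2 <;>
    simp [dd_p, dd_q, dd_r, dd_t, sgl, sg, -smul_neg, -neg_smul] <;> (try (split_ifs <;> simp))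

lemma D_tr (f : F) : DR k F (sgl (.t, 0, 0) (.r, 0, 0) f) =
    sgl (.q, 0, 0) (.r, 0, 0) (-((y : RR k) • f)) + sgl (.r, 0, 0) (.r, 0, 0) ((x : RR k) • f) +
    sgl (.t, 0, 0) o (vv k • f) := by
  funext i j
  rw [DT_apply]
  obtain ⟨f1, a, b⟩ := i
  obtain ⟨f2, a', b'⟩ := j
  cases f1 <;> cases f2 <;>
    simp [dd_p, dd_q, dd_r, dd_t, sgl, sg, -smul_neg, -neg_smul] <;> (try (split_ifs <;> simp))

lemma D_tq (f : F) : DR k F (sgl (.t, 0, 0) (.q, 0, 0) f) =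
    sgl (.q, 0, 0) (.q, 0, 0) (-((y : RR k) • f)) + sgl (.r, 0, 0) (.q, 0, 0) ((x : RR k) • f) +
    sgl (.t, 0, 0) o (uu k • f) := by
  funext i j
  rw [DT_apply]
  obtain ⟨f1, a, b⟩ := i
  obtain ⟨f2, a', b'⟩ := j
  cases f1 <;> cases f2 <;>
    simp [dd_p, dd_q, dd_r, dd_t, sgl, sg, -smul_neg, -neg_smul] <;> (try (split_ifs <;> simp))

lemma D_to (f : F) : DR k F (sgl (.t, 0, 0) o f) =
    sgl (.q, 0, 0) o (-((y : RR k) • f)) + sgl (.r, 0, 0) o ((x : RR k) • f) := by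
  funext i j
  rw [DT_apply]
  obtain ⟨f1, a, b⟩ := i
  obtain ⟨f2, a', b'⟩ := j
  cases f1 <;> cases f2 <;>
    simp [dd_p, dd_q, dd_r, dd_t, sgl, sg, -smul_neg, -neg_smul] <;> (try (split_ifs <;> simp))

lemma D_qo (f : F) : DR k F (sgl (.q, 0, 0) o f) = sgl o o ((x : RR k) • f) := by
  funext i j
  rw [DT_apply]
  obtain ⟨f1, a, b⟩ := i
  obtain ⟨f2, a', b'⟩ := j
  cases f1 <;> cases f2 <;>
    simp [dd_p, dd_q, dd_r, dd_t, sgl, sg, -smul_neg, -neg_smul] <;> (try (split_ifs <;> simp))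

lemma D_ro (f : F) : DR k F (sgl (.r, 0, 0) o f) = sgl o o ((y : RR k) • f) := by
  funext i j
  rw [DT_apply]
  obtain ⟨f1, a, b⟩ := i
  obtain ⟨f2, a', b'⟩ := j
  cases f1 <;> cases f2 <;>
    simp [dd_p, dd_q, dd_r, dd_t, sgl, sg, -smul_neg, -neg_smul] <;> (try (split_ifs <;> simp))

lemma D_oq (f : F) : DR k F (sgl o (.q, 0, 0) f) = sgl o o (uu k • f) := by
  funext i j
  rw [DT_apply]
  obtain ⟨f1, a, b⟩ := i
  obtain ⟨f2, a', b'⟩ := j
  cases f1 <;> cases f2 <;>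
    simp [dd_p, dd_q, dd_r, dd_t, sgl, sg, -smul_neg, -neg_smul] <;> (try (split_ifs <;> simp))

lemma D_or (f : F) : DR k F (sgl o (.r, 0, 0) f) = sgl o o (vv k • f) := by
  funext i j
  rw [DT_apply]
  obtain ⟨f1, a, b⟩ := i
  obtain ⟨f2, a', b'⟩ := j
  cases f1 <;> cases f2 <;>
    simp [dd_p, dd_q, dd_r, dd_t, sgl, sg, -smul_neg, -neg_smul] <;> (try (split_ifs <;> simp))

end Pool.Agent.H407.Gol
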