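import Mathlib
import Pool.Agent.H407.Gol.Sgl

set_option autoImplicit false
set_option linter.unusedSectionVars false

namespace Pool.Agent.H407.Gol

open A5

variable {k : Type} [CommRing k]

section

variable {F : Type} [AddCommGroup F] [Module (RR k) F]

lemma sgl_zero (i0 j0 : Idx) : sgl i0 j0 (0 : F) = 0 := by
  funext i j
  simp [sgl]

lemma sgl_neg (i0 j0 : Idx) (f : F) : sgl i0 j0 (-f) = -sgl i0 j0 f := by
  funext i j
  simp only [sgl, Pi.neg_apply]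
  split_ifs <;> simp

lemma sgl_sub (i0 j0 : Idx) (f f' : F) : sgl i0 j0 (f - f') = sgl i0 j0 f - sgl i0 j0 f' := by
  funext i j
  simp only [sgl, Pi.sub_apply]
  split_ifs <;> simp

lemma sgl_add (i0 j0 : Idx) (f f' : F) : sgl i0 j0 (f + f') = sgl i0 j0 f + sgl i0 j0 f' := by
  funext i j
  simp only [sgl, Pi.add_apply]
  split_ifs <;> simp

end

variable {F0 F1 F2 F3 : Type} [AddCommGroup F0] [Module (RR k) F0] [AddCommGroup F1]
  [Module (RR k) F1] [AddCommGroup F2] [Module (RR k) F2] [AddCommGroup F3] [Module (RR k) F3]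

lemma yx_smul {F : Type} [AddCommGroup F] [Module (RR k) F] (f : F) :
    (y : RR k) • (x : RR k) • f = 0 := by
  rw [smul_smul, mul_comm, xy, zero_smul]

theorem witness (E0 : F1 →ₗ[RR k] F0) (E1 : F2 →ₗ[RR k] F1) (E2 : F3 →ₗ[RR k] F2)
    (h01 : LinearMap.range E1 = LinearMap.ker E0) (h12 : LinearMap.range E2 = LinearMap.ker E1)
    (hx1 : ∀ f : F1, (x : RR k) • (x : RR k) • f = 0)
    (hx2 : ∀ f : F2, (x : RR k) • (x : RR k) • f = 0)
    (hx3 : ∀ f : F3, (x : RR k) • (x : RR k) • f = 0)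
    (e : F1) (hue : uu k • E0 e = 0) (hve : vv k • E0 e = 0)
    (hA : sgl (.t, 0, 0) (.t, 0, 0) ((x : RR k) • E0 e) ∉ BU (LinearMap.range E0) 4) :
    (∃ z ∈ VU (⊤ : Submodule (RR k) F1) 4, DR k F1 z = 0 ∧
      post E0 z ∉ BU (LinearMap.range E0) 4) ∨
    (∃ z ∈ VU (⊤ : Submodule (RR k) F2) 3, DR k F2 z = 0 ∧
      post E1 z ∉ BU (LinearMap.range E1) 3) ∨
    (∃ z ∈ VU (⊤ : Submodule (RR k) F3) 2, DR k F3 z = 0 ∧
      post E2 z ∉ BU (LinearMap.range E2) 2) := by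
  obtain ⟨p, hp⟩ : uu k • e ∈ LinearMap.range E1 := by
    rw [h01, LinearMap.mem_ker, map_smul, hue]
  obtain ⟨q, hq⟩ : vv k • e ∈ LinearMap.range E1 := by
    rw [h01, LinearMap.mem_ker, map_smul, hve]
  obtain ⟨g, hg⟩ : vv k • p - uu k • q ∈ LinearMap.range E2 := by
    rw [h12, LinearMap.mem_ker, map_sub, map_smul, map_smul, hp, hq, smul_comm, sub_self]
  have hα1 : DR k F1 (sgl (.t, 0, 0) (.t, 0, 0) ((x : RR k) • e)) =
      post E1 (sgl (.t, 0, 0) (.r, 0, 0) ((x : RR k) • p) -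
        sgl (.t, 0, 0) (.q, 0, 0) ((x : RR k) • q)) := by
    rw [D_tt, yx_smul, hx1, map_sub, post_sgl, post_sgl, map_smul, map_smul, hp, hq, neg_zero,
      sgl_zero, sgl_zero, zero_add, zero_add, sgl_neg, smul_comm (vv k), smul_comm (uu k)]
    abel
  have hα2 : DR k F2 (sgl (.t, 0, 0) (.r, 0, 0) ((x : RR k) • p) -
        sgl (.t, 0, 0) (.q, 0, 0) ((x : RR k) • q)) =
      post E2 (sgl (.t, 0, 0) o ((x : RR k) • g)) := by
    rw [map_sub, D_tr, D_tq, yx_smul, yx_smul, hx2, hx2, post_sgl, map_smul, hg, neg_zero,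
      sgl_zero, sgl_zero, sgl_zero, sgl_zero, zero_add, zero_add, zero_add,
      smul_sub, sgl_sub, smul_comm (vv k), smul_comm (uu k)]
  have hα3 : DR k F3 (sgl (.t, 0, 0) o ((x : RR k) • g)) = 0 := by
    rw [D_to, yx_smul, hx3, neg_zero, sgl_zero, sgl_zero, add_zero]
  by_cases c1 : DR k F1 (sgl (.t, 0, 0) (.t, 0, 0) ((x : RR k) • e)) ∈ BU (LinearMap.ker E0) 3
  · left
    obtain ⟨β, hβ, hβ2⟩ := c1
    refine ⟨sgl (.t, 0, 0) (.t, 0, 0) ((x : RR k) • e) - β, ?_, ?_, ?_⟩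
    · exact Submodule.sub_mem _ (sgl_mem _ _ _ _ Submodule.mem_top _ rfl) ⟨fun _ _ => trivial, hβ.2⟩
    · rw [map_sub, hβ2, sub_self]
    · have h1 : post E0 β = 0 := by
        funext i j
        exact hβ.1 i j
      rw [map_sub, h1, sub_zero, post_sgl, map_smul]
      exact hA
  · by_cases c2 : DR k F2 (sgl (.t, 0, 0) (.r, 0, 0) ((x : RR k) • p) -
        sgl (.t, 0, 0) (.q, 0, 0) ((x : RR k) • q)) ∈ BU (LinearMap.ker E1) 2
    · right; left
      obtain ⟨β, hβ, hβ2⟩ := c2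
      refine ⟨sgl (.t, 0, 0) (.r, 0, 0) ((x : RR k) • p) -
        sgl (.t, 0, 0) (.q, 0, 0) ((x : RR k) • q) - β, ?_, ?_, ?_⟩
      · exact Submodule.sub_mem _ (Submodule.sub_mem _ (sgl_mem _ _ _ _ Submodule.mem_top _ rfl)
          (sgl_mem _ _ _ _ Submodule.mem_top _ rfl)) ⟨fun _ _ => trivial, hβ.2⟩
      · rw [map_sub, hβ2, sub_self]
      · have h1 : post E1 β = 0 := by
          funext i j
          exact hβ.1 i j
        rw [map_sub, h1, sub_zero, ← hα1, h01]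
        exact c1
    · right; right
      refine ⟨sgl (.t, 0, 0) o ((x : RR k) • g), sgl_mem _ _ _ _ Submodule.mem_top _ rfl, hα3, ?_⟩
      rw [← hα2, h12]
      exact c2

end Pool.Agent.H407.Gol
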