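import Mathlib
import Pool.Agent.H407.Gol.Wit
import Pool.Agent.H407.Gol.Two2
import Pool.Agent.H407.Gol.MinRes

set_option autoImplicit false
set_option linter.unusedSectionVars false

open CategoryTheory IsLocalRing

namespace Pool.Agent.H407.Gol

open A5

section pi

variable {k : Type} [CommRing k] {M : Type} [AddCommGroup M] [Module (RR k) M]

lemma comp_D (c : ℕ) (V : Idx → Idx → (Fin c → M)) (t : Fin c) :
    DR k M (fun i j => V i j t) = fun i j => DR k (Fin c → M) V i j t :=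
  DT_nat _ _ _ _ (LinearMap.proj t) V

theorem hl_pi (c n : ℕ) : hl (⊤ : Submodule (RR k) (Fin c → M)) n =
    c * hl (⊤ : Submodule (RR k) M) n := by
  let f : ZU (⊤ : Submodule (RR k) (Fin c → M)) n →ₗ[RR k]
      (Fin c → HH (⊤ : Submodule (RR k) M) n) :=
    { toFun := fun V t => Submodule.Quotient.mk ⟨fun i j => V.1 i j t,
        ⟨fun _ _ => trivial, fun i j hij => congrFun (V.2.1.2 i j hij) t⟩, by
          have h := V.2.2
          change DR k _ V.1 = 0 at h
          change DR k M _ = 0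
          rw [comp_D, h]
          rfl⟩
      map_add' := fun V W => rfl
      map_smul' := fun a V => rfl }
  have hf : Function.Surjective f := by
    intro w
    choose W hW using fun t => Submodule.Quotient.mk_surjective _ (w t)
    refine ⟨⟨fun i j t => (W t).1 i j, ⟨fun _ _ => trivial, fun i j hij => ?_⟩, ?_⟩, ?_⟩
    · funext t
      exact (W t).2.1.2 i j hij
    · change DR k _ _ = 0
      funext i j t
      have h := comp_D (k := k) c (fun i j t => (W t).1 i j) t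
      have h2 := congrFun (congrFun h i) j
      rw [← h2]
      exact congrFun (congrFun (W t).2.2 i) j
    · funext t
      exact hW t
  have hk : LinearMap.ker f = (BU (⊤ : Submodule (RR k) (Fin c → M)) n).submoduleOf
      (ZU (⊤ : Submodule (RR k) (Fin c → M)) n) := by
    ext V
    constructor
    · intro h
      have h1 : ∀ t, ∃ W ∈ VU (⊤ : Submodule (RR k) M) (n + 1),
          DR k M W = fun i j => V.1 i j t := by
        intro t
        have h2 := congrFun h t
        exact (Submodule.Quotient.mk_eq_zero _).1 h2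
      choose W hW hW2 using h1
      refine ⟨fun i j t => W t i j, ⟨fun _ _ => trivial, fun i j hij => ?_⟩, ?_⟩
      · funext t
        exact (hW t).2 i j hij
      · funext i j t
        have h := comp_D (k := k) c (fun i j t => W t i j) t
        have h2 := congrFun (congrFun h i) j
        have h3 := congrFun (congrFun (hW2 t) i) j
        exact h2.symm.trans h3
    · rintro ⟨W, hW, hW2⟩
      funext t
      refine (Submodule.Quotient.mk_eq_zero _).2 ⟨fun i j => W i j t,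
        ⟨fun _ _ => trivial, fun i j hij => congrFun (hW.2 i j hij) t⟩, ?_⟩
      rw [comp_D, hW2]
      rfl
  unfold hl rlen
  rw [← hk, (f.quotKerEquivOfSurjective hf).length_eq, Module.length_pi_of_fintype]
  simp only [Finset.sum_const, Finset.card_univ, Fintype.card_fin, nsmul_eq_mul]

/-- lower bound for `H_0` -/
theorem hl_lower (U : Submodule (RR k) M) {K : Type} [AddCommGroup K] [Module (RR k) K]
    (θ : U →ₗ[RR k] K) (hθ : Function.Surjective θ)
    (hx : ∀ a : K, (x : RR k) • a = 0) (hy : ∀ a : K, (y : RR k) • a = 0)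
    (hu : ∀ a : K, uu k • a = 0) (hv : ∀ a : K, vv k • a = 0) :
    Module.length (RR k) K ≤ hl U 0 := by
  let f0 : ZU U 0 →ₗ[RR k] K :=
    θ ∘ₗ LinearMap.codRestrict U ((LinearMap.proj (φ := fun _ : Idx => M) o ∘ₗ
      LinearMap.proj (φ := fun _ : Idx => (Idx → M)) o) ∘ₗ (ZU U 0).subtype)
      (fun V => V.2.1.1 o o)
  have hf0 : ∀ V : ZU U 0, f0 V = θ ⟨V.1 o o, V.2.1.1 o o⟩ := fun _ => rfl
  have hle : (BU U 0).submoduleOf (ZU U 0) ≤ LinearMap.ker f0 := by
    rintro ⟨_, hV⟩ ⟨W, hW, rfl⟩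
    rw [LinearMap.mem_ker, hf0]
    have e : (⟨DR k M W o o, hV.1.1 o o⟩ : U) =
        (x : RR k) • ⟨W (.q, 0, 0) o, hW.1 _ _⟩ + (y : RR k) • ⟨W (.r, 0, 0) o, hW.1 _ _⟩ +
        (uu k • ⟨W o (.q, 0, 0), hW.1 _ _⟩ + vv k • ⟨W o (.r, 0, 0), hW.1 _ _⟩) := by
      apply Subtype.ext
      change DR k M W o o = _
      rw [DT_apply, dd_p, dd_p]
      simp only [sg, one_smul]
      rfl
    change θ ⟨DR k M W o o, hV.1.1 o o⟩ = 0
    rw [e, map_add, map_add, map_add, map_smul, map_smul, map_smul, map_smul, hx, hy, hu, hv,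
      add_zero, add_zero]
  have hs : Function.Surjective ((Submodule.liftQ _ f0 hle)) := by
    intro a
    obtain ⟨s, hs⟩ := hθ a
    refine ⟨Submodule.Quotient.mk ⟨sgl o o s.1, sgl_mem U o o _ s.2 0 rfl,
      DT_sup0 _ _ _ _ _ (sgl_mem U o o _ s.2 0 rfl).2⟩, ?_⟩
    rw [Submodule.liftQ_apply, hf0]
    rw [← hs]
    congr 1
  exact Module.length_le_of_surjective _ hs

/-- homology of a module killed by the maximal ideal -/
theorem hl_killed (hx : ∀ a : M, (x : RR k) • a = 0) (hy : ∀ a : M, (y : RR k) • a = 0)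
    (hu : ∀ a : M, uu k • a = 0) (hv : ∀ a : M, vv k • a = 0) (n : ℕ) :
    hl (⊤ : Submodule (RR k) M) n = Fintype.card (J n) * Module.length (RR k) M := by
  have hD : ∀ V : Idx → Idx → M, DR k M V = 0 := by
    intro V
    funext i j
    rw [DT_apply]
    obtain ⟨f, a, b⟩ := i
    obtain ⟨f', a', b'⟩ := j
    cases f <;> cases f' <;>
      simp only [dd_p, dd_q, dd_r, dd_t, mul_smul, hx, hy, hu, hv, smul_zero, neg_zero, add_zero,
        sub_zero, Pi.zero_apply]
  have hB : BU (⊤ : Submodule (RR k) M) n = ⊥ := by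
    rw [eq_bot_iff]
    rintro _ ⟨W, _, rfl⟩
    exact hD W
  have hZ : ZU (⊤ : Submodule (RR k) M) n = VU ⊤ n := by
    ext V
    exact ⟨fun h => h.1, fun h => ⟨h, hD V⟩⟩
  have h := length_rel _ _ (BU_le (⊤ : Submodule (RR k) M) n)
  rw [hB, Module.length_bot, zero_add, ← hB, hZ, ex_top_length, ← hZ] at h
  exact h.symm

end pi

variable {k : Type} [Field k]

/-- weights -/
def K3 (k : Type) [CommRing k] : Ideal (RR k) where
  carrier := {r | (r.c0.c0 = 0 ∧ r.c0.c1 = 0 ∧ r.c0.c2 = 0 ∧ r.c1.c0 = 0 ∧ r.c2.c0 = 0) ∧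
    r.c1.c1 = 0 ∧ r.c1.c2 = 0 ∧ r.c2.c1 = 0 ∧ r.c2.c2 = 0}
  add_mem' := by
    rintro a b ⟨⟨h1, h2, h3, h4, h5⟩, h6, h7, h8, h9⟩ ⟨⟨h1', h2', h3', h4', h5'⟩, h6', h7', h8', h9'⟩
    refine ⟨⟨?_, ?_, ?_, ?_, ?_⟩, ?_, ?_, ?_, ?_⟩ <;>
      simp only [add_c0, add_c1, add_c2, h1, h2, h3, h4, h5, h1', h2', h3', h4', h6, h7, h8, h9,
        h5', h6', h7', h8', h9', add_zero]
  zero_mem' := by simp
  smul_mem' := by
    rintro a b ⟨⟨h1, h2, h3, h4, h5⟩, h6, h7, h8, h9⟩
    refine ⟨⟨?_, ?_, ?_, ?_, ?_⟩, ?_, ?_, ?_, ?_⟩ <;>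
      simp only [smul_eq_mul, mul_c0, mul_c1, mul_c2, add_c0, add_c1, add_c2, h1, h2, h3, h4, h5,
        h6, h7, h8, h9, mul_zero, add_zero]

lemma cube_le_K3 : maximalIdeal (RR k) ^ 3 ≤ K3 k := by
  rw [pow_succ, Ideal.mul_le]
  intro a ha b hb
  obtain ⟨h1, h2, h3, h4, h5⟩ := sq_le_K2 ha
  rw [mem_max] at hb
  refine ⟨⟨?_, ?_, ?_, ?_, ?_⟩, ?_, ?_, ?_, ?_⟩ <;>
    simp only [mul_c0, mul_c1, mul_c2, add_c0, add_c1, add_c2, h1, h2, h3, h4, h5, hb, mul_zero,
      zero_mul, add_zero]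

/-- the ring `R/m³` -/
abbrev S3 (k : Type) [Field k] : Type := RR k ⧸ maximalIdeal (RR k) ^ 3

lemma cube_le_max : maximalIdeal (RR k) ^ 3 ≤ maximalIdeal (RR k) :=
  Ideal.pow_le_self three_ne_zero

instance S3_local : IsLocalRing (S3 k) := quot_local _ cube_le_max

/-- the quotient map -/
noncomputable def π3 (k : Type) [Field k] : RR k →ₗ[RR k] S3 k := Algebra.linearMap (RR k) (S3 k)

lemma π3_surj : Function.Surjective (π3 k) := Ideal.Quotient.mk_surjective

lemma π3_zero (r : RR k) : π3 k r = 0 ↔ r ∈ maximalIdeal (RR k) ^ 3 :=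
  Ideal.Quotient.eq_zero_iff_mem

lemma S3_smul (r : RR k) (s : S3 k) : r • s = Ideal.Quotient.mk _ r * s := rfl

lemma mem3 {a b c : RR k} (ha : a.c0.c0 = 0) (hb : b.c0.c0 = 0) (hc : c.c0.c0 = 0) :
    a * b * c ∈ maximalIdeal (RR k) ^ 3 := by
  rw [pow_succ, pow_two]
  exact Ideal.mul_mem_mul (Ideal.mul_mem_mul ((mem_max _).2 ha) ((mem_max _).2 hb))
    ((mem_max _).2 hc)

lemma xx_S3 (s : S3 k) : (x : RR k) • (x : RR k) • s = 0 := by
  rw [smul_smul, xx, S3_smul, Ideal.Quotient.eq_zero_iff_mem.2 (mem3 (by simp) (by simp) (by simp)),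
    zero_mul]

/-- Claim A: the product class is nonzero -/
theorem claimA {F : Type} [AddCommGroup F] [Module (RR k) F] (U : Submodule (RR k) F)
    (pr : F →ₗ[RR k] S3 k) (f : F) (hf : pr f = π3 k ((x : RR k) * uu k)) :
    sgl (.t, 0, 0) (.t, 0, 0) f ∉ BU U 4 := by
  rintro ⟨W, ⟨_, h2⟩, hW⟩
  -- pass to S3
  have h3 : DR k (S3 k) (fun i j => pr (W i j)) = fun i j =>
      pr (sgl (.t, 0, 0) (.t, 0, 0) f i j) := by
    rw [← hW]
    exact DT_nat _ _ _ _ pr W
  choose V hV using fun i j => π3_surj (pr (W i j))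
  have h4 := DT_nat x y (uu k) (vv k) (π3 k) V
  have h5 : (fun i j => (π3 k) (V i j)) = fun i j => pr (W i j) := by
    funext i j
    exact hV i j
  rw [h5] at h4
  have h6 : ∀ i j, DR k (RR k) V i j - (sgl (.t, 0, 0) (.t, 0, 0) ((x : RR k) * uu k) i j) ∈ K3 k := by
    intro i j
    apply cube_le_K3
    rw [← π3_zero, map_sub, sub_eq_zero]
    have h7 := congrFun (congrFun (h4.symm.trans h3) i) j
    refine (show _ = _ from h7).trans ?_
    unfold sgl
    split_ifs
    · exact hf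
    · rw [map_zero, map_zero]
  have a1 := (h6 (.t, 0, 0) (.t, 0, 0)).2.1
  have a2 := (h6 (.t, 0, 0) (.p, 0, 1)).2.2.1
  have a3 := (h6 (.p, 0, 1) (.t, 0, 0)).2.2.2.1
  have a4 := (h6 (.p, 0, 1) (.p, 0, 1)).2.2.2.2
  rw [DT_apply] at a1 a2 a3 a4
  simp [dd_p, dd_t, sgl, sg] at a1 a2 a3 a4
  have : (1 : k) = 0 := by linear_combination a2 - a1 + a3 - a4
  exact one_ne_zero this

end Pool.Agent.H407.Gol
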