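import Mathlib
import Pool.Agent.H407.Gol.Three

set_option autoImplicit false
set_option linter.unusedSectionVars false

open CategoryTheory IsLocalRing

namespace Pool.Agent.H407.Gol

open A5

variable {k : Type} [Field k]

instance : IsArtinianRing (RR k) :=
  (isArtinianRing_iff_isNilpotent_maximalIdeal (RR k)).2 max_nilp

lemma S3_killed (a : ResidueField (S3 k)) (r : RR k) (hr : r.c0.c0 = 0) : r • a = 0 := by
  obtain ⟨s, rfl⟩ := residue_surjective a
  have h1 : r • residue (S3 k) s = residue (S3 k) (r • s) := rfl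
  rw [h1, residue_eq_zero_iff, S3_smul]
  exact Ideal.mul_mem_right _ _ ((mk_mem_max _ cube_le_max r).2 ((mem_max r).2 hr))

lemma length_resS3 : Module.length (RR k) (ResidueField (S3 k)) = 1 := by
  let f : RR k →ₗ[RR k] ResidueField (S3 k) := Algebra.linearMap _ _
  have hf : Function.Surjective f := by
    intro a
    obtain ⟨s, rfl⟩ := residue_surjective a
    obtain ⟨r, rfl⟩ := Ideal.Quotient.mk_surjective s
    exact ⟨r, rfl⟩
  have hk : LinearMap.ker f = maximalIdeal (RR k) := by
    ext r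
    have h1 : f r = residue (S3 k) (Ideal.Quotient.mk _ r) := rfl
    rw [LinearMap.mem_ker, h1, residue_eq_zero_iff, mk_mem_max _ cube_le_max]
  rw [← (f.quotKerEquivOfSurjective hf).length_eq, hk]
  exact length_quot_max

lemma hl_ne_top {M : Type} [AddCommGroup M] [Module (RR k) M] [Module.Finite (RR k) M] (n : ℕ) :
    hl (⊤ : Submodule (RR k) M) n ≠ ⊤ := by
  have h := length_rel _ _ (BU_le (⊤ : Submodule (RR k) M) n)
  have h1 : Module.length (RR k) (ZU (⊤ : Submodule (RR k) M) n) ≤
      Module.length (RR k) (VU (⊤ : Submodule (RR k) M) n) :=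
    Module.length_le_of_injective (Submodule.inclusion inf_le_left)
      (Submodule.inclusion_injective _)
  rw [ex_top_length] at h1
  have h2 : Module.length (RR k) M ≠ ⊤ := Module.length_ne_top
  have h3 : (Fintype.card (J n) : ℕ∞) * Module.length (RR k) M ≠ ⊤ := by
    obtain ⟨m, hm⟩ := ENat.ne_top_iff_exists.1 h2
    rw [← hm]
    exact_mod_cast ENat.natCast_ne_top (Fintype.card (J n) * m)
  intro h4
  apply h3
  rw [eq_top_iff]
  refine le_trans ?_ h1
  rw [h]
  exact (le_of_eq h4.symm).trans le_add_self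

/-- the chain of inequalities -/
theorem chain (k : Type) [Field k] : ∃ c : ℕ → ℕ,
    (∀ n, Module.length (S3 k) (((Tor (ModuleCat.{0} (S3 k)) n).obj
      (ModuleCat.of (S3 k) (ResidueField (S3 k)))).obj
      (ModuleCat.of (S3 k) (ResidueField (S3 k)))) = c n) ∧
    (c 5 : ℕ∞) + 1 ≤ Fintype.card (J 5) + c 0 * hl (⊤ : Submodule (RR k) (S3 k)) 4
      + c 1 * hl (⊤ : Submodule (RR k) (S3 k)) 3 + c 2 * hl (⊤ : Submodule (RR k) (S3 k)) 2
      + c 3 * hl (⊤ : Submodule (RR k) (S3 k)) 1 := by
  obtain ⟨c, E, hc0, hex, h0, hmin⟩ := exists_min_res (S3 k)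
  have hpos : 0 < c 0 := by omega
  let z0 : Fin (c 0) := ⟨0, hpos⟩
  have huniq : ∀ i : Fin (c 0), i = z0 := by
    intro i
    apply Fin.ext
    have := i.2
    change (i : ℕ) = 0
    omega
  refine ⟨c, ?_, ?_⟩
  · intro n
    rw [length_tor_min (fun n => Fin (c n)) E hex
      (Algebra.linearMap (S3 k) (ResidueField (S3 k)) ∘ₗ LinearMap.proj z0)
      (residue_surjective.comp (fun r => ⟨fun _ => r, rfl⟩))]
    · simp
    · ext v
      rw [h0, LinearMap.mem_ker]
      change _ ↔ residue (S3 k) (v z0) = 0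
      rw [residue_eq_zero_iff]
      exact ⟨fun h => h z0, fun h i => by rw [huniq i]; exact h⟩
    · intro n v i
      cases n with
      | zero => exact (h0 _).1 ⟨v, rfl⟩ i
      | succ n =>
        refine hmin n _ ?_ i
        have : E (n + 1) v ∈ LinearMap.ker (E n) := by rw [← hex]; exact ⟨v, rfl⟩
        exact this
  · -- the modules over `R`
    let ER : ∀ j, (Fin (c (j + 1)) → S3 k) →ₗ[RR k] (Fin (c j) → S3 k) := fun j =>
      (E j).restrictScalars (RR k)
    let π : (Fin (c 0) → S3 k) →ₗ[RR k] ResidueField (S3 k) :=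
      (Algebra.linearMap (S3 k) (ResidueField (S3 k)) ∘ₗ LinearMap.proj z0).restrictScalars (RR k)
    have hexR : ∀ j, LinearMap.range (ER (j + 1)) = LinearMap.ker (ER j) := by
      intro j
      ext v
      constructor
      · rintro ⟨w, rfl⟩
        have : E (j + 1) w ∈ LinearMap.ker (E j) := by rw [← hex]; exact ⟨w, rfl⟩
        exact this
      · intro h
        have : v ∈ LinearMap.range (E (j + 1)) := by rw [hex]; exact h
        obtain ⟨w, hw⟩ := this
        exact ⟨w, hw⟩
    have hπker : LinearMap.range (ER 0) = LinearMap.ker π := by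
      ext v
      have h1 : v ∈ LinearMap.range (ER 0) ↔ v ∈ LinearMap.range (E 0) := Iff.rfl
      rw [h1, h0]
      change _ ↔ residue (S3 k) (v z0) = 0
      rw [residue_eq_zero_iff]
      exact ⟨fun h => h z0, fun h i => by rw [huniq i]; exact h⟩
    have hπr : LinearMap.range π = ⊤ := by
      rw [LinearMap.range_eq_top]
      exact residue_surjective.comp (fun r => ⟨fun _ => r, rfl⟩)
    have hxx : ∀ (c : ℕ) (f : Fin c → S3 k), (x : RR k) • (x : RR k) • f = 0 := by
      intro c f
      funext i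
      exact xx_S3 (f i)
    -- the element `e`
    obtain ⟨e, he⟩ : (fun _ : Fin (c 0) => π3 k (uu k)) ∈ LinearMap.range (E 0) := by
      rw [h0]
      intro i
      exact (mk_mem_max _ cube_le_max _).2 ((mem_max _).2 (by simp))
    have heR : ER 0 e = fun _ : Fin (c 0) => π3 k (uu k) := he
    have hwit := witness (ER 0) (ER 1) (ER 2) (hexR 0) (hexR 1) (hxx _) (hxx _) (hxx _) e
      (by
        rw [heR]
        funext i
        change uu k • π3 k (uu k) = 0
        rw [← map_smul, π3_zero, smul_eq_mul, rel_uu]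
        exact mem3 (by simp) (by simp) (by simp))
      (by
        rw [heR]
        funext i
        change vv k • π3 k (uu k) = 0
        rw [← map_smul, smul_eq_mul, mul_comm, rel_uv, map_zero])
      (claimA _ (LinearMap.proj z0) _ (by
        rw [heR]
        change (x : RR k) • π3 k (uu k) = _
        rw [← map_smul, smul_eq_mul]))
    -- the inequalities
    have hpi : ∀ j n, hl (⊤ : Submodule (RR k) (Fin (c j) → S3 k)) n ≤
        c j * hl (⊤ : Submodule (RR k) (S3 k)) n := fun j n => (hl_pi (c j) n).le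
    have I0 := les_ineq π 4 0 (c 0 * hl (⊤ : Submodule (RR k) (S3 k)) 4) (Or.inl rfl)
      (Or.inl (hpi 0 4))
    have hK5 : hl (LinearMap.range π) (4 + 1) = Fintype.card (J 5) := by
      rw [hπr, hl_killed (fun a => S3_killed a _ (by simp)) (fun a => S3_killed a _ (by simp))
        (fun a => S3_killed a _ (by simp)) (fun a => S3_killed a _ (by simp)), length_resS3,
        mul_one]
    rw [hK5, ← hπker, add_zero] at I0
    have I4 : hl (LinearMap.range (ER 4)) 0 ≤ hl (LinearMap.range (ER 3)) 1 := by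
      have h := les_ineq (ER 3) 0 0 0 (Or.inl rfl) (Or.inr (by
        rintro V ⟨hV1, hV2⟩
        have hm : ∀ i, V o o i ∈ maximalIdeal (S3 k) := hmin 3 _ (hV1 o o)
        have h1 : ∀ i, ∃ a : Fin 4 → S3 k, V o o i = (x : RR k) • a 0 + (y : RR k) • a 1 +
            uu k • a 2 + vv k • a 3 := by
          intro i
          obtain ⟨r, hr⟩ := Ideal.Quotient.mk_surjective (V o o i)
          have h2 := hm i
          rw [← hr, mk_mem_max _ cube_le_max, max_eq, Ideal.mem_span_range_iff_exists_fun] at h2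
          obtain ⟨a, ha⟩ := h2
          refine ⟨fun j => Ideal.Quotient.mk _ (a j), ?_⟩
          rw [← hr, ← ha, Fin.sum_univ_four]
          simp only [S3_smul, ← map_mul, ← map_add]
          congr 1
          simp only [gg, Matrix.cons_val_zero, Matrix.cons_val_one, Matrix.cons_val]
          ring
        choose a ha using h1
        have hV : V = sgl o o (V o o) := by
          funext i j
          unfold sgl
          split_ifs with h
          · rw [h.1, h.2]
          · apply hV2
            intro h3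
            apply h
            have h4 := J0 ⟨(i, j), h3⟩
            have h5 := congrArg Subtype.val h4
            exact ⟨congrArg Prod.fst h5, congrArg Prod.snd h5⟩
        refine ⟨sgl (.q, 0, 0) o (fun i => a i 0) + sgl (.r, 0, 0) o (fun i => a i 1) +
          sgl o (.q, 0, 0) (fun i => a i 2) + sgl o (.r, 0, 0) (fun i => a i 3), ?_, ?_⟩
        · exact Submodule.add_mem _ (Submodule.add_mem _ (Submodule.add_mem _
            (sgl_mem _ _ _ _ Submodule.mem_top _ rfl) (sgl_mem _ _ _ _ Submodule.mem_top _ rfl))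
            (sgl_mem _ _ _ _ Submodule.mem_top _ rfl)) (sgl_mem _ _ _ _ Submodule.mem_top _ rfl)
        · rw [map_add, map_add, map_add, D_qo, D_ro, D_oq, D_or, ← sgl_add, ← sgl_add, ← sgl_add]
          conv_rhs => rw [hV]
          congr 1
          funext i
          exact (ha i).symm))
      rw [add_zero, add_zero, ← hexR 3] at h
      exact h
    have I5 : (c 5 : ℕ∞) ≤ hl (LinearMap.range (ER 4)) 0 := by
      -- the map to `K^{c 5}`
      let ρ : (Fin (c 5) → S3 k) →ₗ[RR k] (Fin (c 5) → ResidueField (S3 k)) :=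
        LinearMap.pi (fun i => ((Algebra.linearMap (S3 k) (ResidueField (S3 k))).restrictScalars
          (RR k)) ∘ₗ LinearMap.proj i)
      have hρs : Function.Surjective ρ := by
        intro a
        choose b hb using fun i => residue_surjective (a i)
        exact ⟨b, funext hb⟩
      have hle : LinearMap.ker (ER 4) ≤ LinearMap.ker ρ := by
        intro v hv
        funext i
        exact (residue_eq_zero_iff _).2 (hmin 4 v hv i)
      let θ : LinearMap.range (ER 4) →ₗ[RR k] (Fin (c 5) → ResidueField (S3 k)) :=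
        (LinearMap.ker (ER 4)).liftQ ρ hle ∘ₗ (ER 4).quotKerEquivRange.symm.toLinearMap
      have hθ : Function.Surjective θ := by
        intro a
        obtain ⟨b, hb⟩ := hρs a
        refine ⟨(ER 4).quotKerEquivRange (Submodule.Quotient.mk b), ?_⟩
        change (LinearMap.ker (ER 4)).liftQ ρ hle ((ER 4).quotKerEquivRange.symm
          ((ER 4).quotKerEquivRange (Submodule.Quotient.mk b))) = a
        rw [LinearEquiv.symm_apply_apply]
        exact hb
      have h := hl_lower (LinearMap.range (ER 4)) θ hθ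
        (fun a => funext fun i => S3_killed (a i) _ (by simp))
        (fun a => funext fun i => S3_killed (a i) _ (by simp))
        (fun a => funext fun i => S3_killed (a i) _ (by simp))
        (fun a => funext fun i => S3_killed (a i) _ (by simp))
      rw [Module.length_pi, length_resS3] at h
      simpa using h
    rcases hwit with hw | hw | hw
    · have I1 := les_ineq (ER 0) 3 1 (c 1 * hl (⊤ : Submodule (RR k) (S3 k)) 3)
        (Or.inr ⟨rfl, hw⟩) (Or.inl (hpi 1 3))
      have I2 := les_ineq (ER 1) 2 0 (c 2 * hl (⊤ : Submodule (RR k) (S3 k)) 2)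
        (Or.inl rfl) (Or.inl (hpi 2 2))
      have I3 := les_ineq (ER 2) 1 0 (c 3 * hl (⊤ : Submodule (RR k) (S3 k)) 1)
        (Or.inl rfl) (Or.inl (hpi 3 1))
      rw [← hexR 0] at I1
      rw [← hexR 1, add_zero] at I2
      rw [← hexR 2, add_zero] at I3
      calc (c 5 : ℕ∞) + 1 ≤ hl (LinearMap.range (ER 3)) 1 + 1 := by gcongr; exact I5.trans I4
        _ ≤ (hl (LinearMap.range (ER 2)) (1 + 1) + c 3 * hl (⊤ : Submodule (RR k) (S3 k)) 1) + 1 := by
            gcongr
        _ = hl (LinearMap.range (ER 2)) 2 + (c 3 * hl (⊤ : Submodule (RR k) (S3 k)) 1 + 1) := by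
            rw [add_assoc]
        _ ≤ (hl (LinearMap.range (ER 1)) (2 + 1) + c 2 * hl (⊤ : Submodule (RR k) (S3 k)) 2) +
            (c 3 * hl (⊤ : Submodule (RR k) (S3 k)) 1 + 1) := by gcongr
        _ = (hl (LinearMap.range (ER 1)) 3 + 1) + (c 2 * hl (⊤ : Submodule (RR k) (S3 k)) 2 +
            c 3 * hl (⊤ : Submodule (RR k) (S3 k)) 1) := by ring
        _ ≤ (hl (LinearMap.range (ER 0)) (3 + 1) + c 1 * hl (⊤ : Submodule (RR k) (S3 k)) 3) +
            (c 2 * hl (⊤ : Submodule (RR k) (S3 k)) 2 +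
            c 3 * hl (⊤ : Submodule (RR k) (S3 k)) 1) := by gcongr
        _ ≤ ((Fintype.card (J 5) + c 0 * hl (⊤ : Submodule (RR k) (S3 k)) 4) +
            c 1 * hl (⊤ : Submodule (RR k) (S3 k)) 3) +
            (c 2 * hl (⊤ : Submodule (RR k) (S3 k)) 2 +
            c 3 * hl (⊤ : Submodule (RR k) (S3 k)) 1) := by gcongr
        _ = _ := by ring
    · have I1 := les_ineq (ER 0) 3 0 (c 1 * hl (⊤ : Submodule (RR k) (S3 k)) 3)
        (Or.inl rfl) (Or.inl (hpi 1 3))
      have I2 := les_ineq (ER 1) 2 1 (c 2 * hl (⊤ : Submodule (RR k) (S3 k)) 2)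
        (Or.inr ⟨rfl, hw⟩) (Or.inl (hpi 2 2))
      have I3 := les_ineq (ER 2) 1 0 (c 3 * hl (⊤ : Submodule (RR k) (S3 k)) 1)
        (Or.inl rfl) (Or.inl (hpi 3 1))
      rw [← hexR 0, add_zero] at I1
      rw [← hexR 1] at I2
      rw [← hexR 2, add_zero] at I3
      calc (c 5 : ℕ∞) + 1 ≤ hl (LinearMap.range (ER 3)) 1 + 1 := by gcongr; exact I5.trans I4
        _ ≤ (hl (LinearMap.range (ER 2)) (1 + 1) + c 3 * hl (⊤ : Submodule (RR k) (S3 k)) 1) + 1 := by
            gcongr
        _ = (hl (LinearMap.range (ER 2)) 2 + 1) + c 3 * hl (⊤ : Submodule (RR k) (S3 k)) 1 := by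
            ring
        _ ≤ (hl (LinearMap.range (ER 1)) (2 + 1) + c 2 * hl (⊤ : Submodule (RR k) (S3 k)) 2) +
            c 3 * hl (⊤ : Submodule (RR k) (S3 k)) 1 := by gcongr
        _ = hl (LinearMap.range (ER 1)) 3 + (c 2 * hl (⊤ : Submodule (RR k) (S3 k)) 2 +
            c 3 * hl (⊤ : Submodule (RR k) (S3 k)) 1) := by ring
        _ ≤ (hl (LinearMap.range (ER 0)) (3 + 1) + c 1 * hl (⊤ : Submodule (RR k) (S3 k)) 3) +
            (c 2 * hl (⊤ : Submodule (RR k) (S3 k)) 2 +
            c 3 * hl (⊤ : Submodule (RR k) (S3 k)) 1) := by gcongr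
        _ ≤ ((Fintype.card (J 5) + c 0 * hl (⊤ : Submodule (RR k) (S3 k)) 4) +
            c 1 * hl (⊤ : Submodule (RR k) (S3 k)) 3) +
            (c 2 * hl (⊤ : Submodule (RR k) (S3 k)) 2 +
            c 3 * hl (⊤ : Submodule (RR k) (S3 k)) 1) := by gcongr
        _ = _ := by ring
    · have I1 := les_ineq (ER 0) 3 0 (c 1 * hl (⊤ : Submodule (RR k) (S3 k)) 3)
        (Or.inl rfl) (Or.inl (hpi 1 3))
      have I2 := les_ineq (ER 1) 2 0 (c 2 * hl (⊤ : Submodule (RR k) (S3 k)) 2)
        (Or.inl rfl) (Or.inl (hpi 2 2))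
      have I3 := les_ineq (ER 2) 1 1 (c 3 * hl (⊤ : Submodule (RR k) (S3 k)) 1)
        (Or.inr ⟨rfl, hw⟩) (Or.inl (hpi 3 1))
      rw [← hexR 0, add_zero] at I1
      rw [← hexR 1, add_zero] at I2
      rw [← hexR 2] at I3
      calc (c 5 : ℕ∞) + 1 ≤ hl (LinearMap.range (ER 3)) 1 + 1 := by gcongr; exact I5.trans I4
        _ ≤ hl (LinearMap.range (ER 2)) (1 + 1) + c 3 * hl (⊤ : Submodule (RR k) (S3 k)) 1 := I3
        _ ≤ (hl (LinearMap.range (ER 1)) (2 + 1) + c 2 * hl (⊤ : Submodule (RR k) (S3 k)) 2) +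
            c 3 * hl (⊤ : Submodule (RR k) (S3 k)) 1 := by gcongr
        _ = hl (LinearMap.range (ER 1)) 3 + (c 2 * hl (⊤ : Submodule (RR k) (S3 k)) 2 +
            c 3 * hl (⊤ : Submodule (RR k) (S3 k)) 1) := by ring
        _ ≤ (hl (LinearMap.range (ER 0)) (3 + 1) + c 1 * hl (⊤ : Submodule (RR k) (S3 k)) 3) +
            (c 2 * hl (⊤ : Submodule (RR k) (S3 k)) 2 +
            c 3 * hl (⊤ : Submodule (RR k) (S3 k)) 1) := by gcongr
        _ ≤ ((Fintype.card (J 5) + c 0 * hl (⊤ : Submodule (RR k) (S3 k)) 4) +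
            c 1 * hl (⊤ : Submodule (RR k) (S3 k)) 3) +
            (c 2 * hl (⊤ : Submodule (RR k) (S3 k)) 2 +
            c 3 * hl (⊤ : Submodule (RR k) (S3 k)) 1) := by gcongr
        _ = _ := by ring

end Pool.Agent.H407.Gol
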