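import Mathlib
import Pool.Agent.H407.Gol.Fin3

set_option autoImplicit false
set_option linter.unusedSectionVars false

open CategoryTheory IsLocalRing

namespace Pool.Agent.H407.Gol

/-- `dim_k Tor_i^R(M,k)` -/
noncomputable def betti (R : Type) [CommRing R] [IsLocalRing R] (M : Type) [AddCommGroup M]
    [Module R M] (i : ℕ) : ℕ :=
  (Module.length R (((Tor (ModuleCat.{0} R) i).obj (ModuleCat.of R M)).obj
    (ModuleCat.of R (ResidueField R)))).toNat

/-- the Poincaré series -/
noncomputable def poincare (R : Type) [CommRing R] [IsLocalRing R] (M : Type) [AddCommGroup M]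
    [Module R M] : PowerSeries ℤ := PowerSeries.mk fun i => (betti R M i : ℤ)

/-- Golod homomorphisms -/
def IsGolod (R S : Type) [CommRing R] [IsLocalRing R] [CommRing S] [IsLocalRing S]
    [Algebra R S] : Prop :=
  poincare S (ResidueField S) * (1 - PowerSeries.X * (poincare R S - 1)) =
    poincare R (ResidueField R)

variable (k : Type) [Field k]

lemma poincare_R : poincare (RR k) (ResidueField (RR k)) =
    PowerSeries.mk fun n => (Fintype.card (J n) : ℤ) := by
  unfold poincare betti
  congr 1
  funext n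
  rw [betti_R]
  simp

theorem golod_two : IsGolod (RR k) (S2 k) := by
  have h1 : poincare (S2 k) (ResidueField (S2 k)) = PowerSeries.mk fun n => (4 : ℤ) ^ n := by
    unfold poincare betti
    congr 1
    funext n
    rw [betti_S2]
    have : ((4 ^ n : ℕ) : ℕ∞).toNat = 4 ^ n := ENat.toNat_natCast _
    rw [this]
    push_cast
    rfl
  have hb : ∀ n, (betti (RR k) (S2 k) n : ℕ∞) = hl (⊤ : Submodule (RR k) (S2 k)) n := by
    intro n
    unfold betti
    rw [length_TorX (πR k) πR_surj πR_ker]
    exact ENat.natCast_toNat (hl_ne_top n)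
  have hb0 : betti (RR k) (S2 k) 0 = 1 := by
    have h := hl_S2_zero (k := k)
    rw [card_J0, card_J1, ← hb] at h
    norm_cast at h
    omega
  have hb1 : ∀ n, Fintype.card (J (n + 1)) * 4 =
      Fintype.card (J (n + 2)) + betti (RR k) (S2 k) (n + 1) := by
    intro n
    have h := hl_S2_succ (k := k) n
    rw [← hb] at h
    exact_mod_cast h
  have h2 : (1 - PowerSeries.X * (poincare (RR k) (S2 k) - 1) : PowerSeries ℤ) =
      (PowerSeries.mk fun n => (Fintype.card (J n) : ℤ)) * (1 - PowerSeries.C 4 * PowerSeries.X) := by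
    ext n
    rw [show (PowerSeries.mk fun n => (Fintype.card (J n) : ℤ)) *
      (1 - PowerSeries.C 4 * PowerSeries.X) = (PowerSeries.mk fun n => (Fintype.card (J n) : ℤ)) -
        ((PowerSeries.mk fun n => (Fintype.card (J n) : ℤ)) *
        PowerSeries.C 4) * PowerSeries.X by ring, mul_comm PowerSeries.X]
    rcases n with _ | n
    · simp [card_J0]
    · rw [map_sub, map_sub, PowerSeries.coeff_succ_mul_X, PowerSeries.coeff_succ_mul_X,
        PowerSeries.coeff_mul_C, map_sub, PowerSeries.coeff_mk, PowerSeries.coeff_mk]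
      rcases n with _ | n
      · simp [poincare, hb0, card_J0, card_J1]
      · simp only [poincare, PowerSeries.coeff_mk, PowerSeries.coeff_one]
        have h3 := hb1 n
        have h4 : ((Fintype.card (J (n + 1)) : ℤ)) * 4 =
          Fintype.card (J (n + 2)) + betti (RR k) (S2 k) (n + 1) := by exact_mod_cast h3
        simp only [Nat.add_eq_zero_iff, one_ne_zero, and_false, if_false]
        linarith
  have h3 : ((PowerSeries.mk fun n => (4 : ℤ) ^ n) * (1 - PowerSeries.C 4 * PowerSeries.X) :
      PowerSeries ℤ) = 1 := by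
    ext n
    rw [mul_sub, mul_one, show (PowerSeries.mk fun n => (4 : ℤ) ^ n) *
      (PowerSeries.C 4 * PowerSeries.X) = (PowerSeries.mk (fun n => (4 : ℤ) ^ n) *
        PowerSeries.C 4) * PowerSeries.X by ring]
    rcases n with _ | n
    · simp
    · rw [map_sub, PowerSeries.coeff_succ_mul_X, PowerSeries.coeff_mul_C, PowerSeries.coeff_mk,
        PowerSeries.coeff_mk, PowerSeries.coeff_one]
      simp [pow_succ]
  unfold IsGolod
  rw [h1, h2, poincare_R]
  calc _ = (PowerSeries.mk fun n => (Fintype.card (J n) : ℤ)) *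
        ((PowerSeries.mk fun n => (4 : ℤ) ^ n) * (1 - PowerSeries.C 4 * PowerSeries.X)) := by ring
    _ = _ := by rw [h3, mul_one]

theorem not_golod_three : ¬ IsGolod (RR k) (S3 k) := by
  intro h
  obtain ⟨c, hc, hineq⟩ := chain k
  have hcb : ∀ n, betti (S3 k) (ResidueField (S3 k)) n = c n := by
    intro n
    unfold betti
    rw [hc]
    simp
  have hb : ∀ n, (betti (RR k) (S3 k) n : ℕ∞) = hl (⊤ : Submodule (RR k) (S3 k)) n := by
    intro n
    unfold betti
    rw [length_TorX (πR k) πR_surj πR_ker]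
    exact ENat.natCast_toNat (hl_ne_top n)
  have hb0 : 1 ≤ betti (RR k) (S3 k) 0 := by
    have h1 : (1 : ℕ∞) ≤ hl (⊤ : Submodule (RR k) (S3 k)) 0 := by
      let θ : (⊤ : Submodule (RR k) (S3 k)) →ₗ[RR k] ResidueField (S3 k) :=
        (Algebra.linearMap (S3 k) (ResidueField (S3 k))).restrictScalars (RR k) ∘ₗ
          (⊤ : Submodule (RR k) (S3 k)).subtype
      have hθ : Function.Surjective θ := by
        intro a
        obtain ⟨s, hs⟩ := residue_surjective a
        exact ⟨⟨s, trivial⟩, hs⟩
      have h2 := hl_lower (⊤ : Submodule (RR k) (S3 k)) θ hθ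
        (fun a => S3_killed a _ (by simp)) (fun a => S3_killed a _ (by simp))
        (fun a => S3_killed a _ (by simp)) (fun a => S3_killed a _ (by simp))
      rw [length_resS3] at h2
      exact h2
    rw [← hb] at h1
    exact_mod_cast h1
  rw [← hb, ← hb, ← hb, ← hb] at hineq
  have hineq' : c 5 + 1 ≤ Fintype.card (J 5) + c 0 * betti (RR k) (S3 k) 4 +
      c 1 * betti (RR k) (S3 k) 3 + c 2 * betti (RR k) (S3 k) 2 + c 3 * betti (RR k) (S3 k) 1 := by
    exact_mod_cast hineq
  unfold IsGolod at h
  rw [poincare_R] at h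
  have h5 := congrArg (PowerSeries.coeff 5) h
  rw [mul_sub, mul_one, show poincare (S3 k) (ResidueField (S3 k)) *
    (PowerSeries.X * (poincare (RR k) (S3 k) - 1)) = (poincare (S3 k) (ResidueField (S3 k)) *
    (poincare (RR k) (S3 k) - 1)) * PowerSeries.X by ring, map_sub,
    PowerSeries.coeff_succ_mul_X, PowerSeries.coeff_mul] at h5
  simp only [Finset.Nat.antidiagonal_succ, Finset.sum_cons, Finset.sum_map,
    Finset.Nat.antidiagonal_zero, Finset.map_singleton, Finset.sum_singleton, map_sub] at h5
  simp [poincare, hcb, PowerSeries.coeff_one] at h5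
  have h6 : (c 5 : ℤ) + 1 ≤ Fintype.card (J 5) + c 0 * betti (RR k) (S3 k) 4 +
      c 1 * betti (RR k) (S3 k) 3 + c 2 * betti (RR k) (S3 k) 2 + c 3 * betti (RR k) (S3 k) 1 := by
    exact_mod_cast hineq'
  have h7 : (0 : ℤ) ≤ c 4 * ((betti (RR k) (S3 k) 0 : ℤ) - 1) := by
    apply mul_nonneg (by positivity)
    have : (1 : ℤ) ≤ betti (RR k) (S3 k) 0 := by exact_mod_cast hb0
    linarith
  linarith

lemma res_equiv : Nonempty (ResidueField (RR k) ≃+* k) := by
  have hs : Function.Surjective (res0 k) := fun a => ⟨A5.C (A5.C a), rfl⟩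
  have hk : maximalIdeal (RR k) = RingHom.ker (res0 k) := by
    ext r
    rw [mem_max]
    rfl
  exact ⟨(Ideal.quotEquivOfEq hk).trans (RingHom.quotientKerEquivOfSurjective hs)⟩

end Pool.Agent.H407.Gol
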